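import Pool.Agent.Lib.H51R.D0
import Pool.Agent.Lib.H53P.TD

/-!
# H51R, chunk A1: invariance of domain in the plane
-/

set_option autoImplicit false

namespace H51R

open Set Metric Topology Filter MeasureTheory

/-- the image of the unit disc contains a neighbourhood of the image of the centre -/
theorem a1_nhds {h : ℂ → ℂ} (hc : ContinuousOn h (closedBall 0 1))
    (hi : InjOn h (closedBall 0 1)) : h '' closedBall 0 1 ∈ 𝓝 (h 0) := by
  have hpi := Real.pi_pos
  have h2pi : (0 : ℝ) ≤ 2 * Real.pi := by positivity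
  have h00 : (0 : ℂ) ∈ closedBall (0 : ℂ) 1 := by simp
  have hmem : ∀ t : ℝ, Complex.exp (t * Complex.I) ∈ closedBall (0 : ℂ) 1 := fun t => by
    rw [mem_closedBall_zero_iff, Complex.norm_exp_ofReal_mul_I]
  have hmems : ∀ t : ℝ, Complex.exp (t * Complex.I) ∈ sphere (0 : ℂ) 1 := fun t => by
    rw [mem_sphere_zero_iff_norm, Complex.norm_exp_ofReal_mul_I]
  have hexp : Continuous fun t : ℝ => Complex.exp (t * Complex.I) := by fun_prop
  have hne : ∀ w ∈ sphere (0 : ℂ) 1, h w - h 0 ≠ 0 := by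
    intro w hw h0
    have : w = 0 := hi (sphere_subset_closedBall hw) h00 (sub_eq_zero.1 h0)
    rw [mem_sphere_zero_iff_norm, this, norm_zero] at hw
    exact zero_ne_one hw
  -- the logarithm on the circle
  have hgc : ContinuousOn (fun t : ℝ => h (Complex.exp (t * Complex.I)) - h 0)
      (Icc 0 (2 * Real.pi)) :=
    ((hc.comp hexp.continuousOn (fun t _ => hmem t)).sub continuousOn_const)
  obtain ⟨L, hL, hE⟩ := H53P.ta1_star_log (K := Icc (0 : ℝ) (2 * Real.pi)) (x₀ := 0)
    isCompact_Icc ((convex_Icc _ _).starConvex (left_mem_Icc.2 h2pi)) hgc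
    (fun t _ => hne _ (hmems t))
  obtain ⟨m, hm⟩ := H53P.td1_borsuk hc hi hL hE
  -- the distance
  obtain ⟨w₀, hw₀, hmin⟩ := (isCompact_sphere (0 : ℂ) 1).exists_isMinOn
    ⟨1, by simp⟩ (f := fun w => ‖h w - h 0‖)
    (((hc.mono sphere_subset_closedBall).sub continuousOn_const).norm)
  set d := ‖h w₀ - h 0‖ with hd
  have hdpos : 0 < d := norm_pos_iff.2 (hne w₀ hw₀)
  have hdle : ∀ w ∈ sphere (0 : ℂ) 1, d ≤ ‖h w - h 0‖ := fun w hw => hmin hw
  refine Filter.mem_of_superset (ball_mem_nhds (h 0) (half_pos hdpos)) ?_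
  intro v hv
  rw [mem_ball, dist_eq_norm] at hv
  by_contra hnot
  have hnv : ∀ w ∈ closedBall (0 : ℂ) 1, h w - v ≠ 0 := fun w hw h0 =>
    hnot ⟨w, hw, sub_eq_zero.1 h0⟩
  obtain ⟨M, hM, hME⟩ := H53P.ta1_star_log (K := closedBall (0 : ℂ) 1) (x₀ := 0)
    (isCompact_closedBall _ _) ((convex_closedBall _ _).starConvex h00)
    (hc.sub (continuousOn_const (c := v))) hnv
  -- the quotient
  have hq : ∀ w ∈ sphere (0 : ℂ) 1, (h w - v) / (h w - h 0) ∈ Complex.slitPlane := by
    intro w hw
    have h1 : ‖(h w - v) / (h w - h 0) - 1‖ < 1 := by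
      have h2 : (h w - v) / (h w - h 0) - 1 = (h 0 - v) / (h w - h 0) := by
        field_simp [hne w hw]
        ring
      rw [h2, norm_div, div_lt_one (norm_pos_iff.2 (hne w hw)), norm_sub_rev]
      linarith [hdle w hw]
    left
    have h3 := Complex.abs_re_le_norm ((h w - v) / (h w - h 0) - 1)
    rw [Complex.sub_re, Complex.one_re] at h3
    have h4 := abs_lt.1 (lt_of_le_of_lt h3 h1)
    linarith [h4.1]
  set N : ℂ → ℂ := fun w => Complex.log ((h w - v) / (h w - h 0)) with hN
  have hNc : ContinuousOn N (sphere (0 : ℂ) 1) := by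
    refine ContinuousOn.clog ?_ hq
    exact (((hc.mono sphere_subset_closedBall).sub continuousOn_const).div
      ((hc.mono sphere_subset_closedBall).sub continuousOn_const) hne)
  have hF : ContinuousOn (fun t : ℝ => L t + N (Complex.exp (t * Complex.I)) -
      M (Complex.exp (t * Complex.I))) (Icc 0 (2 * Real.pi)) :=
    (hL.add (hNc.comp hexp.continuousOn (fun t _ => hmems t))).sub
      (hM.comp hexp.continuousOn (fun t _ => hmem t))
  have hconst := H53P.tb1_const (A := Icc (0 : ℝ) (2 * Real.pi)) isPreconnected_Icc hF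
    (fun t ht => by
      have h1 := hne _ (hmems t)
      have h2 := hnv _ (hmem t)
      rw [Complex.exp_sub, Complex.exp_add, hE t ht, hME _ (hmem t), hN]
      simp only
      rw [Complex.exp_log (div_ne_zero h2 h1)]
      simp only [Pi.sub_apply] at *
      field_simp)
    (P := 2 * Real.pi) (Q := 0) (right_mem_Icc.2 h2pi) (left_mem_Icc.2 h2pi)
  have he : Complex.exp (((2 * Real.pi : ℝ) : ℂ) * Complex.I) = Complex.exp (((0 : ℝ) : ℂ) * Complex.I) := by
    push_cast
    rw [Complex.exp_two_pi_mul_I, zero_mul, Complex.exp_zero]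
  simp only [he] at hconst
  have h5 : L (2 * Real.pi) - L 0 = 0 := by linear_combination hconst
  rw [h5] at hm
  have h6 : (2 * (m : ℂ) + 1) ≠ 0 := by
    intro h0
    have : (2 * m + 1 : ℤ) = 0 := by exact_mod_cast h0
    omega
  exact mul_ne_zero h6 Complex.two_pi_I_ne_zero hm.symm

/-- Invariance of domain in the plane.  PROOF.  Let `z₀ ∈ U`, `closedBall z₀ r ⊆ U`, `h w = f (z₀ + r w)`: continuous and
injective on `closedBall 0 1`.  Let `L : [0, 2π] → ℂ` be a continuous logarithm of `t ↦ h (exp (i t)) - h 0` (it has no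
zeros because `h` is injective; continuous logarithms along paths: `H53P` TA1 `ta1_star_log` on the star-shaped set
`Icc 0 (2π)`, or lift through `Complex.exp`).  By `td1_borsuk`, `L (2π) - L 0 = (2 m + 1) 2 π i ≠ 0`.  Let
`d = inf_{‖w‖ = 1} ‖h w - h 0‖ > 0`.  Claim: every `v` with `‖v - h 0‖ < d / 2` is in `h '' closedBall 0 1`, so
`h '' closedBall 0 1 ⊆ f '' U` is a neighbourhood of `f z₀`.  Otherwise `h - v` has no zeros on `closedBall 0 1`, so it has a
continuous logarithm `M` there (`ta1_star_log`).  For `‖w‖ = 1`, `‖(h w - v) / (h w - h 0) - 1‖ = ‖h 0 - v‖ / ‖h w - h 0‖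
< 1 / 2`, so the quotient has positive real part and `N w = Complex.log ((h w - v) / (h w - h 0))` is continuous on the
circle.  `t ↦ L t + N (exp (i t)) - M (exp (i t))` is continuous on `[0, 2π]` and has values in `2 π i ℤ`, so it is constant;
the last two terms are equal at `0` and `2π`, so `L (2π) = L 0`, contradiction. -/
theorem a1_open {f : ℂ → ℂ} {U : Set ℂ} (hU : IsOpen U) (hc : ContinuousOn f U)
    (hi : InjOn f U) : IsOpen (f '' U) := by
  rw [isOpen_iff_mem_nhds]
  rintro _ ⟨z₀, hz₀, rfl⟩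
  obtain ⟨r, hr, hrU⟩ := Metric.nhds_basis_closedBall.mem_iff.1 (hU.mem_nhds hz₀)
  have hmaps : MapsTo (fun w : ℂ => z₀ + r * w) (closedBall 0 1) (closedBall z₀ r) := by
    intro w hw
    rw [mem_closedBall_zero_iff] at hw
    rw [mem_closedBall, dist_eq_norm, add_sub_cancel_left, norm_mul, Complex.norm_real,
      Real.norm_eq_abs, abs_of_pos hr]
    nlinarith [norm_nonneg w]
  have hrc : (r : ℂ) ≠ 0 := by exact_mod_cast hr.ne'
  have h1 : ContinuousOn (fun w : ℂ => f (z₀ + r * w)) (closedBall 0 1) :=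
    hc.comp (by fun_prop) (fun w hw => hrU (hmaps hw))
  have h2 : InjOn (fun w : ℂ => f (z₀ + r * w)) (closedBall 0 1) := by
    intro w hw w' hw' he
    have h3 := hi (hrU (hmaps hw)) (hrU (hmaps hw')) he
    have h4 : (r : ℂ) * w = r * w' := by simpa using h3
    exact mul_left_cancel₀ hrc h4
  have h3 := a1_nhds h1 h2
  simp only [mul_zero, add_zero] at h3
  refine Filter.mem_of_superset h3 ?_
  rintro _ ⟨w, hw, rfl⟩
  exact ⟨z₀ + r * w, hrU (hmaps hw), rfl⟩

end H51R
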