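import Pool.Agent.Lib.H51R.D0

/-!
# H51R, chunk E1: elementary properties of removable sets
-/

set_option autoImplicit false

namespace H51R

open Set Metric Topology Filter MeasureTheory
open scoped ComplexConjugate

theorem e1_mono {E F : Set ℂ} (h : Removable F) (hEF : E ⊆ F) : Removable E :=
  fun f hf => h f (hf.mono (compl_subset_compl.mpr hEF))

theorem e1_empty : Removable (∅ : Set ℂ) := fun f hf => by
  rw [compl_empty] at hf
  exact differentiableOn_univ.mp hf

/-- PROOF.  `g` holomorphic off the image; `f = g ∘ (z ↦ a z + b)` is holomorphic off `E`. -/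
theorem e1_affine {E : Set ℂ} (h : Removable E) {a : ℂ} (ha : a ≠ 0) (b : ℂ) :
    Removable ((fun z => a * z + b) '' E) := by
  intro g hg
  set T : ℂ ≃ₜ ℂ := (Homeomorph.mulLeft₀ a ha).trans (Homeomorph.addRight b) with hT
  have hTz : ∀ z, T z = a * z + b := fun z => rfl
  have h1 : DifferentiableOn ℂ (T.trans g) Eᶜ := by
    have h2 : (⇑(T.trans g) : ℂ → ℂ) = g ∘ fun z => a * z + b := rfl
    rw [h2]
    apply hg.comp
    · fun_prop
    · intro z hz hz2
      obtain ⟨w, hw, hwz⟩ := hz2
      have h3 : T w = T z := hwz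
      exact hz (T.injective h3 ▸ hw)
  have h2 := h (T.trans g) h1
  have h3 : (⇑g : ℂ → ℂ) = (T.trans g) ∘ fun w => a⁻¹ * (w - b) := by
    funext w
    simp only [Function.comp_apply, Homeomorph.trans_apply, hTz]
    congr 1
    field_simp
    ring
  rw [h3]
  exact h2.comp (by fun_prop)

/-- a twist of the disc -/
noncomputable def e1T (c : ℂ) (ρ s : ℝ) (z : ℂ) : ℂ :=
  c + (z - c) * Complex.exp ((s * max (ρ - ‖z - c‖) 0 : ℝ) * Complex.I)

theorem e1T_norm (c : ℂ) (ρ s : ℝ) (z : ℂ) : ‖e1T c ρ s z - c‖ = ‖z - c‖ := by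
  unfold e1T
  rw [add_sub_cancel_left, norm_mul, Complex.norm_exp_ofReal_mul_I, mul_one]

theorem e1T_inv (c : ℂ) (ρ s : ℝ) (z : ℂ) : e1T c ρ (-s) (e1T c ρ s z) = z := by
  have h1 := e1T_norm c ρ s z
  have h2 : e1T c ρ (-s) (e1T c ρ s z) = c + (e1T c ρ s z - c) *
    Complex.exp ((-s * max (ρ - ‖z - c‖) 0 : ℝ) * Complex.I) := by
    rw [← h1]
    rfl
  rw [h2]
  unfold e1T
  rw [add_sub_cancel_left, mul_assoc, ← Complex.exp_add]
  have h3 : ((s * max (ρ - ‖z - c‖) 0 : ℝ) : ℂ) * Complex.I +
      ((-s * max (ρ - ‖z - c‖) 0 : ℝ) : ℂ) * Complex.I = 0 := by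
    push_cast
    ring
  rw [h3, Complex.exp_zero, mul_one]
  ring

theorem e1T_cont (c : ℂ) (ρ s : ℝ) : Continuous (e1T c ρ s) := by
  unfold e1T
  fun_prop

/-- the twist as a homeomorphism -/
noncomputable def e1H (c : ℂ) (ρ : ℝ) : ℂ ≃ₜ ℂ where
  toFun := e1T c ρ 1
  invFun := e1T c ρ (-1)
  left_inv := e1T_inv c ρ 1
  right_inv := fun z => by
    have h := e1T_inv c ρ (-1) z
    rwa [neg_neg] at h
  continuous_toFun := e1T_cont c ρ 1
  continuous_invFun := e1T_cont c ρ (-1)

/-- A removable set has empty interior.  PROOF.  Let `ball c r ⊆ E`, `0 < r < 1`.  The map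
`T z = c + (z - c) * exp (i max (r - ‖z - c‖) 0)` is a homeomorphism of the plane (inverse with `- i`), equal to the identity
off `ball c r`, so holomorphic on `Eᶜ` (an equality near every point of `Eᶜ` needs care: if `closedBall c r' ⊆ E` for some
smaller `r' < r`, use `r'` in the definition of `T`, so that `T` is the identity on the open set `(closedBall c r')ᶜ ⊇ Eᶜ`).
If `T` were entire it would be the identity by the identity theorem, but it moves `c + r'/2`. -/
theorem e1_interior {E : Set ℂ} (h : Removable E) : interior E = ∅ := by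
  rw [eq_empty_iff_forall_notMem]
  intro c hc
  obtain ⟨r, hr, hrE⟩ := Metric.isOpen_iff.1 isOpen_interior c hc
  set ρ : ℝ := min (r / 2) 1 with hρ
  have hρ0 : 0 < ρ := by positivity
  have hρ1 : ρ ≤ 1 := min_le_right _ _
  have hρr : ρ < r := lt_of_le_of_lt (min_le_left _ _) (by linarith)
  have hid : ∀ z : ℂ, ρ < ‖z - c‖ → e1H c ρ =ᶠ[𝓝 z] fun w => w := by
    intro z hz
    have h1 : IsOpen {w : ℂ | ρ < ‖w - c‖} := isOpen_lt continuous_const (by fun_prop)
    filter_upwards [h1.mem_nhds hz] with w hw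
    have hw' : ρ < ‖w - c‖ := hw
    change e1T c ρ 1 w = w
    unfold e1T
    rw [max_eq_right (by linarith), mul_zero, Complex.ofReal_zero, zero_mul, Complex.exp_zero, mul_one]
    ring
  have h1 : DifferentiableOn ℂ (e1H c ρ) Eᶜ := by
    intro z hz
    have h2 : ρ < ‖z - c‖ := by
      by_contra h3
      rw [not_lt] at h3
      apply hz
      apply interior_subset
      apply hrE
      rw [mem_ball, dist_eq_norm]
      linarith
    exact (differentiableAt_id.congr_of_eventuallyEq (hid z h2)).differentiableWithinAt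
  have h2 := h (e1H c ρ) h1
  have h3 : (e1H c ρ : ℂ → ℂ) = fun w => w := by
    apply AnalyticOnNhd.eq_of_eventuallyEq (𝕜 := ℂ) (z₀ := c + 2)
    · exact fun z _ => h2.analyticAt z
    · exact fun z _ => differentiable_id.analyticAt z
    · apply hid
      rw [add_sub_cancel_left]
      have : ‖(2 : ℂ)‖ = 2 := by norm_num
      linarith
  have h4 := congrFun h3 (c + (ρ / 2 : ℝ))
  change e1T c ρ 1 (c + (ρ / 2 : ℝ)) = c + (ρ / 2 : ℝ) at h4
  unfold e1T at h4
  rw [add_sub_cancel_left, Complex.norm_real, Real.norm_eq_abs, abs_of_pos (by positivity),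
    max_eq_left (by linarith)] at h4
  have h5 : Complex.exp ((1 * (ρ - ρ / 2) : ℝ) * Complex.I) = 1 := by
    have h6 : ((ρ / 2 : ℝ) : ℂ) * Complex.exp ((1 * (ρ - ρ / 2) : ℝ) * Complex.I) = ((ρ / 2 : ℝ) : ℂ) * 1 := by
      rw [mul_one]
      exact add_left_cancel h4
    refine mul_left_cancel₀ ?_ h6
    rw [Complex.ofReal_ne_zero]
    positivity
  have h6 := congrArg Complex.im h5
  rw [Complex.exp_ofReal_mul_I_im, Complex.one_im] at h6
  have h7 : 0 < Real.sin (1 * (ρ - ρ / 2)) := by
    apply Real.sin_pos_of_pos_of_lt_pi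
    · linarith
    · have := Real.pi_gt_three
      linarith
  linarith

/-- A locally removable set is removable. -/
theorem e1_loc {E : Set ℂ} (h : LocRemovable E) : Removable E := fun f hf => by
  rw [compl_eq_univ_diff] at hf
  exact differentiableOn_univ.mp (h univ isOpen_univ f f.continuous.continuousOn
    f.injective.injOn hf)

/-- The union of a locally removable set and a removable closed set is removable. -/
theorem e1_union {E B : Set ℂ} (h : LocRemovable E) (hB : IsClosed B) (hr : Removable B) :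
    Removable (E ∪ B) := fun f hf => by
  apply hr f
  apply h Bᶜ hB.isOpen_compl f f.continuous.continuousOn f.injective.injOn
  apply hf.mono
  rw [compl_union, diff_eq, inter_comm]

end H51R
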