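import Pool.Agent.Lib.H51R.D0

/-!
# H51R, chunk B1: Montel's theorem for sequences bounded by one
-/

set_option autoImplicit false

namespace H51R

open Set Metric Topology Filter MeasureTheory

theorem b1_lip {Ω : Set ℂ} (hΩ : IsOpen Ω) {g : ℂ → ℂ} (hd : DifferentiableOn ℂ g Ω)
    (hb : ∀ z ∈ Ω, ‖g z‖ ≤ 1) {z : ℂ} {r : ℝ} (hr : 0 < r) (hsub : closedBall z (2 * r) ⊆ Ω) {x y : ℂ}
    (hx : x ∈ closedBall z r) (hy : y ∈ closedBall z r) : ‖g y - g x‖ ≤ 1 / r * ‖y - x‖ := by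
  have hs1 : closedBall z r ⊆ Ω := (closedBall_subset_closedBall (by linarith)).trans hsub
  refine Convex.norm_image_sub_le_of_norm_deriv_le (s := closedBall z r) (𝕜 := ℂ)
    (fun w hw => hd.differentiableAt (hΩ.mem_nhds (hs1 hw))) (fun w hw => ?_) (convex_closedBall z r) hx hy
  have hs2 : closedBall w r ⊆ Ω := by
    refine Subset.trans (fun v hv => ?_) hsub
    rw [mem_closedBall] at hv hw ⊢
    linarith [dist_triangle v w z]
  refine Complex.norm_deriv_le_of_forall_mem_sphere_norm_le hr ?_ (fun v hv => hb v (hs2 (sphere_subset_closedBall hv)))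
  refine DifferentiableOn.diffContOnCl (hd.mono ?_)
  rw [closure_ball w hr.ne']
  exact hs2

theorem b1_cauchy {Ω : Set ℂ} (hΩ : IsOpen Ω) {g : ℕ → ℂ → ℂ}
    (hd : ∀ n, DifferentiableOn ℂ (g n) Ω) (hb : ∀ n, ∀ z ∈ Ω, ‖g n z‖ ≤ 1) {u : ℕ → Ω} (hu : DenseRange u)
    (hc : ∀ k, CauchySeq (fun n => g n (u k))) {z : ℂ} (hz : z ∈ Ω) : ∃ ρ > 0, ∀ ε > 0, ∃ N : ℕ,
      ∀ m ≥ N, ∀ n ≥ N, ∀ x ∈ closedBall z ρ ∩ Ω, ‖g m x - g n x‖ ≤ ε := by
  obtain ⟨r0, hr0, hr0s⟩ := Metric.isOpen_iff.mp hΩ z hz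
  obtain ⟨r, hr, hrs⟩ : ∃ r > 0, closedBall z (2 * r) ⊆ Ω :=
    ⟨r0 / 4, by positivity, (closedBall_subset_ball (by linarith)).trans hr0s⟩
  refine ⟨r / 2, by positivity, fun ε hε => ?_⟩
  set δ := min (ε * r / 4) (r / 2) with hδ
  have hδp : 0 < δ := by positivity
  have hδ1 : δ ≤ ε * r / 4 := min_le_left _ _
  have hδ2 : δ ≤ r / 2 := min_le_right _ _
  have hsubΩ : closedBall z (r / 2) ⊆ Ω := (closedBall_subset_closedBall (by linarith)).trans hrs
  have hcov : closedBall z (r / 2) ⊆ ⋃ k : ℕ, ball (u k : ℂ) δ := by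
    intro x hx
    obtain ⟨k, hk⟩ := hu.exists_dist_lt (⟨x, hsubΩ hx⟩ : Ω) hδp
    exact mem_iUnion.mpr ⟨k, hk⟩
  obtain ⟨t, ht⟩ := (isCompact_closedBall z (r / 2)).elim_finite_subcover _ (fun k => isOpen_ball) hcov
  have hN : ∀ k, ∃ N, ∀ m ≥ N, ∀ n ≥ N, dist (g m (u k)) (g n (u k)) < ε / 4 := fun k =>
    Metric.cauchySeq_iff.mp (hc k) (ε / 4) (by positivity)
  choose Nf hNf using hN
  refine ⟨t.sup Nf, fun m hm n hn x hx => ?_⟩
  have hx1 := ht hx.1
  simp only [mem_iUnion] at hx1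
  obtain ⟨k, hk, hxk⟩ := hx1
  have hNk : Nf k ≤ t.sup Nf := Finset.le_sup hk
  have h1 := hNf k m (hNk.trans hm) n (hNk.trans hn)
  rw [dist_eq_norm] at h1
  have hxr : x ∈ closedBall z r := (closedBall_subset_closedBall (by linarith)) hx.1
  have hur : (u k : ℂ) ∈ closedBall z r := by
    have h2 : dist x z ≤ r / 2 := hx.1
    have h3 : dist x (u k) < δ := hxk
    rw [mem_closedBall]
    have h4 := dist_triangle (u k : ℂ) x z
    rw [dist_comm (u k : ℂ) x] at h4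
    linarith
  have hxu : ‖x - u k‖ < δ := by
    have h3 : dist x (u k) < δ := hxk
    rwa [dist_eq_norm] at h3
  have hb1 : 1 / r * ‖x - u k‖ ≤ ε / 4 := by
    have : 1 / r * ‖x - u k‖ ≤ 1 / r * (ε * r / 4) := by
      have h5 : ‖x - u k‖ ≤ ε * r / 4 := hxu.le.trans hδ1
      gcongr
    refine this.trans (le_of_eq ?_)
    field_simp
  have h2 := b1_lip hΩ (hd m) (hb m) hr hrs hur hxr
  have h3 := b1_lip hΩ (hd n) (hb n) hr hrs hur hxr
  have e : g m x - g n x = (g m x - g m (u k)) + (g m (u k) - g n (u k)) - (g n x - g n (u k)) := by ring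
  rw [e]
  refine (norm_sub_le _ _).trans ?_
  have h4 := norm_add_le (g m x - g m (u k)) (g m (u k) - g n (u k))
  linarith

/-- Montel.  PROOF.  (1) Cauchy estimate: if `closedBall z (2 r) ⊆ Ω` then every `g n` is Lipschitz with constant `1 / r` on
`closedBall z r` (`Complex.norm_deriv_le_of_forall_mem_sphere_norm_le`, convexity).  (2) Let `D` be a countable dense subset of
`Ω` (enumerate it as a sequence `d : ℕ → ℂ`, `d k ∈ Ω`; `Ω = ∅` is trivial).  The points `fun k => g n (d k)` are in the compact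
metrizable space `ℕ → closedBall 0 1`, so there is a subsequence `φ` such that `g (φ n) (d k)` converges for every `k`.
(3) With (1), `g (φ n) z` is a Cauchy sequence for every `z ∈ Ω`, uniformly for `z` in a neighbourhood of any point of `Ω`
(cover `closedBall z r` by finitely many balls of radius `ε r / 3` around points of `D`): so it converges locally uniformly
(for instance to `G z = limUnder atTop (fun n => g (φ n) z)`). -/
theorem b1_montel {Ω : Set ℂ} (hΩ : IsOpen Ω) (g : ℕ → ℂ → ℂ)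
    (hd : ∀ n, DifferentiableOn ℂ (g n) Ω) (hb : ∀ n, ∀ z ∈ Ω, ‖g n z‖ ≤ 1) :
    ∃ (φ : ℕ → ℕ) (G : ℂ → ℂ), StrictMono φ ∧
      TendstoLocallyUniformlyOn (fun n => g (φ n)) G atTop Ω := by
  rcases Ω.eq_empty_or_nonempty with hE | hne
  · subst hE
    refine ⟨id, fun _ => 0, strictMono_id, ?_⟩
    intro v _ x hx
    exact absurd hx (notMem_empty x)
  have hneT : Nonempty Ω := hne.to_subtype
  obtain ⟨u, hu⟩ := TopologicalSpace.exists_dense_seq Ω
  have hcs : CompactSpace (closedBall (0 : ℂ) 1) := isCompact_iff_compactSpace.mp (isCompact_closedBall 0 1)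
  obtain ⟨L, φ, hφ, hL⟩ := CompactSpace.tendsto_subseq
    (fun (n : ℕ) (k : ℕ) => (⟨g n (u k), by
      rw [mem_closedBall_zero_iff]
      exact hb n _ (u k).2⟩ : closedBall (0 : ℂ) 1))
  have hc : ∀ k, CauchySeq (fun n => g (φ n) (u k)) := by
    intro k
    have h1 : Tendsto (fun n => (⟨g (φ n) (u k), by
      rw [mem_closedBall_zero_iff]
      exact hb (φ n) _ (u k).2⟩ : closedBall (0 : ℂ) 1)) atTop (𝓝 (L k)) := (tendsto_pi_nhds.mp hL) k
    have h2 : Tendsto (fun n => g (φ n) (u k)) atTop (𝓝 ((L k : closedBall (0 : ℂ) 1) : ℂ)) :=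
      (continuous_subtype_val.tendsto (L k)).comp h1
    exact h2.cauchySeq
  have key := fun (z : ℂ) (hz : z ∈ Ω) => b1_cauchy hΩ (g := fun n => g (φ n)) (fun n => hd (φ n))
    (fun n => hb (φ n)) hu hc hz
  have hlim : ∀ z ∈ Ω, ∃ l, Tendsto (fun n => g (φ n) z) atTop (𝓝 l) := by
    intro z hz
    obtain ⟨ρ, hρ, h⟩ := key z hz
    refine cauchySeq_tendsto_of_complete (Metric.cauchySeq_iff.mpr fun ε hε => ?_)
    obtain ⟨N, hN⟩ := h (ε / 2) (by positivity)
    refine ⟨N, fun m hm n hn => ?_⟩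
    have := hN m hm n hn z ⟨mem_closedBall_self hρ.le, hz⟩
    rw [dist_eq_norm]
    linarith
  classical
  refine ⟨φ, fun z => if hz : z ∈ Ω then (hlim z hz).choose else 0, hφ, ?_⟩
  rw [Metric.tendstoLocallyUniformlyOn_iff]
  intro ε hε z hz
  obtain ⟨ρ, hρ, h⟩ := key z hz
  refine ⟨closedBall z ρ ∩ Ω, ?_, ?_⟩
  · exact Filter.inter_mem (mem_nhdsWithin_of_mem_nhds (closedBall_mem_nhds z hρ)) self_mem_nhdsWithin
  · obtain ⟨N, hN⟩ := h (ε / 2) (by positivity)
    refine eventually_atTop.mpr ⟨N, fun n hn x hx => ?_⟩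
    rw [dif_pos hx.2]
    have hl := (hlim x hx.2).choose_spec
    have h1 : ‖(hlim x hx.2).choose - g (φ n) x‖ ≤ ε / 2 := by
      refine le_of_tendsto (hl.sub_const (g (φ n) x)).norm (eventually_atTop.mpr ⟨N, fun m hm => ?_⟩)
      exact hN m hm n hn x hx
    rw [dist_eq_norm]
    linarith

end H51R
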