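import Pool.Agent.Lib.H51R.D0

/-!
# H51R, chunk B2: Hurwitz' theorem on limits of injective holomorphic functions
-/

set_option autoImplicit false

namespace H51R

open Set Metric Topology Filter MeasureTheory

/-- Hurwitz.  PROOF.  `G` is holomorphic on `Ω` (`TendstoLocallyUniformlyOn.differentiableOn`).  Suppose `G a = G b`,
`a ≠ b` in `Ω`, and `G` is not constant on `Ω`.  `H z = G z - G b`, `h n z = g n z - g n b`.  By the identity theorem
(`AnalyticOnNhd.eqOn_zero_of_preconnected_of_frequently_eq_zero`) the zero `a` of `H` is isolated: there is `r > 0` with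
`closedBall a r ⊆ Ω`, `b ∉ closedBall a r` and `H ≠ 0` on `sphere a r`; let `m > 0` be the minimum of `‖H‖` on the (compact,
nonempty) sphere.  For large `n`, `‖h n z - H z‖ < m / 2` on `closedBall a r` (uniform convergence on the compact set
`closedBall a r ∪ {b}`), so `‖h n‖ ≥ m / 2` on the sphere and `‖h n a‖ < m / 2` (`H a = 0`).  But `h n` has no zeros on
`closedBall a r` (`g n` is injective), so `1 / h n` is holomorphic there and the maximum principle
(`Complex.norm_le_of_forall_mem_frontier_norm_le` on `ball a r`) gives `1 / ‖h n a‖ ≤ 2 / m`, that is `‖h n a‖ ≥ m / 2`: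
contradiction. -/
theorem b2_hurwitz {Ω : Set ℂ} (hΩ : IsOpen Ω) (hp : IsPreconnected Ω) {g : ℕ → ℂ → ℂ} {G : ℂ → ℂ}
    (hd : ∀ n, DifferentiableOn ℂ (g n) Ω) (hi : ∀ n, InjOn (g n) Ω)
    (hl : TendstoLocallyUniformlyOn g G atTop Ω) :
    (∃ c, ∀ z ∈ Ω, G z = c) ∨ InjOn G Ω := by
  by_cases hconst : ∃ c, ∀ z ∈ Ω, G z = c
  · exact Or.inl hconst
  refine Or.inr ?_
  intro a ha b hb hab
  by_contra hne
  have hGd : DifferentiableOn ℂ G Ω := hl.differentiableOn (Filter.Eventually.of_forall hd) hΩ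
  have hHd : DifferentiableOn ℂ (fun z => G z - G b) Ω := hGd.sub_const _
  have hHa : AnalyticOnNhd ℂ (fun z => G z - G b) Ω := hHd.analyticOnNhd hΩ
  have hev : ∀ᶠ z in 𝓝[≠] a, G z - G b ≠ 0 := by
    by_contra hfreq
    rw [Filter.not_eventually] at hfreq
    have hfreq' : ∃ᶠ z in 𝓝[≠] a, (fun z => G z - G b) z = 0 := hfreq.mono fun z hz => not_not.mp hz
    have h0 := hHa.eqOn_zero_of_preconnected_of_frequently_eq_zero hp ha hfreq'
    exact hconst ⟨G b, fun z hz => sub_eq_zero.mp (h0 hz)⟩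
  rw [eventually_nhdsWithin_iff] at hev
  have hab' : 0 < dist b a := dist_pos.mpr (fun h => hne h.symm)
  have hall : ∀ᶠ z in 𝓝 a, (z ∈ ({a}ᶜ : Set ℂ) → G z - G b ≠ 0) ∧ z ∈ Ω ∧ dist z a < dist b a :=
    hev.and ((hΩ.eventually_mem ha).and (Metric.isOpen_ball.eventually_mem (mem_ball_self hab')))
  obtain ⟨r0, hr0, hr⟩ := Metric.eventually_nhds_iff_ball.mp hall
  obtain ⟨r, hrp, hrr⟩ : ∃ r, 0 < r ∧ r < r0 := ⟨r0 / 2, by linarith, by linarith⟩
  have hsub : ∀ z ∈ closedBall a r, z ∈ ball a r0 := fun z hz => closedBall_subset_ball hrr hz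
  have hcb : closedBall a r ⊆ Ω := fun z hz => (hr z (hsub z hz)).2.1
  have hbn : b ∉ closedBall a r := fun h => lt_irrefl _ ((hr b (hsub b h)).2.2)
  have hHne : ∀ z ∈ sphere a r, G z - G b ≠ 0 := by
    intro z hz
    refine (hr z (hsub z (sphere_subset_closedBall hz))).1 ?_
    intro h
    rw [mem_singleton_iff] at h
    rw [h, mem_sphere, dist_self] at hz
    linarith
  have hsc : IsCompact (sphere a r) := isCompact_sphere a r
  have hsne : (sphere a r).Nonempty := by
    refine ⟨a + r, ?_⟩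
    rw [mem_sphere, dist_eq_norm]
    simp [abs_of_pos hrp]
  obtain ⟨z0, hz0, hmin⟩ := hsc.exists_isMinOn hsne
    ((hHd.continuousOn.mono (sphere_subset_closedBall.trans hcb)).norm)
  set m := ‖G z0 - G b‖ with hm
  have hmp : 0 < m := norm_pos_iff.mpr (hHne z0 hz0)
  have hmin' : ∀ z ∈ sphere a r, m ≤ ‖G z - G b‖ := fun z hz => hmin hz
  have hK : IsCompact (closedBall a r ∪ {b}) := (isCompact_closedBall a r).union isCompact_singleton
  have hKs : closedBall a r ∪ {b} ⊆ Ω := union_subset hcb (singleton_subset_iff.mpr hb)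
  have hu := (tendstoLocallyUniformlyOn_iff_forall_isCompact hΩ).mp hl _ hKs hK
  rw [Metric.tendstoUniformlyOn_iff] at hu
  obtain ⟨n, hn⟩ := (hu (m / 4) (by positivity)).exists
  have hclose : ∀ z ∈ closedBall a r, ‖(g n z - g n b) - (G z - G b)‖ < m / 2 := by
    intro z hz
    have h1 := hn z (Or.inl hz)
    have h2 := hn b (Or.inr rfl)
    rw [dist_eq_norm] at h1 h2
    have h3 : (g n z - g n b) - (G z - G b) = (G b - g n b) - (G z - g n z) := by ring
    rw [h3]
    refine (norm_sub_le _ _).trans_lt ?_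
    linarith
  have hhd : DifferentiableOn ℂ (fun z => (g n z - g n b)⁻¹) (closure (ball a r)) := by
    rw [closure_ball a hrp.ne']
    refine DifferentiableOn.inv (((hd n).mono hcb).sub_const _) (fun z hz h => ?_)
    have := hi n (hcb hz) hb (sub_eq_zero.mp h)
    rw [this] at hz
    exact hbn hz
  have hfr : ∀ z ∈ frontier (ball a r), ‖(g n z - g n b)⁻¹‖ ≤ (m / 2)⁻¹ := by
    intro z hz
    rw [frontier_ball a hrp.ne'] at hz
    rw [norm_inv]
    refine inv_anti₀ (by positivity) ?_
    have h1 := hclose z (sphere_subset_closedBall hz)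
    have h2 := hmin' z hz
    have h3 : ‖G z - G b‖ ≤ ‖g n z - g n b‖ + ‖(g n z - g n b) - (G z - G b)‖ := by
      have := norm_sub_le (g n z - g n b) ((g n z - g n b) - (G z - G b))
      rwa [sub_sub_cancel] at this
    linarith
  have hmax := Complex.norm_le_of_forall_mem_frontier_norm_le isBounded_ball hhd.diffContOnCl hfr
    (subset_closure (mem_ball_self hrp))
  have hha : g n a - g n b ≠ 0 := fun h => hne (hi n ha hb (sub_eq_zero.mp h))
  have h1 := hclose a (mem_closedBall_self hrp.le)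
  rw [hab, sub_self, sub_zero] at h1
  rw [norm_inv] at hmax
  have h2 := inv_anti₀ (inv_pos.mpr (norm_pos_iff.mpr hha)) hmax
  rw [inv_inv, inv_inv] at h2
  linarith

end H51R
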