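import Pool.Agent.Lib.H51R.D0

/-!
# H51R, chunk B3: injective holomorphic functions have nonvanishing derivative and a holomorphic inverse
-/

set_option autoImplicit false

namespace H51R

open Set Metric Topology Filter MeasureTheory

theorem b3_nonconst {U : Set ℂ} {g : ℂ → ℂ} (hi : InjOn g U) {z : ℂ} {r : ℝ} (hr : 0 < r) (hs : ball z r ⊆ U)
    {c : ℂ} (hc : ∀ w ∈ ball z r, g w = c) : False := by
  have h1 : z ∈ ball z r := mem_ball_self hr
  have h2 : z + (r / 2 : ℝ) ∈ ball z r := by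
    rw [mem_ball, dist_eq_norm, add_sub_cancel_left, Complex.norm_real, Real.norm_eq_abs, abs_of_pos (by linarith)]
    linarith
  have h3 := hi (hs h1) (hs h2) ((hc _ h1).trans (hc _ h2).symm)
  have h4 : ((r / 2 : ℝ) : ℂ) = 0 := by linear_combination -h3
  have h5 : r / 2 = 0 := by exact_mod_cast h4
  linarith

theorem b3_open {U : Set ℂ} {g : ℂ → ℂ} (hd : DifferentiableOn ℂ g U)
    (hi : InjOn g U) {V : Set ℂ} (hV : IsOpen V) (hVU : V ⊆ U) : IsOpen (g '' V) := by
  rw [isOpen_iff_mem_nhds]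
  rintro _ ⟨v, hv, rfl⟩
  obtain ⟨r, hr, hrs⟩ := Metric.isOpen_iff.mp hV v hv
  have hdb : DifferentiableOn ℂ g (ball v r) := hd.mono (hrs.trans hVU)
  rcases (hdb.analyticOnNhd isOpen_ball).is_constant_or_isOpen (convex_ball v r).isPreconnected with ⟨c, hc⟩ | h
  · exact (b3_nonconst hi hr (hrs.trans hVU) hc).elim
  · exact Filter.mem_of_superset ((h _ Subset.rfl isOpen_ball).mem_nhds (mem_image_of_mem g (mem_ball_self hr)))
      (image_mono hrs)

theorem b3_inv_apply {U : Set ℂ} {g : ℂ → ℂ} (hi : InjOn g U) {z : ℂ} (hz : z ∈ U) :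
    Function.invFunOn g U (g z) = z :=
  hi (Function.invFunOn_mem ⟨z, hz, rfl⟩) hz (Function.invFunOn_eq ⟨z, hz, rfl⟩)

theorem b3_cont {U : Set ℂ} (hU : IsOpen U) {g : ℂ → ℂ} (hd : DifferentiableOn ℂ g U)
    (hi : InjOn g U) {z : ℂ} (hz : z ∈ U) : ContinuousAt (Function.invFunOn g U) (g z) := by
  rw [Metric.continuousAt_iff']
  intro ε hε
  rw [b3_inv_apply hi hz]
  have ho : IsOpen (g '' (U ∩ ball z ε)) := b3_open hd hi (hU.inter isOpen_ball) inter_subset_left
  filter_upwards [ho.mem_nhds (mem_image_of_mem g ⟨hz, mem_ball_self hε⟩)]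
  rintro _ ⟨v, ⟨hvU, hvb⟩, rfl⟩
  rw [b3_inv_apply hi hvU]
  exact hvb

theorem b3_hd {U : Set ℂ} (hU : IsOpen U) {g : ℂ → ℂ} (hd : DifferentiableOn ℂ g U)
    (hi : InjOn g U) {z : ℂ} (hz : z ∈ U) (h0 : deriv g z ≠ 0) :
    HasDerivAt (Function.invFunOn g U) (deriv g z)⁻¹ (g z) := by
  have ho : IsOpen (g '' U) := b3_open hd hi hU Subset.rfl
  refine HasDerivAt.of_local_left_inverse (f := g) (b3_cont hU hd hi hz) ?_ h0 ?_
  · rw [b3_inv_apply hi hz]
    exact (hd.differentiableAt (hU.mem_nhds hz)).hasDerivAt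
  · filter_upwards [ho.mem_nhds (mem_image_of_mem g hz)]
    rintro _ ⟨v, hv, rfl⟩
    rw [b3_inv_apply hi hv]

/-- PROOF.  Let `g' z = 0`.  `g` is not locally constant at `z` (injective), so `g w - g z = (w - z) ^ n * h w` near `z` with
`h` analytic, `h z ≠ 0` (`AnalyticAt.analyticOrderAt_ne_top`), `n ≥ 1`, and `n ≠ 1` because `g' z = 0`.  Near `z`,
`h = k ^ n` with `k` analytic (`k w = exp (log (h w / h z) / n) * (an n-th root of h z)`), so `g w - g z = (q w) ^ n` with
`q w = (w - z) * k w`, `q z = 0`, `q' z = k z ≠ 0`.  `q` is a local homeomorphism at `z`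
(`HasStrictDerivAt.map_nhds_eq` or `toOpenPartialHomeomorph`): for small `ε ≠ 0` the two different points `ε` and `ω ε`,
`ω = exp (2 π i / n) ≠ 1`, are values `q w₁`, `q w₂` with `w₁, w₂ ∈ U`, and `g w₁ = g w₂`, `w₁ ≠ w₂`: contradiction.
(An alternative: Mathlib may have a lemma of this kind.) -/
theorem b3_deriv_ne {U : Set ℂ} (hU : IsOpen U) {g : ℂ → ℂ} (hd : DifferentiableOn ℂ g U)
    (hi : InjOn g U) {z : ℂ} (hz : z ∈ U) : deriv g z ≠ 0 := by
  -- the zeros of the derivative are isolated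
  have hda : AnalyticAt ℂ (deriv g) z := ((hd.analyticOnNhd hU).deriv) z hz
  have hne : ∀ᶠ w in 𝓝[≠] z, deriv g w ≠ 0 := by
    rcases hda.eventually_eq_zero_or_eventually_ne_zero with h | h
    · exfalso
      obtain ⟨r, hr, hrs⟩ := Metric.eventually_nhds_iff_ball.mp (h.and (hU.eventually_mem hz))
      have hsub : ball z r ⊆ U := fun w hw => (hrs w hw).2
      refine b3_nonconst hi hr hsub (c := g z) (fun w hw => ?_)
      exact isOpen_ball.is_const_of_deriv_eq_zero (convex_ball z r).isPreconnected (hd.mono hsub)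
        (fun x hx => (hrs x hx).1) hw (mem_ball_self hr)
    · exact h
  rw [eventually_nhdsWithin_iff] at hne
  obtain ⟨r, hr, hrs⟩ := Metric.eventually_nhds_iff_ball.mp (hne.and (hU.eventually_mem hz))
  have hsub : ball z r ⊆ U := fun w hw => (hrs w hw).2
  have ho : IsOpen (g '' ball z r) := b3_open hd hi isOpen_ball hsub
  have hdiff : DifferentiableOn ℂ (Function.invFunOn g U) (g '' ball z r) := by
    rw [← Complex.differentiableOn_compl_singleton_and_continuousAt_iff
      (ho.mem_nhds (mem_image_of_mem g (mem_ball_self hr)))]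
    refine ⟨?_, b3_cont hU hd hi hz⟩
    rintro _ ⟨⟨v, hv, rfl⟩, hvz⟩
    have hv' : v ∈ ({z}ᶜ : Set ℂ) := fun h => hvz (by rw [mem_singleton_iff.mp h]; rfl)
    exact (b3_hd hU hd hi (hsub hv) ((hrs v hv).1 hv')).differentiableAt.differentiableWithinAt
  have h1 : DifferentiableAt ℂ (Function.invFunOn g U) (g z) :=
    hdiff.differentiableAt (ho.mem_nhds (mem_image_of_mem g (mem_ball_self hr)))
  have h2 : HasDerivAt g (deriv g z) z := (hd.differentiableAt (hU.mem_nhds hz)).hasDerivAt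
  have h3 := h1.hasDerivAt.comp z h2
  have h4 : HasDerivAt (Function.invFunOn g U ∘ g) 1 z := by
    refine (hasDerivAt_id z).congr_of_eventuallyEq ?_
    filter_upwards [hU.mem_nhds hz] with w hw
    exact b3_inv_apply hi hw
  have h5 := h3.unique h4
  intro h6
  rw [h6, mul_zero] at h5
  exact zero_ne_one h5

/-- PROOF.  `g '' U` is open: `HasStrictDerivAt.map_nhds_eq` at every point (`b3_deriv_ne`).  Take `φ = invFunOn g U`;
`HasStrictDerivAt.to_localInverse` / `HasDerivAt.of_local_left_inverse` with the continuity of `φ` (`g` is open on `U`). -/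
theorem b3_inverse {U : Set ℂ} (hU : IsOpen U) {g : ℂ → ℂ} (hd : DifferentiableOn ℂ g U)
    (hi : InjOn g U) :
    IsOpen (g '' U) ∧ ∃ φ : ℂ → ℂ, DifferentiableOn ℂ φ (g '' U) ∧ (∀ z ∈ U, φ (g z) = z) := by
  refine ⟨b3_open hd hi hU Subset.rfl, Function.invFunOn g U, ?_, fun z hz => b3_inv_apply hi hz⟩
  rintro _ ⟨z, hz, rfl⟩
  exact (b3_hd hU hd hi hz (b3_deriv_ne hU hd hi hz)).differentiableAt.differentiableWithinAt

end H51R
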