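import Pool.Agent.Lib.H51R.B3

/-!
# H51R, chunk B4: the step of Koebe
-/

set_option autoImplicit false

namespace H51R

open Set Metric Topology Filter MeasureTheory

/-- the Moebius map of the ball which maps `α` to `0` -/
noncomputable def b4T (α z : ℂ) : ℂ := (z - α) / (1 - starRingEnd ℂ α * z)

theorem b4_den {α z : ℂ} (hα : ‖α‖ < 1) (hz : ‖z‖ ≤ 1) : 1 - starRingEnd ℂ α * z ≠ 0 := by
  intro h
  have h1 : starRingEnd ℂ α * z = 1 := by linear_combination -h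
  have h2 : ‖α‖ * ‖z‖ = 1 := by
    have := congrArg norm h1
    rwa [norm_mul, Complex.norm_conj, norm_one] at this
  nlinarith [norm_nonneg α, norm_nonneg z]

theorem b4_norm {α z : ℂ} (hα : ‖α‖ < 1) (hz : ‖z‖ < 1) : ‖b4T α z‖ < 1 := by
  have hd := b4_den hα hz.le
  have hdp : 0 < ‖1 - starRingEnd ℂ α * z‖ := norm_pos_iff.mpr hd
  unfold b4T
  rw [norm_div, div_lt_one hdp]
  have h1 : ‖1 - starRingEnd ℂ α * z‖ ^ 2 - ‖z - α‖ ^ 2 = (1 - ‖α‖ ^ 2) * (1 - ‖z‖ ^ 2) := by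
    rw [← Complex.normSq_eq_norm_sq, ← Complex.normSq_eq_norm_sq, ← Complex.normSq_eq_norm_sq,
      ← Complex.normSq_eq_norm_sq]
    simp only [Complex.normSq_apply, Complex.sub_re, Complex.sub_im, Complex.one_re, Complex.one_im,
      Complex.mul_re, Complex.mul_im, Complex.conj_re, Complex.conj_im]
    ring
  have h2 : 0 < (1 - ‖α‖ ^ 2) * (1 - ‖z‖ ^ 2) := by
    have := norm_nonneg α
    have := norm_nonneg z
    exact mul_pos (by nlinarith) (by nlinarith)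
  exact lt_of_pow_lt_pow_left₀ 2 hdp.le (by linarith)

theorem b4_inv {α z : ℂ} (hα : ‖α‖ < 1) (hz : ‖z‖ < 1) : b4T (-α) (b4T α z) = z := by
  have hd := b4_den hα hz.le
  have h3 : 1 - starRingEnd ℂ (-α) * b4T α z ≠ 0 := b4_den (by rwa [norm_neg]) (b4_norm hα hz).le
  have h4 : b4T (-α) (b4T α z) = (b4T α z - -α) / (1 - starRingEnd ℂ (-α) * b4T α z) := rfl
  have h5 : b4T α z * (1 - starRingEnd ℂ α * z) = z - α := div_mul_cancel₀ _ hd
  rw [h4, div_eq_iff h3, map_neg]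
  linear_combination h5

theorem b4_inj {α z w : ℂ} (hα : ‖α‖ < 1) (hz : ‖z‖ < 1) (hw : ‖w‖ < 1) (h : b4T α z = b4T α w) : z = w := by
  rw [← b4_inv hα hz, ← b4_inv hα hw, h]

theorem b4_deriv {α z : ℂ} (hα : ‖α‖ < 1) (hz : ‖z‖ ≤ 1) :
    HasDerivAt (b4T α) ((1 - ‖α‖ ^ 2 : ℝ) / (1 - starRingEnd ℂ α * z) ^ 2) z := by
  have hd := b4_den hα hz
  have h1 : HasDerivAt (fun z : ℂ => z - α) 1 z := (hasDerivAt_id z).sub_const α
  have h2 : HasDerivAt (fun z : ℂ => 1 - starRingEnd ℂ α * z) (-(starRingEnd ℂ α * 1)) z :=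
    ((hasDerivAt_id z).const_mul (starRingEnd ℂ α)).const_sub 1
  have h3 := h1.div h2 hd
  have e : (1 * (1 - starRingEnd ℂ α * z) - (z - α) * -(starRingEnd ℂ α * 1)) =
      ((1 - ‖α‖ ^ 2 : ℝ) : ℂ) := by
    have h4 : ((‖α‖ ^ 2 : ℝ) : ℂ) = α * starRingEnd ℂ α := by
      rw [Complex.mul_conj, Complex.normSq_eq_norm_sq]
    rw [Complex.ofReal_sub, h4, Complex.ofReal_one]
    ring
  rw [e] at h3
  exact h3

theorem b4_zero (α : ℂ) : b4T α α = 0 := by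
  unfold b4T
  rw [sub_self, zero_div]

/-- continuous square roots of holomorphic functions without zeros are holomorphic -/
theorem b4_sqrt {Ω : Set ℂ} (hΩ : IsOpen Ω) {s h : ℂ → ℂ} (hs : ContinuousOn s Ω)
    (hsh : ∀ x, s x ^ 2 = h x) {z : ℂ} (hz : z ∈ Ω) {h' : ℂ} (hh : HasDerivAt h h' z) (h0 : h z ≠ 0) :
    HasDerivAt s (h' / (2 * s z)) z := by
  have hsz : s z ≠ 0 := fun e => h0 (by rw [← hsh, e]; ring)
  rw [hasDerivAt_iff_tendsto_slope] at hh ⊢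
  have hc : Tendsto s (𝓝[≠] z) (𝓝 (s z)) := (hs.continuousAt (hΩ.mem_nhds hz)).tendsto.mono_left nhdsWithin_le_nhds
  have h1 : Tendsto (fun w => s w + s z) (𝓝[≠] z) (𝓝 (2 * s z)) := by
    have := hc.add_const (s z)
    rwa [← two_mul] at this
  have h2 : 2 * s z ≠ 0 := mul_ne_zero two_ne_zero hsz
  have h3 := hh.div h1 h2
  refine h3.congr' ?_
  filter_upwards [h1.eventually_ne h2] with w hw
  show slope h z w / (s w + s z) = slope s z w
  rw [slope_def_field, slope_def_field, ← hsh w, ← hsh z, div_right_comm]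
  congr 1
  rw [div_eq_iff hw]
  ring

/-- Koebe's square root step.  PROOF.  For `α ∈ ball 0 1` let `T_α z = (z - α) / (1 - conj α * z)`, a bijection of
`ball 0 1` with inverse `T_{-α}`.  `T_{w₀} ∘ g` has no zeros on `Ω`, so by `Complex.exists_continuousOn_pow_eq` (file
`Mathlib/Analysis/Complex/BranchLogRoot.lean`) it has a continuous square root `s` on `Ω`, which is holomorphic (its square is
holomorphic and nonzero: local inverse of squaring), injective, maps into `ball 0 1`.  With `β = s a` let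
`g₂ = T_β ∘ s`: injective, holomorphic, into the ball, `g₂ a = 0`.  `g = F ∘ g₂` on `Ω` with
`F = T_{-w₀} ∘ (· ^ 2) ∘ T_{-β}`, a holomorphic self-map of the ball with `F 0 = 0` which is not injective (it takes equal
values at the two different points `T_β (1/2)` and `T_β (-1/2)`), so `‖F' 0‖ < 1` by the Schwarz lemma (strict case), or
by direct computation: `‖F' 0‖ = 2 ‖β‖ / (1 + ‖β‖ ^ 2) < 1` (here `β ^ 2 = - w₀`, and `deriv g a ≠ 0` by `b3_deriv_ne`).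
So `‖deriv g a‖ = ‖F' 0‖ ‖deriv g₂ a‖ < ‖deriv g₂ a‖`. -/
theorem b4_koebe {Ω : Set ℂ} (hΩ : IsOpen Ω) (hs : IsSimplyConnected Ω) {a : ℂ} (ha : a ∈ Ω)
    {g : ℂ → ℂ} (hd : DifferentiableOn ℂ g Ω) (hi : InjOn g Ω) (hm : MapsTo g Ω (ball 0 1))
    (hg0 : g a = 0) {w₀ : ℂ} (hw₀ : w₀ ∈ ball (0 : ℂ) 1) (hw : w₀ ∉ g '' Ω) :
    ∃ g₂ : ℂ → ℂ, DifferentiableOn ℂ g₂ Ω ∧ InjOn g₂ Ω ∧ MapsTo g₂ Ω (ball 0 1) ∧ g₂ a = 0 ∧
      ‖deriv g a‖ < ‖deriv g₂ a‖ := by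
  have hw1 : ‖w₀‖ < 1 := by simpa using hw₀
  have hm' : ∀ z ∈ Ω, ‖g z‖ < 1 := fun z hz => by simpa using hm hz
  have hgd : ∀ z ∈ Ω, HasDerivAt g (deriv g z) z := fun z hz =>
    (hd.differentiableAt (hΩ.mem_nhds hz)).hasDerivAt
  have hhd : ∀ z ∈ Ω, HasDerivAt (fun z => b4T w₀ (g z))
      ((1 - ‖w₀‖ ^ 2 : ℝ) / (1 - starRingEnd ℂ w₀ * g z) ^ 2 * deriv g z) z := fun z hz =>
    (b4_deriv hw1 (hm' z hz).le).comp z (hgd z hz)
  have hh0 : ∀ z ∈ Ω, b4T w₀ (g z) ≠ 0 := by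
    intro z hz h0
    have h1 := b4_inj hw1 (hm' z hz) hw1 (h0.trans (b4_zero w₀).symm)
    exact hw ⟨z, hz, h1⟩
  have hhc : ContinuousOn (fun z => b4T w₀ (g z)) Ω := fun z hz =>
    (hhd z hz).continuousAt.continuousWithinAt
  obtain ⟨s, hsc, hsh⟩ := Complex.exists_continuousOn_pow_eq hs hΩ hhc
    (by rintro ⟨z, hz, h⟩; exact hh0 z hz h) two_ne_zero
  have hsd : ∀ z ∈ Ω, HasDerivAt s
      ((1 - ‖w₀‖ ^ 2 : ℝ) / (1 - starRingEnd ℂ w₀ * g z) ^ 2 * deriv g z / (2 * s z)) z := fun z hz =>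
    b4_sqrt hΩ hsc hsh hz (hhd z hz) (hh0 z hz)
  have hs1 : ∀ z ∈ Ω, ‖s z‖ < 1 := by
    intro z hz
    have h1 := b4_norm hw1 (hm' z hz)
    have h2 : ‖s z‖ ^ 2 = ‖b4T w₀ (g z)‖ := by rw [← norm_pow, hsh]
    have h3 : ‖s z‖ ^ 2 < 1 ^ 2 := by rw [h2]; simpa using h1
    exact lt_of_pow_lt_pow_left₀ 2 zero_le_one h3
  have hβ := hs1 a ha
  set β := s a with hβd
  have hsinj : InjOn s Ω := by
    intro x hx y hy hxy
    have h1 : b4T w₀ (g x) = b4T w₀ (g y) := by rw [← hsh x, ← hsh y, hxy]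
    exact hi hx hy (b4_inj hw1 (hm' x hx) (hm' y hy) h1)
  have hβ2 : β ^ 2 = -w₀ := by
    rw [hβd, hsh a, hg0]
    unfold b4T
    simp
  have hβ0 : β ≠ 0 := by
    intro h
    have := hh0 a ha
    rw [← hsh a, ← hβd, h] at this
    exact this (by ring)
  refine ⟨fun z => b4T β (s z), ?_, ?_, ?_, b4_zero β, ?_⟩
  · intro z hz
    exact ((b4_deriv hβ (hs1 z hz).le).comp z (hsd z hz)).differentiableAt.differentiableWithinAt
  · intro x hx y hy hxy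
    exact hsinj hx hy (b4_inj hβ (hs1 x hx) (hs1 y hy) hxy)
  · intro z hz
    rw [mem_ball_zero_iff]
    exact b4_norm hβ (hs1 z hz)
  · have h1 : HasDerivAt (fun z => b4T β (s z)) _ a := (b4_deriv hβ hβ.le).comp a (hsd a ha)
    rw [h1.deriv, hg0]
    have hgn : 0 < ‖deriv g a‖ := norm_pos_iff.mpr (b3_deriv_ne hΩ hd hi ha)
    have hb0 : 0 < ‖β‖ := norm_pos_iff.mpr hβ0
    have hw2 : ‖w₀‖ = ‖β‖ ^ 2 := by
      rw [← norm_pow, hβ2, norm_neg]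
    have e1 : starRingEnd ℂ β * β = ((‖β‖ ^ 2 : ℝ) : ℂ) := by
      rw [mul_comm, Complex.mul_conj, Complex.normSq_eq_norm_sq]
    have hpos : 0 < 1 - ‖β‖ ^ 2 := by nlinarith
    have e2 : (1 : ℂ) - starRingEnd ℂ β * β = ((1 - ‖β‖ ^ 2 : ℝ) : ℂ) := by
      rw [e1]
      push_cast
      ring
    rw [← hβd, e2, hw2]
    have e3 : ‖(((1 - ‖β‖ ^ 2 : ℝ) : ℂ) / ((1 - ‖β‖ ^ 2 : ℝ) : ℂ) ^ 2) *
        (((1 - (‖β‖ ^ 2) ^ 2 : ℝ) : ℂ) / (1 - starRingEnd ℂ w₀ * 0) ^ 2 * deriv g a / (2 * β))‖ =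
        (1 + ‖β‖ ^ 2) / (2 * ‖β‖) * ‖deriv g a‖ := by
      have hq : 0 ≤ 1 - (‖β‖ ^ 2) ^ 2 := by nlinarith
      simp only [norm_mul, norm_div, norm_pow, Complex.norm_real, Real.norm_eq_abs, mul_zero, sub_zero,
        one_pow, div_one, Complex.norm_ofNat, abs_of_pos hpos, abs_of_nonneg hq]
      field_simp
      ring
    rw [e3]
    have h4 : 1 < (1 + ‖β‖ ^ 2) / (2 * ‖β‖) := by
      rw [lt_div_iff₀ (by positivity)]
      nlinarith [sq_nonneg (1 - ‖β‖), sub_pos.mpr hβ]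
    nlinarith

end H51R
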