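import Pool.Agent.Lib.H51R.B1
import Pool.Agent.Lib.H51R.B2
import Pool.Agent.Lib.H51R.B3
import Pool.Agent.Lib.H51R.B4

/-!
# H51R, chunk B5: the Riemann mapping theorem
-/

set_option autoImplicit false

namespace H51R

open Set Metric Topology Filter MeasureTheory

theorem b5_start {Ω : Set ℂ} (hΩ : IsOpen Ω) (hs : IsSimplyConnected Ω) (hne : Ω ≠ univ) {a : ℂ}
    (ha : a ∈ Ω) : ∃ f : ℂ → ℂ, DifferentiableOn ℂ f Ω ∧ InjOn f Ω ∧ MapsTo f Ω (ball 0 1) ∧ f a = 0 := by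
  obtain ⟨a0, ha0⟩ := (ne_univ_iff_exists_notMem Ω).mp hne
  have hc : ContinuousOn (fun z : ℂ => z - a0) Ω := by fun_prop
  have h0 : ∀ z ∈ Ω, z - a0 ≠ 0 := fun z hz h => ha0 (by rw [← sub_eq_zero.mp h]; exact hz)
  obtain ⟨s, hsc, hsh⟩ := Complex.exists_continuousOn_pow_eq hs hΩ hc
    (by rintro ⟨z, hz, h⟩; exact h0 z hz h) two_ne_zero
  have hsd : ∀ z ∈ Ω, HasDerivAt s (1 / (2 * s z)) z := fun z hz =>
    b4_sqrt hΩ hsc hsh hz ((hasDerivAt_id z).sub_const a0) (h0 z hz)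
  have hsD : DifferentiableOn ℂ s Ω := fun z hz => (hsd z hz).differentiableAt.differentiableWithinAt
  have hsi : InjOn s Ω := by
    intro x _ y _ hxy
    have h1 : x - a0 = y - a0 := by rw [← hsh x, ← hsh y, hxy]
    linear_combination h1
  have ho : IsOpen (s '' Ω) := b3_open hsD hsi hΩ Subset.rfl
  obtain ⟨ε, hε, hεs⟩ := Metric.isOpen_iff.mp ho (s a) (mem_image_of_mem s ha)
  have hfar : ∀ z ∈ Ω, ε ≤ ‖s z + s a‖ := by
    intro z hz
    by_contra h
    push Not at h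
    have h1 : -s z ∈ ball (s a) ε := by
      rw [mem_ball, dist_eq_norm]
      have : -s z - s a = -(s z + s a) := by ring
      rw [this, norm_neg]
      exact h
    obtain ⟨q, hq, hqz⟩ := hεs h1
    have h2 : q - a0 = z - a0 := by rw [← hsh q, ← hsh z, hqz]; ring
    have h3 : q = z := by linear_combination h2
    rw [h3] at hqz
    have h4 : s z = 0 := by
      have : 2 * s z = 0 := by linear_combination hqz
      simpa using this
    have h5 := hsh z
    rw [h4] at h5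
    exact h0 z hz (by rw [← h5]; ring)
  have hne0 : ∀ z ∈ Ω, s z + s a ≠ 0 := fun z hz h => by
    have := hfar z hz
    rw [h, norm_zero] at this
    linarith
  set f : ℂ → ℂ := fun z => ((ε / 2 : ℝ) : ℂ) / (s z + s a) with hf
  have hfn : ∀ z ∈ Ω, ‖f z‖ < 1 := by
    intro z hz
    have h1 := hfar z hz
    have h2 : 0 < ‖s z + s a‖ := norm_pos_iff.mpr (hne0 z hz)
    rw [hf]
    simp only
    rw [norm_div, Complex.norm_real, Real.norm_eq_abs, abs_of_pos (by positivity), div_lt_one h2]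
    linarith
  have hfd : ∀ z ∈ Ω, DifferentiableAt ℂ f z := fun z hz =>
    (differentiableAt_const _).div ((hsd z hz).differentiableAt.add_const _) (hne0 z hz)
  have hfi : InjOn f Ω := by
    intro x hx y hy hxy
    have hε' : ((ε / 2 : ℝ) : ℂ) ≠ 0 := by
      rw [ne_eq, Complex.ofReal_eq_zero]
      positivity
    have h1 : ((ε / 2 : ℝ) : ℂ) / (s x + s a) = ((ε / 2 : ℝ) : ℂ) / (s y + s a) := hxy
    rw [div_eq_div_iff (hne0 x hx) (hne0 y hy)] at h1
    have h2 := mul_left_cancel₀ hε' h1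
    exact hsi hx hy (by linear_combination -h2)
  have hfa := hfn a ha
  refine ⟨fun z => b4T (f a) (f z), ?_, ?_, ?_, b4_zero _⟩
  · intro z hz
    exact ((b4_deriv hfa (hfn z hz).le).differentiableAt.comp z (hfd z hz)).differentiableWithinAt
  · intro x hx y hy hxy
    exact hfi hx hy (b4_inj hfa (hfn x hx) (hfn y hy) hxy)
  · intro z hz
    rw [mem_ball_zero_iff]
    exact b4_norm hfa (hfn z hz)

/-- The Riemann mapping theorem.  PROOF.  Let `𝓕` be the set of functions `g` holomorphic and injective on `Ω`, with values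
in `ball 0 1` and `g a = 0`.  `𝓕` is not empty: `Complex.exists_mapsTo_unitBall_injOn_deriv_ne_zero` (file
`Mathlib/Analysis/Complex/RiemannMapping.lean`) composed with a Moebius map of the ball (see `B4`; if the lemma is not
accessible, copy its proof).  The numbers `‖deriv g a‖`, `g ∈ 𝓕`, are bounded by `1 / r` if `closedBall a r ⊆ Ω`
(`Complex.norm_deriv_le_of_forall_mem_sphere_norm_le`); let `S` be their supremum, `S > 0` by `b3_deriv_ne`, and `g n ∈ 𝓕`
with `‖deriv (g n) a‖ → S`.  By `b1_montel` a subsequence converges locally uniformly to `G`, holomorphic, with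
`‖deriv G a‖ = S` (`TendstoLocallyUniformlyOn.deriv`), so `G` is not constant and by `b2_hurwitz` it is injective
(`Ω` is preconnected since it is simply connected).  `‖G‖ ≤ 1`, and `< 1` since `G` is an open map (`b3_inverse`), `G a = 0`.  So `G ∈ 𝓕`; `G` is onto the
ball by `b4_koebe` and the maximality of `S`.  Put `ψ = G` and `φ` from `b3_inverse`. -/
theorem b5_rmt {Ω : Set ℂ} (hΩ : IsOpen Ω) (hs : IsSimplyConnected Ω) (hne : Ω ≠ univ) {a : ℂ}
    (ha : a ∈ Ω) :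
    ∃ ψ φ : ℂ → ℂ, DifferentiableOn ℂ ψ Ω ∧ DifferentiableOn ℂ φ (ball 0 1) ∧
      MapsTo ψ Ω (ball 0 1) ∧ MapsTo φ (ball 0 1) Ω ∧ (∀ w ∈ Ω, φ (ψ w) = w) ∧
      (∀ v ∈ ball (0 : ℂ) 1, ψ (φ v) = v) ∧ ψ a = 0 := by
  have hpre : IsPreconnected Ω := by
    have : SimplyConnectedSpace Ω := hs
    rw [isPreconnected_iff_preconnectedSpace]
    infer_instance
  set 𝓕 : Set (ℂ → ℂ) := {g | DifferentiableOn ℂ g Ω ∧ InjOn g Ω ∧ MapsTo g Ω (ball 0 1) ∧ g a = 0} with hF
  obtain ⟨f0, hf0⟩ := b5_start hΩ hs hne ha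
  have hf0F : f0 ∈ 𝓕 := hf0
  obtain ⟨r0, hr0, hr0s⟩ := Metric.isOpen_iff.mp hΩ a ha
  obtain ⟨r, hr, hrs⟩ : ∃ r > 0, closedBall a r ⊆ Ω :=
    ⟨r0 / 2, by positivity, (closedBall_subset_ball (by linarith)).trans hr0s⟩
  have hbd : ∀ g ∈ 𝓕, ‖deriv g a‖ ≤ 1 / r := by
    rintro g ⟨hgd, _, hgm, _⟩
    refine Complex.norm_deriv_le_of_forall_mem_sphere_norm_le hr ?_ (fun v hv => ?_)
    · refine DifferentiableOn.diffContOnCl (hgd.mono ?_)
      rw [closure_ball a hr.ne']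
      exact hrs
    · have h1 := hgm (hrs (sphere_subset_closedBall hv))
      rw [mem_ball_zero_iff] at h1
      exact h1.le
  set T : Set ℝ := (fun g => ‖deriv g a‖) '' 𝓕 with hT
  have hTne : T.Nonempty := ⟨_, mem_image_of_mem _ hf0F⟩
  have hTbdd : BddAbove T := ⟨1 / r, by rintro _ ⟨g, hg, rfl⟩; exact hbd g hg⟩
  have hle : ∀ g ∈ 𝓕, ‖deriv g a‖ ≤ sSup T := fun g hg => le_csSup hTbdd (mem_image_of_mem _ hg)
  have hS0 : 0 < sSup T := (norm_pos_iff.mpr (b3_deriv_ne hΩ hf0.1 hf0.2.1 ha)).trans_le (hle f0 hf0F)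
  have hseq : ∀ n : ℕ, ∃ g ∈ 𝓕, sSup T - 1 / ((n : ℝ) + 1) < ‖deriv g a‖ := by
    intro n
    have h1 : sSup T - 1 / ((n : ℝ) + 1) < sSup T := by
      have : (0 : ℝ) < 1 / ((n : ℝ) + 1) := by positivity
      linarith
    obtain ⟨_, ⟨g, hg, rfl⟩, h2⟩ := exists_lt_of_lt_csSup hTne h1
    exact ⟨g, hg, h2⟩
  choose g hgF hgS using hseq
  have hlimS : Tendsto (fun n => ‖deriv (g n) a‖) atTop (𝓝 (sSup T)) := by
    refine tendsto_of_tendsto_of_tendsto_of_le_of_le (g := fun n : ℕ => sSup T - 1 / ((n : ℝ) + 1)) ?_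
      tendsto_const_nhds (fun n => (hgS n).le) (fun n => hle _ (hgF n))
    have := (tendsto_one_div_add_atTop_nhds_zero_nat (𝕜 := ℝ)).const_sub (sSup T)
    rwa [sub_zero] at this
  obtain ⟨φ, G, hφ, hG⟩ := b1_montel hΩ g (fun n => (hgF n).1) (fun n z hz => by
    have h1 := (hgF n).2.2.1 hz
    rw [mem_ball_zero_iff] at h1
    exact h1.le)
  have hev : ∀ᶠ n in atTop, DifferentiableOn ℂ ((fun n => g (φ n)) n) Ω :=
    Filter.Eventually.of_forall fun n => (hgF (φ n)).1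
  have hGd : DifferentiableOn ℂ G Ω := hG.differentiableOn hev hΩ
  have hder := (hG.deriv hev hΩ).tendsto_at ha
  have hderS : ‖deriv G a‖ = sSup T :=
    tendsto_nhds_unique hder.norm (hlimS.comp hφ.tendsto_atTop)
  have hGi : InjOn G Ω := by
    rcases b2_hurwitz hΩ hpre (g := fun n => g (φ n)) (fun n => (hgF (φ n)).1)
      (fun n => (hgF (φ n)).2.1) hG with ⟨c, hc⟩ | h
    · exfalso
      have h1 : deriv G a = 0 := by
        have h2 : G =ᶠ[𝓝 a] fun _ => c := by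
          filter_upwards [hΩ.mem_nhds ha] with z hz
          exact hc z hz
        rw [h2.deriv_eq, deriv_const]
      rw [h1, norm_zero] at hderS
      linarith
    · exact h
  have hGle : ∀ z ∈ Ω, ‖G z‖ ≤ 1 := by
    intro z hz
    refine le_of_tendsto (hG.tendsto_at hz).norm (Filter.Eventually.of_forall fun n => ?_)
    have h1 := (hgF (φ n)).2.2.1 hz
    rw [mem_ball_zero_iff] at h1
    exact h1.le
  have hGo : IsOpen (G '' Ω) := b3_open hGd hGi hΩ Subset.rfl
  have hGm : MapsTo G Ω (ball 0 1) := by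
    intro z hz
    have h1 : G '' Ω ⊆ closedBall 0 1 := by
      rintro _ ⟨w, hw, rfl⟩
      rw [mem_closedBall_zero_iff]
      exact hGle w hw
    have h2 := interior_maximal h1 hGo (mem_image_of_mem G hz)
    rwa [interior_closedBall (0 : ℂ) one_ne_zero] at h2
  have hGa : G a = 0 := by
    refine tendsto_nhds_unique (hG.tendsto_at ha) ?_
    have : (fun n => g (φ n) a) = fun _ => 0 := funext fun n => (hgF (φ n)).2.2.2
    show Tendsto (fun n => g (φ n) a) atTop (𝓝 0)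
    rw [this]
    exact tendsto_const_nhds
  have hsurj : ∀ w ∈ ball (0 : ℂ) 1, w ∈ G '' Ω := by
    intro w hw
    by_contra hwn
    obtain ⟨g₂, h1, h2, h3, h4, h5⟩ := b4_koebe hΩ hs ha hGd hGi hGm hGa hw hwn
    have h6 := hle g₂ ⟨h1, h2, h3, h4⟩
    rw [hderS] at h5
    linarith
  have himg : G '' Ω = ball 0 1 := Subset.antisymm (image_subset_iff.mpr hGm) hsurj
  obtain ⟨-, Φ, hΦd, hΦ⟩ := b3_inverse hΩ hGd hGi
  rw [himg] at hΦd
  refine ⟨G, Φ, hGd, hΦd, hGm, ?_, hΦ, ?_, hGa⟩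
  · intro v hv
    obtain ⟨z, hz, rfl⟩ := hsurj v hv
    rw [hΦ z hz]
    exact hz
  · intro v hv
    obtain ⟨z, hz, rfl⟩ := hsurj v hv
    rw [hΦ z hz]

end H51R
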