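import Pool.Agent.Lib.H51R.A1
import Pool.Agent.Lib.H51R.B5

/-!
# H51R, chunk B6: Riemann maps of images of the disc
-/

set_option autoImplicit false

namespace H51R

open Set Metric Topology Filter MeasureTheory

theorem b6_sc {f : ℂ → ℂ} (hc : ContinuousOn f (closedBall 0 1))
    (hi : InjOn f (closedBall 0 1)) : IsSimplyConnected (f '' ball 0 1) := by
  have hball : IsSimplyConnected (ball (0 : ℂ) 1) := by
    have h1 : ContractibleSpace (ball (0 : ℂ) 1) :=
      (convex_ball (0 : ℂ) 1).contractibleSpace ⟨0, mem_ball_self one_pos⟩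
    exact SimplyConnectedSpace.ofContractible _
  have hcomp : CompactSpace (closedBall (0 : ℂ) 1) :=
    isCompact_iff_compactSpace.1 (isCompact_closedBall 0 1)
  have hF : IsEmbedding (fun x : closedBall (0 : ℂ) 1 => f x.1) :=
    (Continuous.isClosedEmbedding (continuousOn_iff_continuous_restrict.1 hc)
      (fun x y h => Subtype.ext (hi x.2 y.2 h))).isEmbedding
  have hV : IsEmbedding (fun x : closedBall (0 : ℂ) 1 => x.1) := IsEmbedding.subtypeVal
  have h2 := hF.isSimplyConnected_image (s := {x | x.1 ∈ ball (0 : ℂ) 1})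
  have h3 := hV.isSimplyConnected_image (s := {x | x.1 ∈ ball (0 : ℂ) 1})
  have h4 : (fun x : closedBall (0 : ℂ) 1 => f x.1) '' {x | x.1 ∈ ball (0 : ℂ) 1} =
      f '' ball 0 1 := by
    ext y
    constructor
    · rintro ⟨x, hx, rfl⟩
      exact ⟨x.1, hx, rfl⟩
    · rintro ⟨x, hx, rfl⟩
      exact ⟨⟨x, ball_subset_closedBall hx⟩, hx, rfl⟩
  have h5 : (fun x : closedBall (0 : ℂ) 1 => x.1) '' {x | x.1 ∈ ball (0 : ℂ) 1} =
      ball 0 1 := by
    ext y
    constructor
    · rintro ⟨x, hx, rfl⟩
      exact hx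
    · intro hx
      exact ⟨⟨y, ball_subset_closedBall hx⟩, hx, rfl⟩
  rw [h4] at h2
  rw [h5] at h3
  exact h2.2 (h3.1 hball)

/-- PROOF.  `Ω = f '' ball 0 1` is open by `a1_open`, bounded (contained in the compact set `f '' closedBall 0 1`), hence
`≠ univ`, and simply connected because `f` restricts to a homeomorphism of `ball 0 1` (convex, so contractible and simply
connected) onto `Ω` (the inverse is continuous because `closedBall 0 1` is compact; look for `IsSimplyConnected` API:
homeomorphisms, `Homotopy equivalence`, convex sets).  Apply `b5_rmt` with `a = f 0`. -/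
theorem b6_rm {f : ℂ → ℂ} (hc : ContinuousOn f (closedBall 0 1))
    (hi : InjOn f (closedBall 0 1)) : ∃ ψ φ : ℂ → ℂ, RM f ψ φ := by
  have hop : IsOpen (f '' ball 0 1) :=
    a1_open isOpen_ball (hc.mono ball_subset_closedBall) (hi.mono ball_subset_closedBall)
  have hbd : Bornology.IsBounded (f '' ball 0 1) :=
    ((isCompact_closedBall (0 : ℂ) 1).image_of_continuousOn hc).isBounded.subset
      (image_mono ball_subset_closedBall)
  have hne : f '' ball 0 1 ≠ univ := by
    intro h
    rw [h] at hbd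
    exact NoncompactSpace.noncompact_univ (X := ℂ)
      (Metric.isCompact_of_isClosed_isBounded isClosed_univ hbd)
  obtain ⟨ψ, φ, h1, h2, h3, h4, h5, h6, h7⟩ := b5_rmt hop (b6_sc hc hi) hne
    (a := f 0) ⟨0, mem_ball_self one_pos, rfl⟩
  exact ⟨ψ, φ, ⟨hc, hi, hop, h1, h2, h3, h4, h5, h6, h7⟩⟩

end H51R
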