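import Pool.Agent.Lib.H51R.D0
import Pool.Agent.Lib.EscapeRay.Area

/-!
# H51R, chunk C1: area formula and length-area inequality
-/

set_option autoImplicit false

namespace H51R

open Set Metric Topology Filter MeasureTheory

/-- the part of the circle of centre `w₀` and radius `ρ` in `U`, as a set of angles -/
def arc (U : Set ℂ) (w₀ : ℂ) (ρ : ℝ) : Set ℝ :=
  {θ : ℝ | θ ∈ Ioo (-Real.pi) Real.pi ∧ w₀ + ρ * Complex.exp (θ * Complex.I) ∈ U}

/-- Area formula.  PROOF.  `lintegral_abs_det_fderiv_eq_addHaar_image` with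
`Pool.Agent.Lib.EscapeRay.abs_det_restrictScalars`, as in the proof of
`Pool.Agent.Lib.EscapeRay.lintegral_deriv_sq_le`. -/
theorem c1_area {U : Set ℂ} (hU : IsOpen U) {g : ℂ → ℂ} (hd : DifferentiableOn ℂ g U)
    (hi : InjOn g U) :
    ∫⁻ z in U, ENNReal.ofReal (‖deriv g z‖ ^ 2) = volume (g '' U) := by
  have hf' : ∀ x ∈ U, HasFDerivWithinAt g
      ((ContinuousLinearMap.toSpanSingleton ℂ (deriv g x)).restrictScalars ℝ : ℂ →L[ℝ] ℂ) U x := by
    intro x hx
    have h1 : HasDerivAt g (deriv g x) x :=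
      (hd.differentiableAt (hU.mem_nhds hx)).hasDerivAt
    exact (h1.hasFDerivAt.restrictScalars ℝ).hasFDerivWithinAt
  have h2 := lintegral_abs_det_fderiv_eq_addHaar_image volume hU.measurableSet hf' hi
  simp only [Pool.Agent.Lib.EscapeRay.abs_det_restrictScalars] at h2
  exact h2

theorem c1_arc_cont (w₀ : ℂ) (ρ : ℝ) : Continuous fun θ : ℝ => w₀ + ρ * Complex.exp (θ * Complex.I) := by
  fun_prop

theorem c1_arc_meas {U : Set ℂ} (hU : IsOpen U) (w₀ : ℂ) (ρ : ℝ) : MeasurableSet (arc U w₀ ρ) := by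
  have h1 : arc U w₀ ρ = Ioo (-Real.pi) Real.pi ∩ (fun θ : ℝ => w₀ + ρ * Complex.exp (θ * Complex.I)) ⁻¹' U := rfl
  rw [h1]
  exact measurableSet_Ioo.inter (hU.preimage (c1_arc_cont w₀ ρ)).measurableSet

theorem c1_arc_vol (U : Set ℂ) (w₀ : ℂ) (ρ : ℝ) : volume (arc U w₀ ρ) ≤ ENNReal.ofReal (2 * Real.pi) := by
  have h1 : arc U w₀ ρ ⊆ Ioo (-Real.pi) Real.pi := fun θ hθ => hθ.1
  refine (measure_mono h1).trans ?_
  rw [Real.volume_Ioo]
  apply ENNReal.ofReal_le_ofReal
  linarith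

/-- The energy in polar coordinates. -/
theorem c1_polar {U : Set ℂ} (hU : IsOpen U) (g : ℂ → ℂ) (w₀ : ℂ) :
    ∫⁻ r in Ioi (0 : ℝ), ENNReal.ofReal r * ∫⁻ θ in arc U w₀ r,
      ENNReal.ofReal (‖deriv g (w₀ + r * Complex.exp (θ * Complex.I))‖ ^ 2) ≤
    ∫⁻ z in U, ENNReal.ofReal (‖deriv g z‖ ^ 2) := by
  set h : ℂ → ENNReal := U.indicator (fun z => ENNReal.ofReal (‖deriv g z‖ ^ 2)) with hh
  have hm : Measurable h := by
    have h1 : Measurable (fun z => ENNReal.ofReal (‖deriv g z‖ ^ 2)) :=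
      ((measurable_deriv g).norm.pow_const 2).ennreal_ofReal
    exact h1.indicator hU.measurableSet
  have e1 : ∫⁻ z in U, ENNReal.ofReal (‖deriv g z‖ ^ 2) = ∫⁻ z, h (w₀ + z) := by
    rw [← lintegral_indicator hU.measurableSet]
    exact (lintegral_add_left_eq_self h w₀).symm
  rw [e1, ← Complex.lintegral_comp_polarCoord_symm]
  have e2 : polarCoord.target = Ioi (0 : ℝ) ×ˢ Ioo (-Real.pi) Real.pi := rfl
  have hm2 : Measurable (fun p : ℝ × ℝ => ENNReal.ofReal p.1 • h (w₀ + Complex.polarCoord.symm p)) := by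
    have h3 : Measurable (fun p : ℝ × ℝ => Complex.polarCoord.symm p) := by
      have h4 : (fun p : ℝ × ℝ => Complex.polarCoord.symm p) =
          fun p : ℝ × ℝ => (p.1 : ℂ) * (Real.cos p.2 + Real.sin p.2 * Complex.I) := by
        funext p
        exact Complex.polarCoord_symm_apply p
      rw [h4]
      have h5 : Continuous (fun p : ℝ × ℝ => (p.1 : ℂ) * (Real.cos p.2 + Real.sin p.2 * Complex.I)) := by
        fun_prop
      exact h5.measurable
    exact (measurable_fst.ennreal_ofReal).smul (hm.comp (h3.const_add w₀))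
  rw [e2, Measure.volume_eq_prod, ← Measure.prod_restrict, lintegral_prod _ hm2.aemeasurable]
  refine lintegral_mono_ae ?_
  filter_upwards [ae_restrict_mem measurableSet_Ioi] with r hr
  have hr0 : 0 < r := hr
  have e3 : ∀ θ : ℝ, Complex.polarCoord.symm (r, θ) = r * Complex.exp (θ * Complex.I) := by
    intro θ
    rw [Complex.polarCoord_symm_apply, Complex.exp_mul_I]
    simp
  have e4 : ∫⁻ θ in arc U w₀ r, ENNReal.ofReal (‖deriv g (w₀ + r * Complex.exp (θ * Complex.I))‖ ^ 2) ≤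
      ∫⁻ θ in Ioo (-Real.pi) Real.pi, h (w₀ + Complex.polarCoord.symm (r, θ)) := by
    have e5 : ∫⁻ θ in arc U w₀ r, ENNReal.ofReal (‖deriv g (w₀ + r * Complex.exp (θ * Complex.I))‖ ^ 2) =
        ∫⁻ θ in arc U w₀ r, h (w₀ + Complex.polarCoord.symm (r, θ)) := by
      refine setLIntegral_congr_fun (c1_arc_meas hU w₀ r) ?_
      intro θ hθ
      show _ = h (w₀ + Complex.polarCoord.symm (r, θ))
      rw [e3 θ, hh, indicator_of_mem hθ.2]
    rw [e5]
    exact lintegral_mono_set fun θ hθ => hθ.1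
  calc ENNReal.ofReal r * ∫⁻ θ in arc U w₀ r, ENNReal.ofReal (‖deriv g (w₀ + r * Complex.exp (θ * Complex.I))‖ ^ 2)
      ≤ ENNReal.ofReal r * ∫⁻ θ in Ioo (-Real.pi) Real.pi, h (w₀ + Complex.polarCoord.symm (r, θ)) := by
        gcongr
    _ = ∫⁻ θ in Ioo (-Real.pi) Real.pi, ENNReal.ofReal r • h (w₀ + Complex.polarCoord.symm (r, θ)) := by
        rw [← lintegral_const_mul' _ _ ENNReal.ofReal_ne_top]
        rfl

theorem c1_log {δ K : ℝ} (hδ : 0 < δ) (hδ1 : δ < 1) (hK : 0 ≤ K) :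
    ∫⁻ r in Ioo δ (√δ), ENNReal.ofReal (K / r) = ENNReal.ofReal (K * (Real.log (1 / δ) / 2)) := by
  have hs : 0 < √δ := Real.sqrt_pos.2 hδ
  have hlt : δ ≤ √δ := by
    rw [Real.le_sqrt hδ.le hδ.le]
    nlinarith
  have hint : IntervalIntegrable (fun r : ℝ => K / r) volume δ (√δ) := by
    apply ContinuousOn.intervalIntegrable
    intro r hr
    rw [uIcc_of_le hlt] at hr
    have : r ≠ 0 := (hδ.trans_le hr.1).ne'
    exact (continuousAt_const.div continuousAt_id this).continuousWithinAt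
  have hio : IntegrableOn (fun r : ℝ => K / r) (Ioo δ (√δ)) := by
    rw [intervalIntegrable_iff_integrableOn_Ioo_of_le hlt] at hint
    exact hint
  have h1 : ∫ r in Ioo δ (√δ), K / r = K * (Real.log (1 / δ) / 2) := by
    rw [← integral_Ioc_eq_integral_Ioo, ← intervalIntegral.integral_of_le hlt]
    have h2 : ∀ r : ℝ, K / r = K * r⁻¹ := fun r => div_eq_mul_inv K r
    simp only [h2]
    rw [intervalIntegral.integral_const_mul, integral_inv_of_pos hδ hs]
    congr 1
    rw [Real.log_div hs.ne' hδ.ne', Real.log_sqrt hδ.le, one_div, Real.log_inv]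
    ring
  rw [← h1, ofReal_integral_eq_lintegral_ofReal hio]
  rw [EventuallyLE, ae_restrict_iff' measurableSet_Ioo]
  exact Eventually.of_forall fun r hr => div_nonneg hK (hδ.trans hr.1).le

/-- Length-area inequality (Wolff's lemma).  PROOF.  Suppose it fails for every `ρ ∈ Ioo δ √δ`, let
`ℓ(ρ) = ∫⁻ θ in arc U w₀ ρ, ofReal (ρ ‖g'‖)`, so `ℓ(ρ) ^ 2 > 4 π M / log (1/δ)`.  Cauchy-Schwarz on a set of measure at
most `2 π` gives `ℓ(ρ) ^ 2 ≤ 2 π ρ ^ 2 ∫⁻ θ in arc, ofReal (‖g'‖ ^ 2)`.  Polar coordinates around `w₀`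
(`Complex.lintegral_comp_polarCoord_symm` for `z ↦ U.indicator (..) (w₀ + z)`, Tonelli) give
`∫⁻ ρ in Ioo δ √δ, ofReal ρ * ∫⁻ θ in arc U w₀ ρ, ofReal (‖g'‖ ^ 2) ≤ ofReal M`.  But
`ρ ∫⁻ ‖g'‖ ^ 2 ≥ ℓ(ρ) ^ 2 / (2 π ρ) > 2 M / (ρ log (1/δ))` and `∫ ρ in δ..√δ, 1 / ρ = log (1/δ) / 2`, a contradiction if
`M > 0` (strictness: the integrand is larger at every point of a set of positive measure; or use the slack of `M + 1`:
for simplicity the statement has `M + 1` under the root). -/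
theorem c1_wolff {U : Set ℂ} (hU : IsOpen U) {g : ℂ → ℂ} (hd : DifferentiableOn ℂ g U) {M : ℝ}
    (hM : 0 ≤ M) (ha : ∫⁻ z in U, ENNReal.ofReal (‖deriv g z‖ ^ 2) ≤ ENNReal.ofReal M) (w₀ : ℂ)
    {δ : ℝ} (hδ : 0 < δ) (hδ1 : δ < 1) :
    ∃ ρ ∈ Ioo δ (√δ), ∫⁻ θ in arc U w₀ ρ,
        ENNReal.ofReal (ρ * ‖deriv g (w₀ + ρ * Complex.exp (θ * Complex.I))‖) ≤
      ENNReal.ofReal (√(4 * Real.pi * (M + 1) / Real.log (1 / δ))) := by
  by_contra hcon
  push Not at hcon
  have hp := Real.pi_pos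
  have hL : 0 < Real.log (1 / δ) := by
    apply Real.log_pos
    rw [lt_div_iff₀ hδ]
    linarith
  set C : ℝ := √(4 * Real.pi * (M + 1) / Real.log (1 / δ)) with hC
  have hq : 0 < 4 * Real.pi * (M + 1) / Real.log (1 / δ) := by positivity
  have hC0 : 0 < C := Real.sqrt_pos.2 hq
  have hC2 : C ^ 2 = 4 * Real.pi * (M + 1) / Real.log (1 / δ) := Real.sq_sqrt hq.le
  have key : ∀ r ∈ Ioo δ (√δ), ENNReal.ofReal (C ^ 2 / (2 * Real.pi) / r) ≤
      ENNReal.ofReal r * ∫⁻ θ in arc U w₀ r,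
        ENNReal.ofReal (‖deriv g (w₀ + r * Complex.exp (θ * Complex.I))‖ ^ 2) := by
    intro r hr
    have hr0 : 0 < r := hδ.trans hr.1
    have h1 := hcon r hr
    set A := ∫⁻ θ in arc U w₀ r,
        ENNReal.ofReal (‖deriv g (w₀ + r * Complex.exp (θ * Complex.I))‖ ^ 2) with hA
    have h2 : ∫⁻ θ in arc U w₀ r,
        ENNReal.ofReal (r * ‖deriv g (w₀ + r * Complex.exp (θ * Complex.I))‖) ≤
        ENNReal.ofReal (C / 2) + ENNReal.ofReal (Real.pi * r ^ 2 / C) * A := by
      have h3 : ∀ θ : ℝ, ENNReal.ofReal (r * ‖deriv g (w₀ + r * Complex.exp (θ * Complex.I))‖) ≤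
          ENNReal.ofReal (C / (4 * Real.pi)) + ENNReal.ofReal (Real.pi * r ^ 2 / C) *
            ENNReal.ofReal (‖deriv g (w₀ + r * Complex.exp (θ * Complex.I))‖ ^ 2) := by
        intro θ
        rw [← ENNReal.ofReal_mul (by positivity), ← ENNReal.ofReal_add (by positivity) (by positivity)]
        apply ENNReal.ofReal_le_ofReal
        set x := ‖deriv g (w₀ + r * Complex.exp (θ * Complex.I))‖
        have h4 : C / (4 * Real.pi) + Real.pi * r ^ 2 / C * x ^ 2 - r * x =
            (C - 2 * Real.pi * r * x) ^ 2 / (4 * Real.pi * C) := by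
          field_simp
          ring
        have h5 : 0 ≤ (C - 2 * Real.pi * r * x) ^ 2 / (4 * Real.pi * C) := by positivity
        linarith
      refine (lintegral_mono h3).trans ?_
      rw [lintegral_add_left measurable_const, lintegral_const_mul' _ _ ENNReal.ofReal_ne_top, lintegral_const,
        Measure.restrict_apply_univ]
      gcongr
      calc ENNReal.ofReal (C / (4 * Real.pi)) * volume (arc U w₀ r)
          ≤ ENNReal.ofReal (C / (4 * Real.pi)) * ENNReal.ofReal (2 * Real.pi) := by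
            gcongr
            exact c1_arc_vol U w₀ r
        _ = ENNReal.ofReal (C / 2) := by
            rw [← ENNReal.ofReal_mul (by positivity)]
            congr 1
            field_simp
            ring
    have h6 := h1.trans_le h2
    by_cases hAt : A = ⊤
    · rw [hAt, ENNReal.mul_top]
      · exact le_top
      · rw [Ne, ENNReal.ofReal_eq_zero, not_le]
        exact hr0
    · obtain ⟨a, ha0, haA⟩ : ∃ a : ℝ, 0 ≤ a ∧ A = ENNReal.ofReal a :=
        ⟨A.toReal, ENNReal.toReal_nonneg, (ENNReal.ofReal_toReal hAt).symm⟩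
      rw [haA, ← ENNReal.ofReal_mul (by positivity), ← ENNReal.ofReal_add (by positivity) (by positivity)] at h6
      rw [haA, ← ENNReal.ofReal_mul hr0.le]
      apply ENNReal.ofReal_le_ofReal
      rw [ENNReal.ofReal_lt_ofReal_iff_of_nonneg hC0.le] at h6
      have h7 : C / 2 < Real.pi * r ^ 2 / C * a := by linarith
      have h8 : C / 2 * C < Real.pi * r ^ 2 * a := by
        have h9 := mul_lt_mul_of_pos_right h7 hC0
        have h10 : Real.pi * r ^ 2 / C * a * C = Real.pi * r ^ 2 * a := by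
          field_simp
        rw [h10] at h9
        exact h9
      rw [div_div, div_le_iff₀ (by positivity)]
      nlinarith
  have h1 : ENNReal.ofReal (M + 1) ≤ ENNReal.ofReal M := by
    calc ENNReal.ofReal (M + 1) = ∫⁻ r in Ioo δ (√δ), ENNReal.ofReal (C ^ 2 / (2 * Real.pi) / r) := by
          rw [c1_log hδ hδ1 (by positivity), hC2]
          congr 1
          field_simp
          ring
      _ ≤ ∫⁻ r in Ioo δ (√δ), ENNReal.ofReal r * ∫⁻ θ in arc U w₀ r,
            ENNReal.ofReal (‖deriv g (w₀ + r * Complex.exp (θ * Complex.I))‖ ^ 2) :=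
          setLIntegral_mono' measurableSet_Ioo key
      _ ≤ ∫⁻ r in Ioi (0 : ℝ), ENNReal.ofReal r * ∫⁻ θ in arc U w₀ r,
            ENNReal.ofReal (‖deriv g (w₀ + r * Complex.exp (θ * Complex.I))‖ ^ 2) :=
          lintegral_mono_set fun r hr => hδ.trans hr.1
      _ ≤ ∫⁻ z in U, ENNReal.ofReal (‖deriv g z‖ ^ 2) := c1_polar hU g w₀
      _ ≤ ENNReal.ofReal M := ha
  rw [ENNReal.ofReal_le_ofReal_iff hM] at h1
  linarith

end H51R
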