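import Pool.Agent.Lib.H51R.D0

/-!
# H51R, chunk C2: images of a curve under the modulus and the direction
-/

set_option autoImplicit false

namespace H51R

open Set Metric Topology Filter MeasureTheory

theorem c2_image {T : Set ℝ} (hT : MeasurableSet T) {lam' : ℝ → ℂ} {f f' : ℝ → ℝ}
    (hf : ∀ θ ∈ T, HasDerivAt f (f' θ) θ) {c L : ℝ} (hc : 0 ≤ c) (hb : ∀ θ ∈ T, |f' θ| ≤ c * ‖lam' θ‖)
    (hL : ∫⁻ θ in T, ENNReal.ofReal ‖lam' θ‖ ≤ ENNReal.ofReal L) :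
    volume (f '' T) ≤ ENNReal.ofReal (c * L) := by
  have h1 := addHaar_image_le_lintegral_abs_det_fderiv volume hT
    (fun θ hθ => ((hf θ hθ).hasFDerivAt).hasFDerivWithinAt (s := T))
  refine h1.trans ?_
  calc ∫⁻ θ in T, ENNReal.ofReal |(ContinuousLinearMap.toSpanSingleton ℝ (f' θ) : ℝ →L[ℝ] ℝ).det|
      ≤ ∫⁻ θ in T, ENNReal.ofReal c * ENNReal.ofReal ‖lam' θ‖ := by
        refine setLIntegral_mono' hT fun θ hθ => ?_
        rw [← ENNReal.ofReal_mul hc]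
        apply ENNReal.ofReal_le_ofReal
        have h2 : (ContinuousLinearMap.toSpanSingleton ℝ (f' θ) : ℝ →L[ℝ] ℝ).det = f' θ := by
          have h3 : (ContinuousLinearMap.toSpanSingleton ℝ (f' θ) : ℝ →L[ℝ] ℝ).det =
            LinearMap.det ((ContinuousLinearMap.toSpanSingleton ℝ (f' θ) : ℝ →L[ℝ] ℝ) : ℝ →ₗ[ℝ] ℝ) := rfl
          rw [h3, LinearMap.det_ring]
          simp
        rw [h2]
        exact hb θ hθ
    _ = ENNReal.ofReal c * ∫⁻ θ in T, ENNReal.ofReal ‖lam' θ‖ :=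
        lintegral_const_mul' _ _ ENNReal.ofReal_ne_top
    _ ≤ ENNReal.ofReal c * ENNReal.ofReal L := by gcongr
    _ = ENNReal.ofReal (c * L) := (ENNReal.ofReal_mul hc).symm

theorem c2_re {lam : ℝ → ℂ} {v : ℂ} {θ : ℝ} (h : HasDerivAt lam v θ) :
    HasDerivAt (fun t => (lam t).re) v.re θ :=
  (Complex.reCLM.hasFDerivAt.comp_hasDerivAt θ h)

theorem c2_im {lam : ℝ → ℂ} {v : ℂ} {θ : ℝ} (h : HasDerivAt lam v θ) :
    HasDerivAt (fun t => (lam t).im) v.im θ :=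
  (Complex.imCLM.hasFDerivAt.comp_hasDerivAt θ h)

/-- The derivative of the modulus. -/
theorem c2_norm {lam : ℝ → ℂ} {v : ℂ} {θ : ℝ} (h : HasDerivAt lam v θ) (h0 : lam θ ≠ 0) :
    HasDerivAt (fun t => ‖lam t‖) (((lam θ).re * v.re + (lam θ).im * v.im) / ‖lam θ‖) θ := by
  have hn : 0 < ‖lam θ‖ := norm_pos_iff.2 h0
  have e : (fun t => ‖lam t‖) = fun t => √((lam t).re ^ 2 + (lam t).im ^ 2) := by
    funext t
    rw [Complex.norm_eq_sqrt_sq_add_sq]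
  have h1 := (c2_re h).pow 2
  have h2 := (c2_im h).pow 2
  have h3 := h1.add h2
  have e2 : (lam θ).re ^ 2 + (lam θ).im ^ 2 = ‖lam θ‖ ^ 2 := by
    rw [← Complex.normSq_eq_norm_sq, Complex.normSq_apply]
    ring
  have h4 : HasDerivAt (fun t => √((lam t).re ^ 2 + (lam t).im ^ 2)) _ θ := h3.sqrt (by
    show (lam θ).re ^ 2 + (lam θ).im ^ 2 ≠ 0
    rw [e2]
    positivity)
  rw [e]
  convert h4 using 1
  show _ = _ / (2 * √((lam θ).re ^ 2 + (lam θ).im ^ 2))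
  rw [e2, Real.sqrt_sq hn.le]
  field_simp
  simp
  ring

theorem c2_norm_bd (a v : ℂ) (h0 : a ≠ 0) : |(a.re * v.re + a.im * v.im) / ‖a‖| ≤ ‖v‖ := by
  have hn : 0 < ‖a‖ := norm_pos_iff.2 h0
  rw [abs_div, abs_of_pos hn, div_le_iff₀ hn]
  apply abs_le_of_sq_le_sq
  · have e1 : a.re ^ 2 + a.im ^ 2 = ‖a‖ ^ 2 := by
      rw [← Complex.normSq_eq_norm_sq, Complex.normSq_apply]
      ring
    have e2 : v.re ^ 2 + v.im ^ 2 = ‖v‖ ^ 2 := by
      rw [← Complex.normSq_eq_norm_sq, Complex.normSq_apply]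
      ring
    rw [mul_pow, ← e1, ← e2]
    nlinarith [sq_nonneg (a.re * v.im - a.im * v.re)]
  · positivity

/-- The quotient of a coordinate by the modulus. -/
theorem c2_quot {x n : ℝ → ℝ} {x' n' θ κ w : ℝ} (hx : HasDerivAt x x' θ) (hn : HasDerivAt n n' θ) (hκ : 0 < κ)
    (hnk : κ ≤ n θ) (hxn : |x θ| ≤ n θ) (hx' : |x'| ≤ w) (hn' : |n'| ≤ w) :
    HasDerivAt (fun t => x t / n t) ((x' * n θ - x θ * n') / n θ ^ 2) θ ∧
      |(x' * n θ - x θ * n') / n θ ^ 2| ≤ 2 / κ * w := by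
  have hn0 : 0 < n θ := hκ.trans_le hnk
  have hw : 0 ≤ w := (abs_nonneg _).trans hx'
  refine ⟨hx.div hn hn0.ne', ?_⟩
  rw [abs_div, abs_of_pos (pow_pos hn0 2), div_le_iff₀ (pow_pos hn0 2)]
  have h1 : |x' * n θ - x θ * n'| ≤ w * n θ + n θ * w := by
    refine (abs_sub _ _).trans ?_
    rw [abs_mul, abs_mul, abs_of_pos hn0]
    gcongr
  refine h1.trans ?_
  have h2 : w * n θ * κ ≤ w * n θ * n θ := by gcongr
  have h3 : 2 / κ * w * n θ ^ 2 = (2 * (w * n θ * n θ)) / κ := by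
    field_simp
  rw [h3, le_div_iff₀ hκ]
  nlinarith

/-- PROOF.  `addHaar_image_le_lintegral_abs_det_fderiv` in dimension one for `θ ↦ ‖lam θ‖`, `(lam θ).re / ‖lam θ‖` and
`(lam θ).im / ‖lam θ‖`; their derivatives are at most `‖lam' θ‖`, `2 ‖lam' θ‖ / κ`, `2 ‖lam' θ‖ / κ` in absolute value. -/
theorem c2_curve {T : Set ℝ} (hT : MeasurableSet T) {lam lam' : ℝ → ℂ}
    (hl : ∀ θ ∈ T, HasDerivAt lam (lam' θ) θ) {κ : ℝ} (hκ : 0 < κ) (hk : ∀ θ ∈ T, κ ≤ ‖lam θ‖)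
    {L : ℝ} (hL : ∫⁻ θ in T, ENNReal.ofReal ‖lam' θ‖ ≤ ENNReal.ofReal L) :
    volume ((fun θ => ‖lam θ‖) '' T) ≤ ENNReal.ofReal L ∧
      volume ((fun θ => (lam θ).re / ‖lam θ‖) '' T) ≤ ENNReal.ofReal (2 * L / κ) ∧
      volume ((fun θ => (lam θ).im / ‖lam θ‖) '' T) ≤ ENNReal.ofReal (2 * L / κ) := by
  have h0 : ∀ θ ∈ T, lam θ ≠ 0 := by
    intro θ hθ h
    have := hk θ hθ
    rw [h, norm_zero] at this
    linarith
  have e : 2 * L / κ = 2 / κ * L := by ring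
  refine ⟨?_, ?_, ?_⟩
  · have h1 := c2_image hT (fun θ hθ => c2_norm (hl θ hθ) (h0 θ hθ)) zero_le_one
      (fun θ hθ => by rw [one_mul]; exact c2_norm_bd _ _ (h0 θ hθ)) hL
    rwa [one_mul] at h1
  · rw [e]
    exact c2_image hT (fun θ hθ => (c2_quot (c2_re (hl θ hθ)) (c2_norm (hl θ hθ) (h0 θ hθ)) hκ (hk θ hθ)
      (Complex.abs_re_le_norm _) (Complex.abs_re_le_norm _) (c2_norm_bd _ _ (h0 θ hθ))).1) (by positivity)
      (fun θ hθ => (c2_quot (c2_re (hl θ hθ)) (c2_norm (hl θ hθ) (h0 θ hθ)) hκ (hk θ hθ)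
      (Complex.abs_re_le_norm _) (Complex.abs_re_le_norm _) (c2_norm_bd _ _ (h0 θ hθ))).2) hL
  · rw [e]
    exact c2_image hT (fun θ hθ => (c2_quot (c2_im (hl θ hθ)) (c2_norm (hl θ hθ) (h0 θ hθ)) hκ (hk θ hθ)
      (Complex.abs_im_le_norm _) (Complex.abs_im_le_norm _) (c2_norm_bd _ _ (h0 θ hθ))).1) (by positivity)
      (fun θ hθ => (c2_quot (c2_im (hl θ hθ)) (c2_norm (hl θ hθ) (h0 θ hθ)) hκ (hk θ hθ)
      (Complex.abs_im_le_norm _) (Complex.abs_im_le_norm _) (c2_norm_bd _ _ (h0 θ hθ))).2) hL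

end H51R
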