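import Pool.Agent.Lib.H51R.D0

/-!
# H51R, chunk C3: a connected set cut off by a short set has small diameter
-/

set_option autoImplicit false

namespace H51R

open Set Metric Topology Filter MeasureTheory

/-- A point of `Λ` on the ray through `v ∈ W`. -/
theorem c3_ray {W W' : Set ℂ} (hW : IsOpen W) (hW' : IsOpen W') (hd : Disjoint W W')
    (hWb : W ⊆ ball 0 1) (h0 : (0 : ℂ) ∈ W') {v : ℂ} (hv : v ∈ W) :
    ∃ s : ℝ, 0 < s ∧ (s : ℂ) * v ∈ ball (0 : ℂ) 1 \ (W ∪ W') := by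
  by_contra hcon
  push Not at hcon
  have hvb := hWb hv
  rw [mem_ball_zero_iff] at hvb
  have hcont : Continuous (fun s : ℝ => (s : ℂ) * v) := by fun_prop
  have hpre : IsPreconnected ((fun s : ℝ => (s : ℂ) * v) '' Icc 0 1) := isPreconnected_Icc.image _ hcont.continuousOn
  have hsub : (fun s : ℝ => (s : ℂ) * v) '' Icc 0 1 ⊆ W ∪ W' := by
    rintro _ ⟨s, hs, rfl⟩
    rcases hs.1.eq_or_lt with h | h
    · right
      show (s : ℂ) * v ∈ W'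
      rw [← h, Complex.ofReal_zero, zero_mul]
      exact h0
    · by_contra hn
      apply hcon s h
      refine ⟨?_, hn⟩
      rw [mem_ball_zero_iff, norm_mul, Complex.norm_real, Real.norm_eq_abs, abs_of_pos h]
      nlinarith [hs.2, norm_nonneg v]
  have h1 : ((fun s : ℝ => (s : ℂ) * v) '' Icc 0 1 ∩ W).Nonempty :=
    ⟨v, ⟨1, ⟨zero_le_one, le_rfl⟩, by simp⟩, hv⟩
  have h2 : ((fun s : ℝ => (s : ℂ) * v) '' Icc 0 1 ∩ W').Nonempty :=
    ⟨0, ⟨0, ⟨le_rfl, zero_le_one⟩, by simp⟩, h0⟩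
  obtain ⟨z, -, hz1, hz2⟩ := hpre W W' hW hW' hsub h1 h2
  exact (Set.disjoint_left.1 hd) hz1 hz2

theorem c3_scale_re {s : ℝ} (hs : 0 < s) (v : ℂ) : ((s : ℂ) * v).re / ‖(s : ℂ) * v‖ = v.re / ‖v‖ := by
  rw [norm_mul, Complex.norm_real, Real.norm_eq_abs, abs_of_pos hs, Complex.re_ofReal_mul, mul_div_mul_left _ _ hs.ne']

theorem c3_scale_im {s : ℝ} (hs : 0 < s) (v : ℂ) : ((s : ℂ) * v).im / ‖(s : ℂ) * v‖ = v.im / ‖v‖ := by
  rw [norm_mul, Complex.norm_real, Real.norm_eq_abs, abs_of_pos hs, Complex.im_ofReal_mul, mul_div_mul_left _ _ hs.ne']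

/-- A preconnected set of reals in a set of small measure. -/
theorem c3_short {A B : Set ℝ} (hA : IsPreconnected A) (hAB : A ⊆ B) {L : ℝ} (hL : 0 ≤ L) (hB : volume B ≤ ENNReal.ofReal L)
    {a b : ℝ} (ha : a ∈ A) (hb : b ∈ A) : |a - b| ≤ L := by
  have key : ∀ a b : ℝ, a ∈ A → b ∈ A → a ≤ b → b - a ≤ L := by
    intro a b ha hb hab
    have h1 : Icc a b ⊆ B := (hA.Icc_subset ha hb).trans hAB
    have h2 := (measure_mono h1).trans hB
    rw [Real.volume_Icc, ENNReal.ofReal_le_ofReal_iff hL] at h2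
    exact h2
  rcases le_total a b with h | h
  · rw [abs_sub_comm, abs_of_nonneg (sub_nonneg.2 h)]
    exact key a b ha hb h
  · rw [abs_of_nonneg (sub_nonneg.2 h)]
    exact key b a hb ha h

/-- PROOF.  Let `Λ = ball 0 1 \ (W ∪ W')`, `x v = v.re / ‖v‖`, `y v = v.im / ‖v‖`.  (1) For `v ∈ W` the segment
`[0, v] ⊆ ball 0 1` is connected and meets the disjoint open sets `W'` (at `0`) and `W` (at `v`), so it meets `Λ` in `s v`,
`0 < s < 1`, and `x (s v) = x v`, `y (s v) = y v`.  So `x '' Q ⊆ x '' Λ`, `y '' Q ⊆ y '' Λ`; `x '' Q` is preconnected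
(`x` is continuous on `Q`, `0 ∉ Q`), so `|x v₁ - x v₂| ≤ volume (x '' Q) ≤ L'` for `v₁, v₂ ∈ Q`, and the same for `y`.
(2) Let `v ∈ Q`, `‖v‖ < t < 1`.  There is `q ∈ Q` with `‖q‖ = t` (`hn` and `Q` preconnected).  If no point of `Λ` has norm
`t`, then the circle `sphere 0 t` (preconnected, in `ball 0 1`) is contained in `W ∪ W'`, and in `W` because it contains
`q`; by (1) every value `cos α` is in `x '' Λ`, so `volume (x '' Λ) ≥ 2 > L'`, a contradiction.  So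
`Ioo ‖v‖ 1 ⊆ norm '' Λ` and `1 - ‖v‖ ≤ L`.  (3) `dist v₁ v₂ ≤ |‖v₁‖ - ‖v₂‖| + |x v₁ - x v₂| + |y v₁ - y v₂|`
(write `v = ‖v‖ (x v + i y v)`). -/
theorem c3_diam {W W' Q : Set ℂ} (hW : IsOpen W) (hW' : IsOpen W') (hd : Disjoint W W')
    (hWb : W ⊆ ball 0 1) (hWb' : W' ⊆ ball 0 1) (h0 : (0 : ℂ) ∈ W') (hQ : IsPreconnected Q)
    (hQW : Q ⊆ W) {L L' : ℝ} (hL : 0 ≤ L) (hL0 : 0 ≤ L') (hL2 : L' < 2)
    (hn : volume ((fun v : ℂ => ‖v‖) '' (ball 0 1 \ (W ∪ W'))) ≤ ENNReal.ofReal L)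
    (hx : volume ((fun v : ℂ => v.re / ‖v‖) '' (ball 0 1 \ (W ∪ W'))) ≤ ENNReal.ofReal L')
    (hy : volume ((fun v : ℂ => v.im / ‖v‖) '' (ball 0 1 \ (W ∪ W'))) ≤ ENNReal.ofReal L')
    (hnear : ∀ η > 0, ∃ v ∈ Q, 1 - η < ‖v‖) :
    ∀ v₁ ∈ Q, ∀ v₂ ∈ Q, dist v₁ v₂ ≤ L + 2 * L' := by
  have hne : ∀ v ∈ W, v ≠ 0 := by
    rintro v hv rfl
    exact (Set.disjoint_left.1 hd) hv h0
  have hxW : ∀ v ∈ W, v.re / ‖v‖ ∈ (fun v : ℂ => v.re / ‖v‖) '' (ball 0 1 \ (W ∪ W')) := by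
    intro v hv
    obtain ⟨s, hs, hsv⟩ := c3_ray hW hW' hd hWb h0 hv
    exact ⟨_, hsv, c3_scale_re hs v⟩
  have hyW : ∀ v ∈ W, v.im / ‖v‖ ∈ (fun v : ℂ => v.im / ‖v‖) '' (ball 0 1 \ (W ∪ W')) := by
    intro v hv
    obtain ⟨s, hs, hsv⟩ := c3_ray hW hW' hd hWb h0 hv
    exact ⟨_, hsv, c3_scale_im hs v⟩
  have hxc : ContinuousOn (fun v : ℂ => v.re / ‖v‖) Q := by
    apply ContinuousOn.div
    · exact Complex.continuous_re.continuousOn
    · exact continuous_norm.continuousOn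
    · exact fun v hv => norm_ne_zero_iff.2 (hne v (hQW hv))
  have hyc : ContinuousOn (fun v : ℂ => v.im / ‖v‖) Q := by
    apply ContinuousOn.div
    · exact Complex.continuous_im.continuousOn
    · exact continuous_norm.continuousOn
    · exact fun v hv => norm_ne_zero_iff.2 (hne v (hQW hv))
  have bx : ∀ v₁ ∈ Q, ∀ v₂ ∈ Q, |v₁.re / ‖v₁‖ - v₂.re / ‖v₂‖| ≤ L' := by
    intro v₁ h₁ v₂ h₂
    exact c3_short (hQ.image _ hxc) (by rintro _ ⟨v, hv, rfl⟩; exact hxW v (hQW hv)) hL0 hx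
      ⟨v₁, h₁, rfl⟩ ⟨v₂, h₂, rfl⟩
  have by' : ∀ v₁ ∈ Q, ∀ v₂ ∈ Q, |v₁.im / ‖v₁‖ - v₂.im / ‖v₂‖| ≤ L' := by
    intro v₁ h₁ v₂ h₂
    exact c3_short (hQ.image _ hyc) (by rintro _ ⟨v, hv, rfl⟩; exact hyW v (hQW hv)) hL0 hy
      ⟨v₁, h₁, rfl⟩ ⟨v₂, h₂, rfl⟩
  have bn : ∀ v ∈ Q, 1 - ‖v‖ ≤ L := by
    intro v hv
    have hsub : Ioo ‖v‖ 1 ⊆ (fun v : ℂ => ‖v‖) '' (ball 0 1 \ (W ∪ W')) := by
      intro t ht
      obtain ⟨v', hv', hv't⟩ := hnear (1 - t) (by linarith [ht.2])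
      have hpre := hQ.image (fun v : ℂ => ‖v‖) continuous_norm.continuousOn
      have ht2 : t ∈ (fun v : ℂ => ‖v‖) '' Q :=
        hpre.Icc_subset ⟨v, hv, rfl⟩ ⟨v', hv', rfl⟩ ⟨ht.1.le, by
          show t ≤ ‖v'‖
          linarith⟩
      obtain ⟨q, hq, hqt⟩ := ht2
      have hqt' : ‖q‖ = t := hqt
      have ht0 : 0 < t := (norm_nonneg v).trans_lt ht.1
      by_contra hcon
      have hsp : sphere (0 : ℂ) t ⊆ W ∪ W' := by
        intro w hw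
        rw [mem_sphere_zero_iff_norm] at hw
        by_contra hn'
        exact hcon ⟨w, ⟨by rw [mem_ball_zero_iff, hw]; exact ht.2, hn'⟩, hw⟩
      have hspc : IsPreconnected (sphere (0 : ℂ) t) := isPreconnected_sphere (by
        rw [Complex.rank_real_complex]
        exact Cardinal.one_lt_two) 0 t
      have hspW : sphere (0 : ℂ) t ⊆ W :=
        hspc.subset_left_of_subset_union hW hW' hd hsp ⟨q, by rw [mem_sphere_zero_iff_norm]; exact hqt', hQW hq⟩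
      have hI : Icc (-1 : ℝ) 1 ⊆ (fun v : ℂ => v.re / ‖v‖) '' (ball 0 1 \ (W ∪ W')) := by
        intro u hu
        have hu2 : 0 ≤ 1 - u ^ 2 := by nlinarith [hu.1, hu.2]
        set w : ℂ := ⟨t * u, t * √(1 - u ^ 2)⟩ with hw
        have hwn : ‖w‖ = t := by
          rw [Complex.norm_eq_sqrt_sq_add_sq, hw]
          show √((t * u) ^ 2 + (t * √(1 - u ^ 2)) ^ 2) = t
          rw [mul_pow, mul_pow, Real.sq_sqrt hu2]
          have : t ^ 2 * u ^ 2 + t ^ 2 * (1 - u ^ 2) = t ^ 2 := by ring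
          rw [this, Real.sqrt_sq ht0.le]
        have h1 := hxW w (hspW (by rw [mem_sphere_zero_iff_norm]; exact hwn))
        rw [hwn] at h1
        have h2 : w.re / t = u := by
          show t * u / t = u
          field_simp
        rw [h2] at h1
        exact h1
      have h3 := (measure_mono hI).trans hx
      rw [Real.volume_Icc, ENNReal.ofReal_le_ofReal_iff hL0] at h3
      linarith
    have h4 := (measure_mono hsub).trans hn
    rw [Real.volume_Ioo, ENNReal.ofReal_le_ofReal_iff hL] at h4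
    exact h4
  intro v₁ h₁ v₂ h₂
  have n1 : 0 < ‖v₁‖ := norm_pos_iff.2 (hne v₁ (hQW h₁))
  have n2 : 0 < ‖v₂‖ := norm_pos_iff.2 (hne v₂ (hQW h₂))
  have l1 : ‖v₁‖ < 1 := by
    have := hWb (hQW h₁)
    rwa [mem_ball_zero_iff] at this
  have l2 : ‖v₂‖ < 1 := by
    have := hWb (hQW h₂)
    rwa [mem_ball_zero_iff] at this
  have b1 := bn v₁ h₁
  have b2 := bn v₂ h₂
  have e1 : v₁ = (‖v₁‖ : ℂ) * (v₁ / ‖v₁‖) := by
    have : (‖v₁‖ : ℂ) ≠ 0 := Complex.ofReal_ne_zero.2 n1.ne'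
    field_simp
  have e2 : v₂ = (‖v₂‖ : ℂ) * (v₂ / ‖v₂‖) := by
    have : (‖v₂‖ : ℂ) ≠ 0 := Complex.ofReal_ne_zero.2 n2.ne'
    field_simp
  have e3 : v₁ - v₂ = ((‖v₁‖ - ‖v₂‖ : ℝ) : ℂ) * (v₁ / ‖v₁‖) + (‖v₂‖ : ℂ) * (v₁ / ‖v₁‖ - v₂ / ‖v₂‖) := by
    conv_lhs => rw [e1, e2]
    push_cast
    ring
  have e4 : ‖v₁ / ‖v₁‖‖ = 1 := by
    rw [norm_div, Complex.norm_real, norm_norm, div_self n1.ne']
  have e5 : ‖v₁ / ‖v₁‖ - v₂ / ‖v₂‖‖ ≤ L' + L' := by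
    refine (Complex.norm_le_abs_re_add_abs_im _).trans ?_
    rw [Complex.sub_re, Complex.sub_im, Complex.div_ofReal_re, Complex.div_ofReal_re, Complex.div_ofReal_im,
      Complex.div_ofReal_im]
    exact add_le_add (bx v₁ h₁ v₂ h₂) (by' v₁ h₁ v₂ h₂)
  rw [dist_eq_norm, e3]
  refine (norm_add_le _ _).trans ?_
  rw [norm_mul, norm_mul, e4, mul_one, Complex.norm_real, Complex.norm_real, Real.norm_eq_abs, norm_norm]
  have h5 : |‖v₁‖ - ‖v₂‖| ≤ L := by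
    rw [abs_le]
    constructor <;> linarith
  have h6 : ‖v₂‖ * ‖v₁ / ‖v₁‖ - v₂ / ‖v₂‖‖ ≤ 1 * (L' + L') := by
    gcongr
  linarith

end H51R
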