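import Pool.Agent.Lib.H51R.C1
import Pool.Agent.Lib.H51R.C2
import Pool.Agent.Lib.H51R.C3

/-!
# H51R, chunk C4: the homeomorphism `ψ ∘ f` of the open disc has boundary limits
-/

set_option autoImplicit false

namespace H51R

open Set Metric Topology Filter MeasureTheory Function

theorem c4_choose {ε d : ℝ} (hε : 0 < ε) (hd : 0 < d) :
    ∃ δ : ℝ, 0 < δ ∧ δ < 1 ∧ √δ < d ∧ √(4 * Real.pi * (4 + 1) / Real.log (1 / δ)) +
      2 * (4 * √(4 * Real.pi * (4 + 1) / Real.log (1 / δ))) < ε ∧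
      4 * √(4 * Real.pi * (4 + 1) / Real.log (1 / δ)) < 2 := by
  have hp := Real.pi_pos
  obtain ⟨c, hc0, hc1, hc2⟩ : ∃ c : ℝ, 0 < c ∧ 9 * c < ε ∧ c < 1 / 2 := by
    refine ⟨min (ε / 18) (1 / 4), by positivity, ?_, ?_⟩
    · have := min_le_left (ε / 18) (1 / 4)
      linarith
    · have := min_le_right (ε / 18) (1 / 4)
      linarith
  set X : ℝ := 20 * Real.pi / c ^ 2 with hX
  have hX0 : 0 < X := by positivity
  set δ : ℝ := min (min (Real.exp (-X)) ((d / 2) ^ 2)) (1 / 2) with hδ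
  have h1 : δ ≤ Real.exp (-X) := (min_le_left _ _).trans (min_le_left _ _)
  have h2 : δ ≤ (d / 2) ^ 2 := (min_le_left _ _).trans (min_le_right _ _)
  have h3 : δ ≤ 1 / 2 := min_le_right _ _
  have h0 : 0 < δ := by
    rw [hδ]
    have := Real.exp_pos (-X)
    positivity
  have hL : √(4 * Real.pi * (4 + 1) / Real.log (1 / δ)) ≤ c := by
    have h4 : X ≤ Real.log (1 / δ) := by
      rw [Real.le_log_iff_exp_le (by positivity), le_div_iff₀ h0]
      calc Real.exp X * δ ≤ Real.exp X * Real.exp (-X) := by gcongr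
        _ = 1 := by rw [← Real.exp_add, add_neg_cancel, Real.exp_zero]
    rw [Real.sqrt_le_left hc0.le]
    have h5 : 0 < Real.log (1 / δ) := hX0.trans_le h4
    rw [div_le_iff₀ h5]
    have h6 : c ^ 2 * X = 20 * Real.pi := by
      rw [hX]
      field_simp
    nlinarith [mul_le_mul_of_nonneg_left h4 (sq_nonneg c)]
  refine ⟨δ, h0, by linarith, ?_, by linarith, by linarith⟩
  have h6 : √δ ≤ d / 2 := by
    rw [Real.sqrt_le_left (by positivity)]
    exact h2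
  linarith

/-- PROOF (length-area argument in the image domain).  `F = ψ ∘ f`, `Ω = f '' ball 0 1`, `w₀ = f p ∉ Ω`.  It is enough to
find, for `ε > 0`, an `η > 0` with `dist (F z₁) (F z₂) < ε` for `z₁, z₂ ∈ ball 0 1 ∩ ball p η` (Cauchy filter, `ℂ` complete,
`𝓝[ball 0 1] p ≠ ⊥`).  `φ '' closedBall 0 (1/2)` is compact in `Ω`, so its distance `d₀` to `w₀` is positive.
`∫⁻ z in Ω, ‖ψ'‖² = volume (ψ '' Ω) ≤ volume (ball 0 1) ≤ 4` (`c1_area`; `ψ` is injective on `Ω` by `l`).  Choose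
`δ < 1` with `√δ < d₀` such that `L = √(4 π 5 / log (1/δ))` satisfies `L + 2 (4 L) < ε` and `4 L < 2`, and
`ρ ∈ Ioo δ √δ` from `c1_wolff` (`U = Ω`, `g = ψ`).  Put `W = {v ∈ ball 0 1 | ‖φ v - w₀‖ < ρ}`,
`W' = {v ∈ ball 0 1 | ρ < ‖φ v - w₀‖}`: open, disjoint, `0 ∈ W'`.  `Λ = ball 0 1 \ (W ∪ W')` consists of points of norm
`> 1/2` and is the image of `T = {θ ∈ Ioc (-π) π | w₀ + ρ e^{iθ} ∈ Ω}` under `lam θ = ψ (w₀ + ρ e^{iθ})`: `T` is `arc Ω w₀ ρ`
plus at most one point, and a point adds nothing to the volume of the image.  `c2_curve` with `κ = 1/2` (`lam' θ =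
ψ'(..) * ρ i e^{iθ}`, `arc` is open) gives the three volume bounds with `L` and `L' = 4 L`.  Let `η > 0` be such that
`f z ∈ ball w₀ δ` for `z ∈ closedBall 0 1 ∩ ball p η`, and `Q = F '' (ball 0 1 ∩ ball p η)`: preconnected (a convex set, `F`
continuous on `ball 0 1`), contained in `W`.  `hnear`: if `1 - η' ≥ ‖F z‖` for all `z ∈ ball 0 1 ∩ ball p η`, then
`f z = φ (F z) ∈ φ '' closedBall 0 (1 - η')`, a compact set, which is closed, so in the limit `z → p`
`w₀ = f p ∈ φ '' closedBall 0 (1 - η') ⊆ Ω = f '' ball 0 1`, against injectivity of `f`.  Apply `c3_diam`. -/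
theorem c4_limit {f ψ φ : ℂ → ℂ} (h : RM f ψ φ) {p : ℂ} (hp : p ∈ sphere (0 : ℂ) 1) :
    ∃ y, Tendsto (fun z => ψ (f z)) (𝓝[ball 0 1] p) (𝓝 y) := by
  have hpn : ‖p‖ = 1 := mem_sphere_zero_iff_norm.1 hp
  have hpc : p ∈ closedBall (0 : ℂ) 1 := by
    rw [mem_closedBall_zero_iff, hpn]
  have hbc : ball (0 : ℂ) 1 ⊆ closedBall 0 1 := ball_subset_closedBall
  have hne : NeBot (𝓝[ball (0 : ℂ) 1] p) := by
    rw [← mem_closure_iff_nhdsWithin_neBot, closure_ball (0 : ℂ) one_ne_zero]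
    exact hpc
  have hftend : Tendsto f (𝓝[ball 0 1] p) (𝓝 (f p)) :=
    (h.fc p hpc).mono_left (nhdsWithin_mono p hbc)
  have hw₀ : f p ∉ f '' ball 0 1 := by
    rintro ⟨z, hz, he⟩
    have h1 := h.fi (hbc hz) hpc he
    rw [h1, mem_ball_zero_iff, hpn] at hz
    exact lt_irrefl _ hz
  have hφc : ContinuousOn φ (ball 0 1) := h.φd.continuousOn
  have hψc : ContinuousOn ψ (f '' ball 0 1) := h.ψd.continuousOn
  have hFc : ContinuousOn (fun z => ψ (f z)) (ball 0 1) :=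
    hψc.comp (h.fc.mono hbc) fun z hz => ⟨z, hz, rfl⟩
  have hψi : InjOn ψ (f '' ball 0 1) := by
    intro a ha b hb hab
    rw [← h.l a ha, ← h.l b hb, hab]
  rw [← cauchy_map_iff_exists_tendsto, Metric.cauchy_iff]
  refine ⟨hne.map _, fun ε hε => ?_⟩
  -- the distance to the compact part
  obtain ⟨d, hd, hdK⟩ : ∃ d : ℝ, 0 < d ∧ ∀ v ∈ closedBall (0 : ℂ) (1 / 2), d ≤ ‖φ v - f p‖ := by
    have hK : IsCompact (φ '' closedBall 0 (1 / 2)) :=
      (isCompact_closedBall _ _).image_of_continuousOn (hφc.mono (closedBall_subset_ball (by norm_num)))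
    have hnot : f p ∉ φ '' closedBall 0 (1 / 2) := by
      rintro ⟨v, hv, he⟩
      apply hw₀
      rw [← he]
      exact h.φm (closedBall_subset_ball (by norm_num) hv)
    obtain ⟨d, hd, hdd⟩ := Metric.isOpen_iff.1 hK.isClosed.isOpen_compl (f p) hnot
    refine ⟨d, hd, fun v hv => ?_⟩
    by_contra hcon
    push Not at hcon
    exact hdd (show φ v ∈ ball (f p) d by rwa [mem_ball, dist_eq_norm]) ⟨v, hv, rfl⟩
  obtain ⟨δ, hδ, hδ1, hδd, hLε, hL2⟩ := c4_choose hε hd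
  have harea : ∫⁻ z in f '' ball 0 1, ENNReal.ofReal (‖deriv ψ z‖ ^ 2) ≤ ENNReal.ofReal 4 := by
    rw [c1_area h.op h.ψd hψi]
    have h1 : ψ '' (f '' ball 0 1) ⊆ ball 0 1 := by
      rintro _ ⟨w, hw, rfl⟩
      exact h.ψm hw
    refine (measure_mono h1).trans ?_
    rw [Complex.volume_ball, ENNReal.ofReal_one, one_pow, one_mul]
    have h2 : ((NNReal.pi : NNReal) : ENNReal) = ENNReal.ofReal Real.pi := by
      rw [← NNReal.coe_real_pi, ENNReal.ofReal_coe_nnreal]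
    rw [h2]
    exact ENNReal.ofReal_le_ofReal Real.pi_le_four
  obtain ⟨ρ, hρ, hwolff⟩ := c1_wolff h.op h.ψd (by norm_num : (0 : ℝ) ≤ 4) harea (f p) hδ hδ1
  set L : ℝ := √(4 * Real.pi * (4 + 1) / Real.log (1 / δ)) with hL
  have hL0 : 0 ≤ L := Real.sqrt_nonneg _
  have hρ0 : 0 < ρ := hδ.trans hρ.1
  have hρd : ρ < d := hρ.2.trans hδd
  set W : Set ℂ := {v | v ∈ ball (0 : ℂ) 1 ∧ ‖φ v - f p‖ < ρ} with hWdef
  set W' : Set ℂ := {v | v ∈ ball (0 : ℂ) 1 ∧ ρ < ‖φ v - f p‖} with hWdef'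
  have hcn : ContinuousOn (fun v => ‖φ v - f p‖) (ball 0 1) := (hφc.sub continuousOn_const).norm
  have hWo : IsOpen W := hcn.isOpen_inter_preimage isOpen_ball isOpen_Iio
  have hWo' : IsOpen W' := hcn.isOpen_inter_preimage isOpen_ball isOpen_Ioi
  have hdis : Disjoint W W' := by
    rw [Set.disjoint_left]
    intro v hv hv'
    exact lt_asymm hv.2 hv'.2
  have h0W : (0 : ℂ) ∈ W' := by
    refine ⟨by simp, hρd.trans_le (hdK 0 (by simp))⟩
  -- the curve
  have hTm : MeasurableSet (arc (f '' ball 0 1) (f p) ρ) := c1_arc_meas h.op _ _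
  have hder : ∀ θ ∈ arc (f '' ball 0 1) (f p) ρ, HasDerivAt (fun t : ℝ => ψ (f p + (ρ : ℂ) * Complex.exp (t * Complex.I)))
      (deriv ψ (f p + (ρ : ℂ) * Complex.exp (θ * Complex.I)) * ((ρ : ℂ) * (Complex.exp (θ * Complex.I) * Complex.I))) θ := by
    intro θ hθ
    have h4 : HasDerivAt ψ (deriv ψ (f p + (ρ : ℂ) * Complex.exp (θ * Complex.I))) (f p + (ρ : ℂ) * Complex.exp (θ * Complex.I)) :=
      (h.ψd.differentiableAt (h.op.mem_nhds hθ.2)).hasDerivAt
    have h5 : HasDerivAt (fun t : ℝ => f p + (ρ : ℂ) * Complex.exp (t * Complex.I))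
        ((ρ : ℂ) * (Complex.exp (θ * Complex.I) * Complex.I)) θ := by
      have h6 : HasDerivAt (fun t : ℝ => (t : ℂ) * Complex.I) Complex.I θ := by
        have := (Complex.ofRealCLM.hasDerivAt (x := θ)).mul_const Complex.I
        simpa using this
      exact (h6.cexp.const_mul (ρ : ℂ)).const_add (f p)
    exact h4.comp θ h5
  have hk : ∀ θ ∈ arc (f '' ball 0 1) (f p) ρ, 1 / 2 ≤ ‖ψ (f p + (ρ : ℂ) * Complex.exp (θ * Complex.I))‖ := by
    intro θ hθ
    by_contra hcon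
    push Not at hcon
    have h1 := hdK (ψ (f p + (ρ : ℂ) * Complex.exp (θ * Complex.I))) (by
      rw [mem_closedBall_zero_iff]
      exact hcon.le)
    rw [h.l _ hθ.2, add_sub_cancel_left, norm_mul, Complex.norm_exp_ofReal_mul_I, mul_one, Complex.norm_real, Real.norm_eq_abs,
      abs_of_pos hρ0] at h1
    linarith
  have hlen : ∫⁻ θ in arc (f '' ball 0 1) (f p) ρ, ENNReal.ofReal ‖deriv ψ (f p + (ρ : ℂ) * Complex.exp (θ * Complex.I)) *
      ((ρ : ℂ) * (Complex.exp (θ * Complex.I) * Complex.I))‖ ≤ ENNReal.ofReal L := by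
    have h7 : ∀ θ : ℝ, ‖deriv ψ (f p + (ρ : ℂ) * Complex.exp (θ * Complex.I)) * ((ρ : ℂ) * (Complex.exp (θ * Complex.I) * Complex.I))‖ =
        ρ * ‖deriv ψ (f p + ρ * Complex.exp (θ * Complex.I))‖ := by
      intro θ
      rw [norm_mul, norm_mul, norm_mul, Complex.norm_exp_ofReal_mul_I, Complex.norm_I, Complex.norm_real, Real.norm_eq_abs,
        abs_of_pos hρ0]
      ring
    simp only [h7]
    exact hwolff
  obtain ⟨c1, c2, c3⟩ := c2_curve hTm hder (by norm_num : (0 : ℝ) < 1 / 2) hk hlen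
  have e4 : 2 * L / (1 / 2) = 4 * L := by ring
  rw [e4] at c2 c3
  -- `Λ` is contained in the image of the arc and one point
  have hΛ : ball (0 : ℂ) 1 \ (W ∪ W') ⊆
      (fun t : ℝ => ψ (f p + (ρ : ℂ) * Complex.exp (t * Complex.I))) '' arc (f '' ball 0 1) (f p) ρ ∪ {ψ (f p - ρ)} := by
    rintro v ⟨hv, hvn⟩
    have h1 : ‖φ v - f p‖ = ρ := by
      rcases lt_trichotomy ‖φ v - f p‖ ρ with h2 | h2 | h2
      · exact absurd (Or.inl ⟨hv, h2⟩) hvn
      · exact h2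
      · exact absurd (Or.inr ⟨hv, h2⟩) hvn
    have h2 := Complex.norm_mul_exp_arg_mul_I (φ v - f p)
    rw [h1] at h2
    have h3 : φ v = f p + (ρ : ℂ) * Complex.exp (Complex.arg (φ v - f p) * Complex.I) := by
      rw [h2]
      ring
    by_cases hπ : Complex.arg (φ v - f p) = Real.pi
    · right
      rw [hπ, Complex.exp_pi_mul_I] at h3
      rw [mem_singleton_iff, ← h.r v hv, h3]
      congr 1
      ring
    · left
      refine ⟨Complex.arg (φ v - f p), ⟨⟨Complex.neg_pi_lt_arg _, lt_of_le_of_ne (Complex.arg_le_pi _) hπ⟩, ?_⟩, ?_⟩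
      · rw [← h3]
        exact h.φm hv
      · show ψ (f p + (ρ : ℂ) * Complex.exp (Complex.arg (φ v - f p) * Complex.I)) = v
        rw [← h3, h.r v hv]
  have hvol : ∀ (N : ℂ → ℝ) (K : ℝ), volume ((fun θ : ℝ => N (ψ (f p + (ρ : ℂ) * Complex.exp (θ * Complex.I)))) ''
      arc (f '' ball 0 1) (f p) ρ) ≤ ENNReal.ofReal K → volume (N '' (ball (0 : ℂ) 1 \ (W ∪ W'))) ≤ ENNReal.ofReal K := by
    intro N K hN
    have h1 : N '' (ball (0 : ℂ) 1 \ (W ∪ W')) ⊆ ((fun θ : ℝ => N (ψ (f p + (ρ : ℂ) * Complex.exp (θ * Complex.I)))) ''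
        arc (f '' ball 0 1) (f p) ρ) ∪ {N (ψ (f p - ρ))} := by
      rintro _ ⟨v, hv, rfl⟩
      rcases hΛ hv with ⟨θ, hθ, he⟩ | he
      · left
        exact ⟨θ, hθ, congrArg N he⟩
      · right
        rw [mem_singleton_iff] at he
        rw [he]
        rfl
    refine (measure_mono h1).trans ((measure_union_le _ _).trans ?_)
    rw [Real.volume_singleton, add_zero]
    exact hN
  -- the neighbourhood of `p`
  obtain ⟨η, hη, hηf⟩ := Metric.continuousWithinAt_iff.1 (h.fc p hpc) δ hδ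
  have hQW : (fun z => ψ (f z)) '' (ball 0 1 ∩ ball p η) ⊆ W := by
    rintro _ ⟨z, ⟨hz1, hz2⟩, rfl⟩
    have h1 : f z ∈ f '' ball 0 1 := ⟨z, hz1, rfl⟩
    refine ⟨h.ψm h1, ?_⟩
    show ‖φ (ψ (f z)) - f p‖ < ρ
    rw [h.l _ h1, ← dist_eq_norm]
    exact (hηf (hbc hz1) hz2).trans hρ.1
  have hQp : IsPreconnected ((fun z => ψ (f z)) '' (ball 0 1 ∩ ball p η)) :=
    (((convex_ball (0 : ℂ) 1).inter (convex_ball p η)).isPreconnected).image _ (hFc.mono inter_subset_left)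
  have hnear : ∀ η' > 0, ∃ v ∈ (fun z => ψ (f z)) '' (ball 0 1 ∩ ball p η), 1 - η' < ‖v‖ := by
    intro η' hη'
    by_contra hcon
    push Not at hcon
    apply hw₀
    have hsub : closedBall (0 : ℂ) (1 - η') ⊆ ball 0 1 := closedBall_subset_ball (by linarith)
    have hK : IsCompact (φ '' closedBall 0 (1 - η')) :=
      (isCompact_closedBall _ _).image_of_continuousOn (hφc.mono hsub)
    have hev : ∀ᶠ z in 𝓝[ball 0 1] p, f z ∈ φ '' closedBall 0 (1 - η') := by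
      have h1 : ball p η ∈ 𝓝[ball 0 1] p := mem_nhdsWithin_of_mem_nhds (ball_mem_nhds p hη)
      filter_upwards [self_mem_nhdsWithin, h1] with z hz1 hz2
      refine ⟨ψ (f z), ?_, h.l _ ⟨z, hz1, rfl⟩⟩
      rw [mem_closedBall_zero_iff]
      exact hcon _ ⟨z, ⟨hz1, hz2⟩, rfl⟩
    obtain ⟨v, hv, he⟩ := hK.isClosed.mem_of_tendsto hftend hev
    rw [← he]
    exact h.φm (hsub hv)
  have hdiam := c3_diam hWo hWo' hdis (fun v hv => hv.1) (fun v hv => hv.1) h0W hQp hQW hL0 (by positivity) hL2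
    (hvol (fun v => ‖v‖) L c1) (hvol (fun v => v.re / ‖v‖) (4 * L) c2) (hvol (fun v => v.im / ‖v‖) (4 * L) c3) hnear
  refine ⟨(fun z => ψ (f z)) '' (ball 0 1 ∩ ball p η), ?_, fun a ha b hb => (hdiam a ha b hb).trans_lt hLε⟩
  apply image_mem_map
  rw [inter_comm]
  exact inter_mem (mem_nhdsWithin_of_mem_nhds (ball_mem_nhds p hη)) self_mem_nhdsWithin

end H51R
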