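import Pool.Agent.Lib.H51R.C1

/-!
# H51R, chunk C5: two small lemmas on discs and arcs
-/

set_option autoImplicit false

namespace H51R

open Set Metric Topology Filter MeasureTheory

theorem c5_sq (s P γ : ℝ) : ‖(s : ℂ) * Complex.exp (γ * Complex.I) - P‖ ^ 2 = s ^ 2 + P ^ 2 - 2 * s * P * Real.cos γ := by
  rw [← Complex.normSq_eq_norm_sq, Complex.normSq_apply]
  have h1 : ((s : ℂ) * Complex.exp (γ * Complex.I) - P).re = s * Real.cos γ - P := by
    rw [Complex.sub_re, Complex.re_ofReal_mul, Complex.exp_ofReal_mul_I_re, Complex.ofReal_re]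
  have h2 : ((s : ℂ) * Complex.exp (γ * Complex.I) - P).im = s * Real.sin γ := by
    rw [Complex.sub_im, Complex.im_ofReal_mul, Complex.exp_ofReal_mul_I_im, Complex.ofReal_im, sub_zero]
  rw [h1, h2]
  have h3 := Real.sin_sq_add_cos_sq γ
  linear_combination s ^ 2 * h3

/-- PROOF.  Every `z = s e^{iα}` (`p = P e^{iβ}`, `P > η`) in the set is joined in it to `0`: rotate, `s e^{i(α + t)}`, away
from the direction of `p` to `- s p / P` (the distance to `p` increases since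
`‖s e^{iγ} - P e^{iβ}‖² = s² + P² - 2 s P cos (γ - β)`), then along the segment to `0` (distance to `p` at least `P > η`). -/
theorem c5_conn {p : ℂ} {η : ℝ} (hη : 0 < η) (hp : η < ‖p‖) (hp1 : ‖p‖ ≤ 1) :
    IsPreconnected (ball (0 : ℂ) 1 \ closedBall p η) := by
  have hP : 0 < ‖p‖ := hη.trans hp
  set P : ℝ := ‖p‖ with hPdef
  have hPc : (P : ℂ) ≠ 0 := Complex.ofReal_ne_zero.2 hP.ne'
  set e : ℂ := p / P with he
  have hen : ‖e‖ = 1 := by
    rw [he, norm_div, Complex.norm_real, Real.norm_eq_abs, abs_of_pos hP, ← hPdef, div_self hP.ne']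
  have hpe : p = (P : ℂ) * e := by
    rw [he]
    field_simp
  have he0 : e ≠ 0 := by
    rw [← norm_pos_iff, hen]
    exact one_pos
  have hmem : ∀ z : ℂ, z ∈ ball (0 : ℂ) 1 \ closedBall p η ↔ ‖z‖ < 1 ∧ η < ‖z - p‖ := by
    intro z
    rw [Set.mem_sdiff, mem_ball_zero_iff, mem_closedBall, dist_eq_norm, not_le]
  have hdist : ∀ s γ : ℝ, ‖(s : ℂ) * Complex.exp (γ * Complex.I) * e - p‖ ^ 2 = s ^ 2 + P ^ 2 - 2 * s * P * Real.cos γ := by
    intro s γ
    have h1 : (s : ℂ) * Complex.exp (γ * Complex.I) * e - p = ((s : ℂ) * Complex.exp (γ * Complex.I) - P) * e := by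
      rw [hpe]
      ring
    rw [h1, norm_mul, hen, mul_one, c5_sq]
  have hnorm : ∀ s γ : ℝ, 0 ≤ s → ‖(s : ℂ) * Complex.exp (γ * Complex.I) * e‖ = s := by
    intro s γ hs
    rw [norm_mul, norm_mul, hen, Complex.norm_exp_ofReal_mul_I, Complex.norm_real, Real.norm_eq_abs, abs_of_nonneg hs, mul_one,
      mul_one]
  refine isPreconnected_of_forall 0 ?_
  intro y hy
  rw [hmem] at hy
  set s : ℝ := ‖y‖ with hs
  have hs0 : 0 ≤ s := norm_nonneg y
  set α : ℝ := Complex.arg (y / e) with hα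
  have hyα : y = (s : ℂ) * Complex.exp (α * Complex.I) * e := by
    have h1 := Complex.norm_mul_exp_arg_mul_I (y / e)
    rw [norm_div, hen, div_one] at h1
    rw [h1]
    field_simp
  have hα1 := Complex.neg_pi_lt_arg (y / e)
  have hα2 := Complex.arg_le_pi (y / e)
  rw [← hα] at hα1 hα2
  -- the segment
  have hseg : ∀ u : ℝ, u ∈ Icc 0 s → (u : ℂ) * Complex.exp (Real.pi * Complex.I) * e ∈ ball (0 : ℂ) 1 \ closedBall p η := by
    intro u hu
    rw [hmem]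
    refine ⟨by rw [hnorm u _ hu.1]; exact hu.2.trans_lt hy.1, ?_⟩
    apply lt_of_pow_lt_pow_left₀ 2 (norm_nonneg _)
    rw [hdist, Real.cos_pi]
    nlinarith [hu.1]
  have hcS : Continuous (fun u : ℝ => (u : ℂ) * Complex.exp (Real.pi * Complex.I) * e) := by fun_prop
  have hcA : Continuous (fun γ : ℝ => (s : ℂ) * Complex.exp (γ * Complex.I) * e) := by fun_prop
  have hS : IsPreconnected ((fun u : ℝ => (u : ℂ) * Complex.exp (Real.pi * Complex.I) * e) '' Icc 0 s) :=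
    isPreconnected_Icc.image _ hcS.continuousOn
  have h0S : (0 : ℂ) ∈ (fun u : ℝ => (u : ℂ) * Complex.exp (Real.pi * Complex.I) * e) '' Icc 0 s :=
    ⟨0, ⟨le_rfl, hs0⟩, by simp⟩
  have hsS : (s : ℂ) * Complex.exp (Real.pi * Complex.I) * e ∈
      (fun u : ℝ => (u : ℂ) * Complex.exp (Real.pi * Complex.I) * e) '' Icc 0 s := ⟨s, ⟨hs0, le_rfl⟩, rfl⟩
  have harc : ∀ γ : ℝ, Real.cos γ ≤ Real.cos α → (s : ℂ) * Complex.exp (γ * Complex.I) * e ∈ ball (0 : ℂ) 1 \ closedBall p η := by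
    intro γ hγ
    rw [hmem]
    refine ⟨by rw [hnorm s _ hs0]; exact hy.1, ?_⟩
    apply lt_of_pow_lt_pow_left₀ 2 (norm_nonneg _)
    have h1 : η ^ 2 < ‖y - p‖ ^ 2 := pow_lt_pow_left₀ hy.2 hη.le two_ne_zero
    rw [hyα, hdist] at h1
    rw [hdist]
    have h2 : s * P * Real.cos γ ≤ s * P * Real.cos α := by
      apply mul_le_mul_of_nonneg_left hγ
      positivity
    linarith
  rcases le_total 0 α with h | h
  · refine ⟨(fun γ : ℝ => (s : ℂ) * Complex.exp (γ * Complex.I) * e) '' Icc α Real.pi ∪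
      (fun u : ℝ => (u : ℂ) * Complex.exp (Real.pi * Complex.I) * e) '' Icc 0 s, ?_, Or.inr h0S, Or.inl ?_, ?_⟩
    · rintro z (⟨γ, hγ, rfl⟩ | ⟨u, hu, rfl⟩)
      · exact harc γ (Real.cos_le_cos_of_nonneg_of_le_pi h hγ.2 hγ.1)
      · exact hseg u hu
    · exact ⟨α, ⟨le_rfl, hα2⟩, hyα.symm⟩
    · exact (isPreconnected_Icc.image _ hcA.continuousOn).union _ ⟨Real.pi, ⟨hα2, le_rfl⟩, rfl⟩ hsS hS
  · refine ⟨(fun γ : ℝ => (s : ℂ) * Complex.exp (γ * Complex.I) * e) '' Icc (-Real.pi) α ∪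
      (fun u : ℝ => (u : ℂ) * Complex.exp (Real.pi * Complex.I) * e) '' Icc 0 s, ?_, Or.inr h0S, Or.inl ?_, ?_⟩
    · rintro z (⟨γ, hγ, rfl⟩ | ⟨u, hu, rfl⟩)
      · apply harc γ
        rw [← Real.cos_neg γ, ← Real.cos_neg α]
        exact Real.cos_le_cos_of_nonneg_of_le_pi (by linarith) (by linarith [hγ.1]) (by linarith [hγ.2])
      · exact hseg u hu
    · exact ⟨α, ⟨hα1.le, le_rfl⟩, hyα.symm⟩
    · have h3 : (s : ℂ) * Complex.exp (Real.pi * Complex.I) * e ∈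
          (fun γ : ℝ => (s : ℂ) * Complex.exp (γ * Complex.I) * e) '' Icc (-Real.pi) α := by
        refine ⟨-Real.pi, ⟨le_rfl, hα1.le⟩, ?_⟩
        show (s : ℂ) * Complex.exp ((-Real.pi : ℝ) * Complex.I) * e = _
        rw [Complex.exp_pi_mul_I]
        push_cast
        rw [neg_mul, Complex.exp_neg, Complex.exp_pi_mul_I]
        norm_num
      exact (isPreconnected_Icc.image _ hcA.continuousOn).union _ h3 hsS hS

theorem c5_cos {ρ θ : ℝ} (hρ : 0 < ρ) : ‖-1 + (ρ : ℂ) * Complex.exp (θ * Complex.I)‖ < 1 ↔ ρ / 2 < Real.cos θ := by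
  have h1 := c5_sq ρ 1 θ
  have h2 : -1 + (ρ : ℂ) * Complex.exp (θ * Complex.I) = (ρ : ℂ) * Complex.exp (θ * Complex.I) - (1 : ℝ) := by
    push_cast
    ring
  rw [h2]
  have h3 : ‖(ρ : ℂ) * Complex.exp (θ * Complex.I) - (1 : ℝ)‖ < 1 ↔ ‖(ρ : ℂ) * Complex.exp (θ * Complex.I) - (1 : ℝ)‖ ^ 2 < 1 := by
    rw [sq_lt_one_iff₀ (norm_nonneg _)]
  rw [h3, h1]
  constructor
  · intro h
    by_contra hc
    push Not at hc
    nlinarith
  · intro h
    nlinarith

/-- Diameter of the image of the circular crosscut around `-1`.  PROOF.  `arc (ball 0 1) (-1) ρ` is the interval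
`{θ | cos θ > ρ / 2}` around `0` in `Ioo (-π) π` (`‖-1 + ρ e^{iθ}‖² = 1 - 2 ρ cos θ + ρ²`), so it contains the segment
between any two of its points, and `g b - g a = ∫ of the derivative of θ ↦ g (-1 + ρ e^{iθ})`
(`intervalIntegral.integral_eq_sub_of_hasDerivAt`); take norms and compare with the `lintegral`. -/
theorem c5_len {g : ℂ → ℂ} (hd : DifferentiableOn ℂ g (ball 0 1)) {ρ L : ℝ} (hρ : 0 < ρ)
    (hρ1 : ρ < 1) (hL : 0 ≤ L)
    (h : ∫⁻ θ in arc (ball 0 1) (-1) ρ,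
        ENNReal.ofReal (ρ * ‖deriv g (-1 + ρ * Complex.exp (θ * Complex.I))‖) ≤
      ENNReal.ofReal L) {v₁ v₂ : ℂ} (h₁ : v₁ ∈ ball (0 : ℂ) 1) (h₂ : v₂ ∈ ball (0 : ℂ) 1)
    (hv₁ : ‖v₁ + 1‖ = ρ) (hv₂ : ‖v₂ + 1‖ = ρ) : dist (g v₁) (g v₂) ≤ L := by
  have hp := Real.pi_pos
  have hang : ∀ v : ℂ, v ∈ ball (0 : ℂ) 1 → ‖v + 1‖ = ρ →
      ∃ θ : ℝ, θ ∈ Ioo (-Real.pi) Real.pi ∧ ρ / 2 < Real.cos θ ∧ v = -1 + (ρ : ℂ) * Complex.exp (θ * Complex.I) := by
    intro v hv hvρ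
    have h1 := Complex.norm_mul_exp_arg_mul_I (v + 1)
    rw [hvρ] at h1
    have h2 : v = -1 + (ρ : ℂ) * Complex.exp (Complex.arg (v + 1) * Complex.I) := by
      rw [h1]
      ring
    have h3 : ρ / 2 < Real.cos (Complex.arg (v + 1)) := by
      rw [← c5_cos hρ, ← h2]
      rwa [mem_ball_zero_iff] at hv
    refine ⟨Complex.arg (v + 1), ⟨Complex.neg_pi_lt_arg _, lt_of_le_of_ne (Complex.arg_le_pi _) ?_⟩, h3, h2⟩
    intro h4
    rw [h4, Real.cos_pi] at h3
    linarith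
  obtain ⟨θ₁, hθ₁, hc₁, e₁⟩ := hang v₁ h₁ hv₁
  obtain ⟨θ₂, hθ₂, hc₂, e₂⟩ := hang v₂ h₂ hv₂
  have key : ∀ a b : ℝ, a ∈ Ioo (-Real.pi) Real.pi → b ∈ Ioo (-Real.pi) Real.pi → ρ / 2 < Real.cos a → ρ / 2 < Real.cos b →
      a ≤ b → ‖g (-1 + (ρ : ℂ) * Complex.exp (b * Complex.I)) - g (-1 + (ρ : ℂ) * Complex.exp (a * Complex.I))‖ ≤ L := by
    intro a b ha hb hca hcb hab
    have hin : ∀ θ ∈ Icc a b, θ ∈ arc (ball 0 1) (-1) ρ := by
      intro θ hθ
      refine ⟨⟨ha.1.trans_le hθ.1, hθ.2.trans_lt hb.2⟩, ?_⟩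
      rw [mem_ball_zero_iff, c5_cos hρ]
      rcases le_total 0 θ with h3 | h3
      · exact hcb.trans_le (Real.cos_le_cos_of_nonneg_of_le_pi h3 hb.2.le hθ.2)
      · rw [← Real.cos_neg θ]
        rw [← Real.cos_neg a] at hca
        exact hca.trans_le (Real.cos_le_cos_of_nonneg_of_le_pi (by linarith) (by linarith [ha.1]) (by linarith [hθ.1]))
    have hder : ∀ θ ∈ Icc a b, HasDerivAt (fun t : ℝ => g (-1 + (ρ : ℂ) * Complex.exp (t * Complex.I)))
        (deriv g (-1 + (ρ : ℂ) * Complex.exp (θ * Complex.I)) * ((ρ : ℂ) * (Complex.exp (θ * Complex.I) * Complex.I))) θ := by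
      intro θ hθ
      have h4 : HasDerivAt g (deriv g (-1 + (ρ : ℂ) * Complex.exp (θ * Complex.I))) (-1 + (ρ : ℂ) * Complex.exp (θ * Complex.I)) :=
        (hd.differentiableAt (isOpen_ball.mem_nhds (hin θ hθ).2)).hasDerivAt
      have h5 : HasDerivAt (fun t : ℝ => -1 + (ρ : ℂ) * Complex.exp (t * Complex.I))
          ((ρ : ℂ) * (Complex.exp (θ * Complex.I) * Complex.I)) θ := by
        have h6 : HasDerivAt (fun t : ℝ => (t : ℂ) * Complex.I) Complex.I θ := by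
          have := (Complex.ofRealCLM.hasDerivAt (x := θ)).mul_const Complex.I
          simpa using this
        exact (h6.cexp.const_mul (ρ : ℂ)).const_add (-1)
      exact h4.comp θ h5
    have hcont : ContinuousOn (fun θ : ℝ => deriv g (-1 + (ρ : ℂ) * Complex.exp (θ * Complex.I)) *
        ((ρ : ℂ) * (Complex.exp (θ * Complex.I) * Complex.I))) (Icc a b) := by
      apply ContinuousOn.mul
      · have h4 : ContinuousOn (deriv g) (ball 0 1) := (hd.deriv isOpen_ball).continuousOn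
        exact h4.comp (c1_arc_cont (-1) ρ).continuousOn fun θ hθ => (hin θ hθ).2
      · have h5 : Continuous (fun θ : ℝ => (ρ : ℂ) * (Complex.exp (θ * Complex.I) * Complex.I)) := by fun_prop
        exact h5.continuousOn
    have hint : IntervalIntegrable (fun θ : ℝ => deriv g (-1 + (ρ : ℂ) * Complex.exp (θ * Complex.I)) *
        ((ρ : ℂ) * (Complex.exp (θ * Complex.I) * Complex.I))) volume a b := by
      apply ContinuousOn.intervalIntegrable
      rw [uIcc_of_le hab]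
      exact hcont
    have hftc := intervalIntegral.integral_eq_sub_of_hasDerivAt (fun θ hθ => hder θ (by rwa [uIcc_of_le hab] at hθ)) hint
    have hftc' : ‖g (-1 + (ρ : ℂ) * Complex.exp (b * Complex.I)) - g (-1 + (ρ : ℂ) * Complex.exp (a * Complex.I))‖ =
        ‖∫ θ in a..b, deriv g (-1 + (ρ : ℂ) * Complex.exp (θ * Complex.I)) *
        ((ρ : ℂ) * (Complex.exp (θ * Complex.I) * Complex.I))‖ := by rw [hftc]
    rw [hftc', intervalIntegral.integral_of_le hab]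
    refine (norm_integral_le_lintegral_norm _).trans ?_
    apply ENNReal.toReal_le_of_le_ofReal hL
    refine le_trans ?_ h
    have h7 : ∀ θ : ℝ, ‖deriv g (-1 + (ρ : ℂ) * Complex.exp (θ * Complex.I)) * ((ρ : ℂ) * (Complex.exp (θ * Complex.I) * Complex.I))‖ =
        ρ * ‖deriv g (-1 + ρ * Complex.exp (θ * Complex.I))‖ := by
      intro θ
      rw [norm_mul, norm_mul, norm_mul, Complex.norm_exp_ofReal_mul_I, Complex.norm_I, Complex.norm_real, Real.norm_eq_abs,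
        abs_of_pos hρ]
      ring
    simp only [h7]
    exact lintegral_mono_set fun θ hθ => hin θ ⟨hθ.1.le, hθ.2⟩
  rw [dist_eq_norm, e₁, e₂]
  rcases le_total θ₁ θ₂ with h3 | h3
  · rw [norm_sub_rev]
    exact key θ₁ θ₂ hθ₁ hθ₂ hc₁ hc₂ h3
  · exact key θ₂ θ₁ hθ₂ hθ₁ hc₂ hc₁ h3

end H51R
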