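import Pool.Agent.Lib.H51R.C5

/-!
# H51R, chunk C6: the inverse homeomorphism of the open disc has boundary limits
-/

set_option autoImplicit false

namespace H51R

open Set Metric Topology Filter MeasureTheory Function

theorem c6_choose {M c d : ℝ} (hM : 0 ≤ M) (hc0 : 0 < c) (hd : 0 < d) :
    ∃ δ : ℝ, 0 < δ ∧ δ < 1 ∧ √δ < d ∧ √(4 * Real.pi * (M + 1) / Real.log (1 / δ)) ≤ c := by
  have hp := Real.pi_pos
  set X : ℝ := 4 * Real.pi * (M + 1) / c ^ 2 with hX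
  have hX0 : 0 < X := by positivity
  set δ : ℝ := min (min (Real.exp (-X)) ((d / 2) ^ 2)) (1 / 2) with hδ
  have h1 : δ ≤ Real.exp (-X) := (min_le_left _ _).trans (min_le_left _ _)
  have h2 : δ ≤ (d / 2) ^ 2 := (min_le_left _ _).trans (min_le_right _ _)
  have h3 : δ ≤ 1 / 2 := min_le_right _ _
  have h0 : 0 < δ := by
    rw [hδ]
    have := Real.exp_pos (-X)
    positivity
  have hL : √(4 * Real.pi * (M + 1) / Real.log (1 / δ)) ≤ c := by
    have h4 : X ≤ Real.log (1 / δ) := by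
      rw [Real.le_log_iff_exp_le (by positivity), le_div_iff₀ h0]
      calc Real.exp X * δ ≤ Real.exp X * Real.exp (-X) := by gcongr
        _ = 1 := by rw [← Real.exp_add, add_neg_cancel, Real.exp_zero]
    rw [Real.sqrt_le_left hc0.le]
    have h5 : 0 < Real.log (1 / δ) := hX0.trans_le h4
    rw [div_le_iff₀ h5]
    have h6 : c ^ 2 * X = 4 * Real.pi * (M + 1) := by
      rw [hX]
      field_simp
    nlinarith [mul_le_mul_of_nonneg_left h4 (sq_nonneg c)]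
  refine ⟨δ, h0, by linarith, ?_, hL⟩
  have h6 : √δ ≤ d / 2 := by
    rw [Real.sqrt_le_left (by positivity)]
    exact h2
  linarith

/-- Uniform continuity of the inverse of an injective continuous function on a compact set. -/
theorem c6_unif {f : ℂ → ℂ} {K : Set ℂ} (hK : IsCompact K) (hf : ContinuousOn f K) (hi : InjOn f K) {η : ℝ} (hη : 0 < η) :
    ∃ L : ℝ, 0 < L ∧ ∀ z₁ ∈ K, ∀ z₂ ∈ K, dist (f z₁) (f z₂) ≤ L → dist z₁ z₂ ≤ η := by
  set A : Set (ℂ × ℂ) := (K ×ˢ K) ∩ {q : ℂ × ℂ | η ≤ dist q.1 q.2} with hA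
  have hAc : IsCompact A := (hK.prod hK).inter_right (isClosed_le continuous_const (continuous_fst.dist continuous_snd))
  have hcont : ContinuousOn (fun q : ℂ × ℂ => dist (f q.1) (f q.2)) A := by
    have h1 : ContinuousOn (fun q : ℂ × ℂ => f q.1) A := hf.comp continuousOn_fst fun q hq => hq.1.1
    have h2 : ContinuousOn (fun q : ℂ × ℂ => f q.2) A := hf.comp continuousOn_snd fun q hq => hq.1.2
    exact fun x hx => Filter.Tendsto.dist (h1 x hx) (h2 x hx)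
  by_cases hne : A.Nonempty
  · obtain ⟨q, hq, hmin⟩ := hAc.exists_isMinOn hne hcont
    have hpos : 0 < dist (f q.1) (f q.2) := by
      rw [dist_pos]
      intro he
      have h1 := hi hq.1.1 hq.1.2 he
      have h2 : η ≤ dist q.1 q.2 := hq.2
      rw [h1, dist_self] at h2
      linarith
    refine ⟨dist (f q.1) (f q.2) / 2, by positivity, ?_⟩
    intro z₁ h₁ z₂ h₂ hle
    by_contra hcon
    push Not at hcon
    have h3 : (z₁, z₂) ∈ A := ⟨⟨h₁, h₂⟩, hcon.le⟩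
    have h4 : dist (f q.1) (f q.2) ≤ dist (f z₁) (f z₂) := hmin h3
    linarith
  · refine ⟨1, one_pos, ?_⟩
    intro z₁ h₁ z₂ h₂ _
    by_contra hcon
    push Not at hcon
    exact hne ⟨(z₁, z₂), ⟨⟨h₁, h₂⟩, hcon.le⟩⟩

/-- The case of the boundary point `-1`.  PROOF.  `Ω = f '' ball 0 1` is bounded, so
`∫⁻ v in ball 0 1, ‖φ'‖² = volume (φ '' ball 0 1) ≤ volume Ω < ∞` (`c1_area`; `φ` is injective on the ball by `r`).  Let
`G = (invFunOn f (closedBall 0 1)) ∘ φ`: the inverse of the homeomorphism `F = ψ ∘ f` of `ball 0 1`; here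
`g = invFunOn f (closedBall 0 1)` is uniformly continuous on the compact set `f '' closedBall 0 1`.  Given `ε > 0`
(`ε < 1/4`), let `η < ε / 2` and let `L > 0` be such that `dist (g w₁) (g w₂) ≤ η` if `dist w₁ w₂ ≤ L`, `w_i ∈ f '' closedBall`.
Let `δ < 1/16` be such that the bound in `c1_wolff` (`U = ball 0 1`, `w₀ = -1`) is at most `L`, and such that `‖G v‖ > 1/2` for
`v ∈ ball 0 1` with `‖v + 1‖ ≤ √δ` (`F '' closedBall 0 (1/2)` is a compact subset of the open ball); get `ρ ∈ Ioo δ √δ`.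
Let `c = {v ∈ ball 0 1 | ‖v + 1‖ = ρ}`, not empty; `v₀ ∈ c`, `p = G v₀`, `‖p‖ > 1/2 > η`; by `c5_len` and the choice of `L`,
`G '' c ⊆ closedBall p η`.  `S = ball 0 1 \ closedBall p η` is preconnected (`c5_conn`), contains `0` and `F '' S ⊆ ball 0 1`
is preconnected and disjoint from `c`; it contains `F 0 = 0`, which has `‖0 + 1‖ = 1 > ρ`, so `‖F z + 1‖ > ρ` for every
`z ∈ S`.  Hence for `v ∈ ball 0 1` with `‖v + 1‖ < ρ`: `G v ∈ closedBall p η`, so two such values have distance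
at most `2 η < ε`: Cauchy, since `ball (-1) δ` is a neighbourhood of `-1`. -/
theorem c6_limit_neg_one {f ψ φ : ℂ → ℂ} (h : RM f ψ φ) :
    ∃ y, Tendsto (fun v => invFunOn f (closedBall 0 1) (φ v)) (𝓝[ball 0 1] (-1)) (𝓝 y) := by
  have hbc : ball (0 : ℂ) 1 ⊆ closedBall 0 1 := ball_subset_closedBall
  have hne : NeBot (𝓝[ball (0 : ℂ) 1] (-1)) := by
    rw [← mem_closure_iff_nhdsWithin_neBot, closure_ball (0 : ℂ) one_ne_zero, mem_closedBall_zero_iff]
    simp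
  have hφc : ContinuousOn φ (ball 0 1) := h.φd.continuousOn
  have hFc : ContinuousOn (fun z => ψ (f z)) (ball 0 1) :=
    h.ψd.continuousOn.comp (h.fc.mono hbc) fun z hz => ⟨z, hz, rfl⟩
  have hg : ∀ z ∈ closedBall (0 : ℂ) 1, invFunOn f (closedBall 0 1) (f z) = z := h.fi.leftInvOn_invFunOn
  -- the properties of `G`
  have hG1 : ∀ v ∈ ball (0 : ℂ) 1, invFunOn f (closedBall 0 1) (φ v) ∈ ball (0 : ℂ) 1 ∧
      f (invFunOn f (closedBall 0 1) (φ v)) = φ v := by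
    intro v hv
    obtain ⟨z, hz, he⟩ := h.φm hv
    rw [← he, hg z (hbc hz)]
    exact ⟨hz, rfl⟩
  have hGF : ∀ z ∈ ball (0 : ℂ) 1, invFunOn f (closedBall 0 1) (φ (ψ (f z))) = z := by
    intro z hz
    rw [h.l _ ⟨z, hz, rfl⟩, hg z (hbc hz)]
  have hFG : ∀ v ∈ ball (0 : ℂ) 1, ψ (f (invFunOn f (closedBall 0 1) (φ v))) = v := by
    intro v hv
    rw [(hG1 v hv).2, h.r v hv]
  set G : ℂ → ℂ := fun v => invFunOn f (closedBall 0 1) (φ v) with hGdef
  have hφi : InjOn φ (ball 0 1) := by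
    intro a ha b hb hab
    rw [← h.r a ha, ← h.r b hb, hab]
  rw [← cauchy_map_iff_exists_tendsto, Metric.cauchy_iff]
  refine ⟨hne.map _, fun ε hε => ?_⟩
  obtain ⟨η, hη, hη1, hη2⟩ : ∃ η : ℝ, 0 < η ∧ 2 * η < ε ∧ η < 1 / 2 := by
    refine ⟨min (ε / 4) (1 / 4), by positivity, ?_, ?_⟩
    · have := min_le_left (ε / 4) (1 / 4)
      linarith
    · have := min_le_right (ε / 4) (1 / 4)
      linarith
  obtain ⟨L, hL, hLu⟩ := c6_unif (isCompact_closedBall (0 : ℂ) 1) h.fc h.fi hη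
  -- area
  have hK : IsCompact (f '' closedBall 0 1) := (isCompact_closedBall _ _).image_of_continuousOn h.fc
  obtain ⟨M, hM, hMa⟩ : ∃ M : ℝ, 0 ≤ M ∧ ∫⁻ z in ball (0 : ℂ) 1, ENNReal.ofReal (‖deriv φ z‖ ^ 2) ≤ ENNReal.ofReal M := by
    refine ⟨(volume (f '' closedBall 0 1)).toReal, ENNReal.toReal_nonneg, ?_⟩
    rw [c1_area isOpen_ball h.φd hφi, ENNReal.ofReal_toReal hK.measure_lt_top.ne]
    apply measure_mono
    rintro _ ⟨v, hv, rfl⟩
    exact image_mono hbc (h.φm hv)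
  -- distance
  obtain ⟨d, hd, hdK⟩ : ∃ d : ℝ, 0 < d ∧ ∀ z ∈ closedBall (0 : ℂ) (1 / 2), d ≤ ‖ψ (f z) + 1‖ := by
    have hsub : closedBall (0 : ℂ) (1 / 2) ⊆ ball 0 1 := closedBall_subset_ball (by norm_num)
    have hK2 : IsCompact ((fun z => ψ (f z)) '' closedBall 0 (1 / 2)) :=
      (isCompact_closedBall _ _).image_of_continuousOn (hFc.mono hsub)
    have hnot : (-1 : ℂ) ∉ (fun z => ψ (f z)) '' closedBall 0 (1 / 2) := by
      rintro ⟨z, hz, he⟩
      have h1 := h.ψm ⟨z, hsub hz, rfl⟩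
      have he' : ψ (f z) = -1 := he
      rw [he', mem_ball_zero_iff, norm_neg, norm_one] at h1
      exact lt_irrefl _ h1
    obtain ⟨d, hd, hdd⟩ := Metric.isOpen_iff.1 hK2.isClosed.isOpen_compl (-1) hnot
    refine ⟨d, hd, fun v hv => ?_⟩
    by_contra hcon
    push Not at hcon
    exact hdd (show ψ (f v) ∈ ball (-1) d by rwa [mem_ball, dist_eq_norm, sub_neg_eq_add]) ⟨v, hv, rfl⟩
  obtain ⟨δ, hδ, hδ1, hδd, hδL⟩ := c6_choose hM hL hd
  obtain ⟨ρ, hρ, hwolff⟩ := c1_wolff isOpen_ball h.φd hM hMa (-1) hδ hδ1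
  have hρ0 : 0 < ρ := hδ.trans hρ.1
  have hρd : ρ < d := hρ.2.trans hδd
  have hρ1 : ρ < 1 := by
    refine hρ.2.trans ?_
    rw [Real.sqrt_lt' one_pos, one_pow]
    exact hδ1
  -- the base point
  obtain ⟨v₀, hv₀, hv₀ρ⟩ : ∃ v₀ : ℂ, v₀ ∈ ball (0 : ℂ) 1 ∧ ‖v₀ + 1‖ = ρ := by
    refine ⟨((ρ - 1 : ℝ) : ℂ), ?_, ?_⟩
    · rw [mem_ball_zero_iff, Complex.norm_real, Real.norm_eq_abs, abs_of_neg (by linarith)]
      linarith
    · have h1 : ((ρ - 1 : ℝ) : ℂ) + 1 = (ρ : ℂ) := by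
        push_cast
        ring
      rw [h1, Complex.norm_real, Real.norm_eq_abs, abs_of_pos hρ0]
  have hpn : 1 / 2 < ‖G v₀‖ := by
    by_contra hcon
    push Not at hcon
    have h1 := hdK (G v₀) (by rwa [mem_closedBall_zero_iff])
    rw [hFG v₀ hv₀, hv₀ρ] at h1
    linarith
  have hp1 : ‖G v₀‖ ≤ 1 := by
    have h1 := (hG1 v₀ hv₀).1
    rw [mem_ball_zero_iff] at h1
    exact h1.le
  have hcut : ∀ v ∈ ball (0 : ℂ) 1, ‖v + 1‖ = ρ → G v ∈ closedBall (G v₀) η := by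
    intro v hv hvρ
    rw [mem_closedBall]
    apply hLu _ (hbc (hG1 v hv).1) _ (hbc (hG1 v₀ hv₀).1)
    rw [(hG1 v hv).2, (hG1 v₀ hv₀).2]
    exact (c5_len h.φd hρ0 hρ1 (Real.sqrt_nonneg _) hwolff hv hv₀ hvρ hv₀ρ).trans hδL
  have hSc := c5_conn hη (hη2.trans hpn) hp1
  have h0S : (0 : ℂ) ∈ ball (0 : ℂ) 1 \ closedBall (G v₀) η := by
    refine ⟨by simp, ?_⟩
    rw [mem_closedBall, dist_zero_left, not_le]
    exact hη2.trans hpn
  have hval : ∀ z ∈ ball (0 : ℂ) 1 \ closedBall (G v₀) η, ρ < ‖ψ (f z) + 1‖ := by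
    intro z hz
    by_contra hcon
    push Not at hcon
    have hc2 : ContinuousOn (fun z => ‖ψ (f z) + 1‖) (ball (0 : ℂ) 1 \ closedBall (G v₀) η) :=
      ((hFc.mono sdiff_subset).add continuousOn_const).norm
    have hpre := hSc.image _ hc2
    have hz0 : ψ (f 0) = 0 := h.z
    have h1 : ρ ∈ (fun z => ‖ψ (f z) + 1‖) '' (ball (0 : ℂ) 1 \ closedBall (G v₀) η) :=
      hpre.Icc_subset ⟨z, hz, rfl⟩ ⟨0, h0S, rfl⟩ ⟨hcon, by
        show ρ ≤ ‖ψ (f 0) + 1‖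
        rw [hz0, zero_add, norm_one]
        exact hρ1.le⟩
    obtain ⟨z', hz', he⟩ := h1
    have h2 := hcut (ψ (f z')) (h.ψm ⟨z', hz'.1, rfl⟩) he
    have h3 : G (ψ (f z')) = z' := hGF z' hz'.1
    rw [h3] at h2
    exact hz'.2 h2
  have hfin : ∀ v ∈ ball (0 : ℂ) 1, ‖v + 1‖ < ρ → G v ∈ closedBall (G v₀) η := by
    intro v hv hvρ
    by_contra hcon
    have h1 := hval (G v) ⟨(hG1 v hv).1, hcon⟩
    rw [hFG v hv] at h1
    exact lt_asymm h1 hvρ
  refine ⟨G '' (ball 0 1 ∩ ball (-1) ρ), ?_, ?_⟩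
  · apply image_mem_map
    rw [inter_comm]
    exact inter_mem (mem_nhdsWithin_of_mem_nhds (ball_mem_nhds _ hρ0)) self_mem_nhdsWithin
  · rintro _ ⟨a, ⟨ha1, ha2⟩, rfl⟩ _ ⟨b, ⟨hb1, hb2⟩, rfl⟩
    rw [mem_ball, dist_eq_norm, sub_neg_eq_add] at ha2 hb2
    have h1 := hfin a ha1 ha2
    have h2 := hfin b hb1 hb2
    rw [mem_closedBall] at h1 h2
    have h3 := dist_triangle_right (G a) (G b) (G v₀)
    linarith

/-- PROOF.  `u = - ζ`, `‖u‖ = 1`.  `f`, `ψ₁ w = u⁻¹ * ψ w`, `φ₁ v = φ (u * v)` satisfy `RM` too; apply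
`c6_limit_neg_one` and compose with the rotation `v ↦ u⁻¹ * v`, which maps `𝓝[ball 0 1] ζ` to `𝓝[ball 0 1] (-1)`. -/
theorem c6_limit {f ψ φ : ℂ → ℂ} (h : RM f ψ φ) {ζ : ℂ} (hζ : ζ ∈ sphere (0 : ℂ) 1) :
    ∃ y, Tendsto (fun v => invFunOn f (closedBall 0 1) (φ v)) (𝓝[ball 0 1] ζ) (𝓝 y) := by
  have hζn : ‖ζ‖ = 1 := mem_sphere_zero_iff_norm.1 hζ
  set u : ℂ := -ζ with hu
  have hun : ‖u‖ = 1 := by rw [hu, norm_neg, hζn]
  have hu0 : u ≠ 0 := by
    rw [← norm_pos_iff, hun]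
    exact one_pos
  have hmul : ∀ v ∈ ball (0 : ℂ) 1, u * v ∈ ball (0 : ℂ) 1 := by
    intro v hv
    rw [mem_ball_zero_iff] at hv ⊢
    rwa [norm_mul, hun, one_mul]
  have hmul' : ∀ v ∈ ball (0 : ℂ) 1, u⁻¹ * v ∈ ball (0 : ℂ) 1 := by
    intro v hv
    rw [mem_ball_zero_iff] at hv ⊢
    rwa [norm_mul, norm_inv, hun, inv_one, one_mul]
  have h1 : RM f (fun w => u⁻¹ * ψ w) (fun v => φ (u * v)) :=
    { fc := h.fc
      fi := h.fi
      op := h.op
      ψd := h.ψd.const_mul u⁻¹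
      φd := h.φd.comp ((differentiable_id.const_mul u).differentiableOn) hmul
      ψm := fun w hw => hmul' _ (h.ψm hw)
      φm := fun v hv => h.φm (hmul v hv)
      l := by
        intro w hw
        show φ (u * (u⁻¹ * ψ w)) = w
        rw [mul_inv_cancel_left₀ hu0, h.l w hw]
      r := by
        intro v hv
        show u⁻¹ * ψ (φ (u * v)) = v
        rw [h.r _ (hmul v hv), inv_mul_cancel_left₀ hu0]
      z := by
        show u⁻¹ * ψ (f 0) = 0
        rw [h.z, mul_zero] }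
  obtain ⟨y, hy⟩ := c6_limit_neg_one h1
  refine ⟨y, ?_⟩
  have h2 : Tendsto (fun v : ℂ => u⁻¹ * v) (𝓝[ball 0 1] ζ) (𝓝[ball 0 1] (-1)) := by
    apply tendsto_nhdsWithin_of_tendsto_nhds_of_eventually_within
    · have h3 : Continuous (fun v : ℂ => u⁻¹ * v) := by fun_prop
      have h4 : u⁻¹ * ζ = -1 := by
        have h5 : ζ = -u := by rw [hu, neg_neg]
        rw [h5, mul_neg, inv_mul_cancel₀ hu0]
      have h6 := (h3.tendsto ζ).mono_left (nhdsWithin_le_nhds (s := ball (0 : ℂ) 1))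
      rw [h4] at h6
      exact h6
    · filter_upwards [self_mem_nhdsWithin] with v hv
      exact hmul' v hv
  have h7 := hy.comp h2
  refine h7.congr fun v => ?_
  show invFunOn f (closedBall 0 1) (φ (u * (u⁻¹ * v))) = _
  rw [mul_inv_cancel_left₀ hu0]

end H51R
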