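import Pool.Agent.Lib.H51R.C4
import Pool.Agent.Lib.H51R.C6

/-!
# H51R, chunk C7: Caratheodory's theorem
-/

set_option autoImplicit false

namespace H51R

open Set Metric Topology Filter MeasureTheory Function

theorem c7_ext {F : ℂ → ℂ} (hF : ContinuousOn F (ball 0 1))
    (hl : ∀ p ∈ sphere (0 : ℂ) 1, ∃ y, Tendsto F (𝓝[ball 0 1] p) (𝓝 y)) :
    ContinuousOn (extendFrom (ball 0 1) F) (closedBall 0 1) ∧
      ∀ z ∈ ball (0 : ℂ) 1, extendFrom (ball 0 1) F z = F z := by
  constructor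
  · apply continuousOn_extendFrom
    · rw [closure_ball (0 : ℂ) one_ne_zero]
    · intro x hx
      by_cases h1 : x ∈ ball (0 : ℂ) 1
      · exact ⟨F x, hF x h1⟩
      · apply hl x
        rw [mem_closedBall_zero_iff] at hx
        rw [mem_ball_zero_iff, not_lt] at h1
        rw [mem_sphere_zero_iff_norm]
        exact le_antisymm hx h1
  · intro z hz
    exact extendFrom_eq (subset_closure hz) (hF z hz)

/-- Caratheodory's theorem.  PROOF.  `K = extendFrom (ball 0 1) (ψ ∘ f)`, `M = extendFrom (ball 0 1) (G)`,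
`G v = invFunOn f (closedBall 0 1) (φ v)`.  Both are continuous on `closedBall 0 1 = closure (ball 0 1)`
(`continuousOn_extendFrom`, `c4_limit`, `c6_limit`, and continuity on the open ball), equal to the functions on
`ball 0 1` (`extendFrom_eq` / `extendFrom_extends`), map `closedBall 0 1` to itself (closure), and are inverse to each
other on `ball 0 1`, hence on `closedBall 0 1` by continuity and density (`ContinuousOn` version: closedBall is the closure of
the ball; compare `M ∘ K` and `id`).  `K` maps the sphere to the sphere: if `‖K z‖ < 1`, `‖z‖ = 1`, then `z = M (K z) =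
G (K z) ∈ ball 0 1`, contradiction; the same for `M`.  `K 0 = ψ (f 0) = 0`. -/
theorem c7_closed {f ψ φ : ℂ → ℂ} (h : RM f ψ φ) :
    ∃ K M : ℂ → ℂ, DH K M ∧ (∀ z ∈ ball (0 : ℂ) 1, K z = ψ (f z)) := by
  have hbc : ball (0 : ℂ) 1 ⊆ closedBall 0 1 := ball_subset_closedBall
  have hcl : closure (ball (0 : ℂ) 1) = closedBall 0 1 := closure_ball (0 : ℂ) one_ne_zero
  have hφc : ContinuousOn φ (ball 0 1) := h.φd.continuousOn
  have hFc : ContinuousOn (fun z => ψ (f z)) (ball 0 1) :=
    h.ψd.continuousOn.comp (h.fc.mono hbc) fun z hz => ⟨z, hz, rfl⟩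
  have hinv : ∀ z ∈ closedBall (0 : ℂ) 1, invFunOn f (closedBall 0 1) (f z) = z := fun z hz =>
    h.fi.leftInvOn_invFunOn hz
  have hGb : ∀ v ∈ ball (0 : ℂ) 1, ∃ z ∈ ball (0 : ℂ) 1, f z = φ v ∧ invFunOn f (closedBall 0 1) (φ v) = z := by
    intro v hv
    obtain ⟨z, hz, hzv⟩ := h.φm hv
    refine ⟨z, hz, hzv, ?_⟩
    rw [← hzv]
    exact hinv z (hbc hz)
  have hGc : ContinuousOn (fun v => invFunOn f (closedBall 0 1) (φ v)) (ball 0 1) := by
    intro v hv
    rw [Metric.continuousWithinAt_iff]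
    intro η hη
    obtain ⟨L, hL, hLu⟩ := c6_unif (isCompact_closedBall (0 : ℂ) 1) h.fc h.fi (half_pos hη)
    obtain ⟨δ, hδ, hδu⟩ := Metric.continuousWithinAt_iff.1 (hφc v hv) L hL
    refine ⟨δ, hδ, ?_⟩
    intro x hx hxd
    obtain ⟨z₁, h1, h2, h3⟩ := hGb x hx
    obtain ⟨z₂, h4, h5, h6⟩ := hGb v hv
    simp only [h3, h6]
    have h7 := hLu z₁ (hbc h1) z₂ (hbc h4) (by rw [h2, h5]; exact (hδu hx hxd).le)
    linarith
  obtain ⟨hKc, hKe⟩ := c7_ext hFc (fun p hp => c4_limit h hp)
  obtain ⟨hMc, hMe⟩ := c7_ext hGc (fun p hp => c6_limit h hp)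
  set K : ℂ → ℂ := extendFrom (ball 0 1) (fun z => ψ (f z)) with hK
  set M : ℂ → ℂ := extendFrom (ball 0 1) (fun v => invFunOn f (closedBall 0 1) (φ v)) with hM
  have hKb : MapsTo K (ball 0 1) (ball 0 1) := by
    intro z hz
    rw [hKe z hz]
    exact h.ψm ⟨z, hz, rfl⟩
  have hMb : MapsTo M (ball 0 1) (ball 0 1) := by
    intro v hv
    rw [hMe v hv]
    obtain ⟨z, h1, _, h3⟩ := hGb v hv
    simp only [h3]
    exact h1
  have hKm : MapsTo K (closedBall 0 1) (closedBall 0 1) := by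
    have h1 := hKb.closure_of_continuousOn (by rw [hcl]; exact hKc)
    rwa [hcl] at h1
  have hMm : MapsTo M (closedBall 0 1) (closedBall 0 1) := by
    have h1 := hMb.closure_of_continuousOn (by rw [hcl]; exact hMc)
    rwa [hcl] at h1
  have hMK : ∀ z ∈ closedBall (0 : ℂ) 1, M (K z) = z := by
    have h1 : EqOn (M ∘ K) id (ball 0 1) := by
      intro z hz
      simp only [comp_apply, id]
      rw [hMe _ (hKb hz), hKe z hz]
      rw [h.l _ ⟨z, hz, rfl⟩]
      exact hinv z (hbc hz)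
    have h2 := h1.of_subset_closure (hMc.comp hKc hKm) continuousOn_id hbc hcl.symm.subset
    exact fun z hz => h2 hz
  have hKM : ∀ z ∈ closedBall (0 : ℂ) 1, K (M z) = z := by
    have h1 : EqOn (K ∘ M) id (ball 0 1) := by
      intro v hv
      simp only [comp_apply, id]
      rw [hKe _ (hMb hv), hMe v hv]
      obtain ⟨z, _, h2, h3⟩ := hGb v hv
      rw [h3, h2]
      exact h.r v hv
    have h2 := h1.of_subset_closure (hKc.comp hMc hMm) continuousOn_id hbc hcl.symm.subset
    exact fun z hz => h2 hz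
  refine ⟨K, M, ⟨hKc, hMc, hKm, hMm, ?_, ?_, hMK, hKM, ?_⟩, hKe⟩
  · intro z hz
    have hzc : z ∈ closedBall (0 : ℂ) 1 := sphere_subset_closedBall hz
    rw [mem_sphere_zero_iff_norm] at hz ⊢
    by_contra hne
    have h1 := hKm hzc
    rw [mem_closedBall_zero_iff] at h1
    have h2 : K z ∈ ball (0 : ℂ) 1 := by
      rw [mem_ball_zero_iff]
      exact lt_of_le_of_ne h1 hne
    have h3 := hMb h2
    rw [hMK z hzc, mem_ball_zero_iff] at h3
    linarith
  · intro z hz
    have hzc : z ∈ closedBall (0 : ℂ) 1 := sphere_subset_closedBall hz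
    rw [mem_sphere_zero_iff_norm] at hz ⊢
    by_contra hne
    have h1 := hMm hzc
    rw [mem_closedBall_zero_iff] at h1
    have h2 : M z ∈ ball (0 : ℂ) 1 := by
      rw [mem_ball_zero_iff]
      exact lt_of_le_of_ne h1 hne
    have h3 := hKb h2
    rw [hKM z hzc, mem_ball_zero_iff] at h3
    linarith
  · rw [hKe 0 (mem_ball_self one_pos)]
    exact h.z

end H51R
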