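import Mathlib

/-!
# H51R (MP_699e20_an): local conformal removability = stability under unions.  Definitions.

See PROOF.md.
-/

set_option autoImplicit false

namespace H51R

open Set Metric Topology Filter MeasureTheory
open scoped ComplexConjugate

/-- conformally removable: every self-homeomorphism of the plane holomorphic off `E` is entire -/
def Removable (E : Set ℂ) : Prop :=
  ∀ f : ℂ ≃ₜ ℂ, DifferentiableOn ℂ f Eᶜ → Differentiable ℂ f

/-- locally conformally removable -/
def LocRemovable (E : Set ℂ) : Prop :=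
  ∀ U : Set ℂ, IsOpen U → ∀ f : ℂ → ℂ, ContinuousOn f U → InjOn f U →
    DifferentiableOn ℂ f (U \ E) → DifferentiableOn ℂ f U

/-- reflection in the circle of centre `c` and radius `r` (and `c ↦ c`) -/
noncomputable def refl (c : ℂ) (r : ℝ) (z : ℂ) : ℂ := c + (r : ℂ) ^ 2 / conj (z - c)

/-- reflection in the unit circle (and `0 ↦ 0`) -/
noncomputable def inv1 (z : ℂ) : ℂ := (conj z)⁻¹

/-- The data of the Riemann map `ψ`, with inverse `φ`, of the Jordan domain `f '' ball 0 1`, where `f` is a homeomorphism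
of the closed unit disc onto its image; normalised by `ψ (f 0) = 0`. -/
structure RM (f ψ φ : ℂ → ℂ) : Prop where
  fc : ContinuousOn f (closedBall 0 1)
  fi : InjOn f (closedBall 0 1)
  op : IsOpen (f '' ball 0 1)
  ψd : DifferentiableOn ℂ ψ (f '' ball 0 1)
  φd : DifferentiableOn ℂ φ (ball 0 1)
  ψm : MapsTo ψ (f '' ball 0 1) (ball 0 1)
  φm : MapsTo φ (ball 0 1) (f '' ball 0 1)
  l : ∀ w ∈ f '' ball 0 1, φ (ψ w) = w
  r : ∀ v ∈ ball (0 : ℂ) 1, ψ (φ v) = v
  z : ψ (f 0) = 0

/-- A homeomorphism `K` of the closed unit disc with inverse `M`, fixing `0` and preserving the circle. -/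
structure DH (K M : ℂ → ℂ) : Prop where
  Kc : ContinuousOn K (closedBall 0 1)
  Mc : ContinuousOn M (closedBall 0 1)
  Km : MapsTo K (closedBall 0 1) (closedBall 0 1)
  Mm : MapsTo M (closedBall 0 1) (closedBall 0 1)
  Ks : MapsTo K (sphere 0 1) (sphere 0 1)
  Ms : MapsTo M (sphere 0 1) (sphere 0 1)
  MK : ∀ z ∈ closedBall (0 : ℂ) 1, M (K z) = z
  KM : ∀ z ∈ closedBall (0 : ℂ) 1, K (M z) = z
  K0 : K 0 = 0

theorem DH.symm {K M : ℂ → ℂ} (h : DH K M) : DH M K where
  Kc := h.Mc
  Mc := h.Kc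
  Km := h.Mm
  Mm := h.Km
  Ks := h.Ms
  Ms := h.Ks
  MK := h.KM
  KM := h.MK
  K0 := by
    have h1 := h.MK 0 (by simp)
    rwa [h.K0] at h1

/-- the double of a map of the closed unit disc -/
noncomputable def dbl (K : ℂ → ℂ) (z : ℂ) : ℂ := if ‖z‖ ≤ 1 then K z else inv1 (K (inv1 z))

end H51R
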