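import Pool.Agent.Lib.H51R.D0

/-!
# H51R, chunk D1: the double of a homeomorphism of the closed disc
-/

set_option autoImplicit false

namespace H51R

open Set Metric Topology Filter MeasureTheory
open scoped ComplexConjugate

theorem d1_inv1_inv1 (z : ℂ) : inv1 (inv1 z) = z := by
  simp [inv1]

theorem d1_norm (z : ℂ) : ‖inv1 z‖ = ‖z‖⁻¹ := by
  simp [inv1]

theorem d1_sphere {z : ℂ} (hz : ‖z‖ = 1) : inv1 z = z := by
  have h0 : z ≠ 0 := by
    rw [← norm_pos_iff, hz]
    exact one_pos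
  have hc : (starRingEnd ℂ) z ≠ 0 := (map_ne_zero _).2 h0
  have h1 : z * (starRingEnd ℂ) z = 1 := by
    rw [Complex.mul_conj, Complex.normSq_eq_norm_sq, hz]
    simp
  rw [inv1, inv_eq_of_mul_eq_one_left h1]

theorem d1_ne {K M : ℂ → ℂ} (h : DH K M) {w : ℂ} (hw : ‖w‖ ≤ 1) (h0 : w ≠ 0) : K w ≠ 0 := by
  intro he
  have h1 := h.MK w (by rw [mem_closedBall_zero_iff]; exact hw)
  rw [he, h.symm.K0] at h1
  exact h0 h1.symm

theorem d1_lt {K M : ℂ → ℂ} (h : DH K M) {w : ℂ} (hw : ‖w‖ < 1) : ‖K w‖ < 1 := by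
  have hw' : w ∈ closedBall (0 : ℂ) 1 := by
    rw [mem_closedBall_zero_iff]
    exact hw.le
  have h1 := h.Km hw'
  rw [mem_closedBall_zero_iff] at h1
  refine lt_of_le_of_ne h1 ?_
  intro he
  have h2 := h.Ms (mem_sphere_zero_iff_norm.2 he)
  rw [h.MK w hw', mem_sphere_zero_iff_norm] at h2
  linarith

theorem d1_cinv {w : ℂ} (hw : w ≠ 0) : ContinuousAt inv1 w := by
  have hc : (starRingEnd ℂ) w ≠ 0 := (map_ne_zero _).2 hw
  exact (Complex.continuous_conj.continuousAt).inv₀ hc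

/-- PROOF.  On `closedBall 0 1` it is `K`; on `{z | 1 ≤ ‖z‖}` it is `inv1 (K (inv1 z))` (on the circle `inv1 z = z` and
`inv1 (K z) = K z`), continuous since `inv1` is continuous away from `0` and `K w ≠ 0` for `w ≠ 0` (`M (K w) = w`, `M 0 = 0`
by `DH.symm`).  Two closed sets. -/
theorem d1_cont {K M : ℂ → ℂ} (h : DH K M) : Continuous (dbl K) := by
  have hs : ∀ z : ℂ, 1 ≤ ‖z‖ → dbl K z = inv1 (K (inv1 z)) := by
    intro z hz
    unfold dbl
    split_ifs with h1
    · have h2 : ‖z‖ = 1 := le_antisymm h1 hz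
      have h3 := h.Ks (mem_sphere_zero_iff_norm.2 h2)
      rw [mem_sphere_zero_iff_norm] at h3
      rw [d1_sphere h2, d1_sphere h3]
    · rfl
  have h1 : ContinuousOn (dbl K) (closedBall 0 1) := by
    refine h.Kc.congr fun z hz => ?_
    rw [mem_closedBall_zero_iff] at hz
    exact if_pos hz
  have h2 : ContinuousOn (dbl K) {z : ℂ | 1 ≤ ‖z‖} := by
    have h3 : ContinuousOn (fun z => inv1 (K (inv1 z))) {z : ℂ | 1 ≤ ‖z‖} := by
      intro z hz
      have hz0 : z ≠ 0 := by
        rw [← norm_pos_iff]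
        exact lt_of_lt_of_le one_pos hz
      have hzi : ‖inv1 z‖ ≤ 1 := by
        rw [d1_norm]
        exact inv_le_one_of_one_le₀ hz
      have hzi0 : inv1 z ≠ 0 := by
        rw [← norm_pos_iff, d1_norm]
        exact inv_pos.2 (norm_pos_iff.2 hz0)
      have h4 : ContinuousWithinAt (fun z => K (inv1 z)) {z : ℂ | 1 ≤ ‖z‖} z := by
        refine ContinuousWithinAt.comp (t := closedBall 0 1) (h.Kc _ ?_) (d1_cinv hz0).continuousWithinAt ?_
        · rw [mem_closedBall_zero_iff]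
          exact hzi
        · intro x hx
          rw [mem_closedBall_zero_iff, d1_norm]
          exact inv_le_one_of_one_le₀ hx
      exact ContinuousAt.comp_continuousWithinAt (f := fun z => K (inv1 z)) (d1_cinv (d1_ne h hzi hzi0)) h4
    exact h3.congr fun z hz => hs z hz
  have h3 : closedBall (0 : ℂ) 1 ∪ {z : ℂ | 1 ≤ ‖z‖} = univ := by
    rw [eq_univ_iff_forall]
    intro z
    rcases le_total ‖z‖ 1 with h4 | h4
    · left
      rw [mem_closedBall_zero_iff]
      exact h4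
    · right
      exact h4
  rw [← continuousOn_univ, ← h3]
  exact h1.union_of_isClosed h2 isClosed_closedBall (isClosed_le continuous_const continuous_norm)

/-- PROOF.  Cases `‖z‖ ≤ 1` and `‖z‖ > 1`; in the second case `0 < ‖K (inv1 z)‖ < 1`, so `‖dbl K z‖ > 1`, and
`inv1 (inv1 w) = w`. -/
theorem d1_inv {K M : ℂ → ℂ} (h : DH K M) (z : ℂ) : dbl M (dbl K z) = z := by
  by_cases hz : ‖z‖ ≤ 1
  · have hzc : z ∈ closedBall (0 : ℂ) 1 := by
      rw [mem_closedBall_zero_iff]
      exact hz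
    have h1 : dbl K z = K z := if_pos hz
    have h2 := h.Km hzc
    rw [mem_closedBall_zero_iff] at h2
    have h3 : dbl M (K z) = M (K z) := if_pos h2
    rw [h1, h3, h.MK z hzc]
  · have h1 : dbl K z = inv1 (K (inv1 z)) := if_neg hz
    rw [not_le] at hz
    have hz0 : z ≠ 0 := by
      rw [← norm_pos_iff]
      exact one_pos.trans hz
    have hzi : ‖inv1 z‖ < 1 := by
      rw [d1_norm]
      exact inv_lt_one_of_one_lt₀ hz
    have hzi0 : inv1 z ≠ 0 := by
      rw [← norm_pos_iff, d1_norm]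
      exact inv_pos.2 (norm_pos_iff.2 hz0)
    have h2 := d1_lt h hzi
    have h3 := d1_ne h hzi.le hzi0
    have h4 : ¬ ‖inv1 (K (inv1 z))‖ ≤ 1 := by
      rw [not_le, d1_norm]
      exact (one_lt_inv₀ (norm_pos_iff.2 h3)).2 h2
    have h5 : dbl M (inv1 (K (inv1 z))) = inv1 (M (inv1 (inv1 (K (inv1 z))))) := if_neg h4
    rw [h1, h5, d1_inv1_inv1, h.MK _ (by rw [mem_closedBall_zero_iff]; exact hzi.le), d1_inv1_inv1]

/-- the double as a homeomorphism of the plane -/
noncomputable def dblHomeo {K M : ℂ → ℂ} (h : DH K M) : ℂ ≃ₜ ℂ where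
  toFun := dbl K
  invFun := dbl M
  left_inv := d1_inv h
  right_inv := d1_inv h.symm
  continuous_toFun := d1_cont h
  continuous_invFun := d1_cont h.symm

end H51R
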