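import Pool.Agent.Lib.H51R.D0

/-!
# H51R, chunk D2: lines and circles are removable for continuous functions
-/

set_option autoImplicit false

namespace H51R

open Set Metric Topology Filter MeasureTheory
open scoped ComplexConjugate Interval

theorem d2_half {G : ℂ → ℂ} {U : Set ℂ} (hc : ContinuousOn G U)
    (hd : DifferentiableOn ℂ G (U \ {z | z.im = 0})) (hU : IsOpen U) (a b s t : ℝ)
    (h1 : [[a, b]] ×ℂ [[s, t]] ⊆ U) (h0 : (0 : ℝ) ∉ Ioo (min s t) (max s t)) :
    (∫ x : ℝ in a..b, G (x + s * Complex.I)) - (∫ x : ℝ in a..b, G (x + t * Complex.I)) +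
      Complex.I • (∫ y : ℝ in s..t, G (b + y * Complex.I)) -
      Complex.I • (∫ y : ℝ in s..t, G (a + y * Complex.I)) = 0 := by
  have h2 := Complex.integral_boundary_rect_eq_zero_of_continuousOn_of_differentiableOn G
    (⟨a, s⟩ : ℂ) (⟨b, t⟩ : ℂ) (hc.mono h1) (by
      intro z hz
      rw [Complex.mem_reProdIm] at hz
      have h3 : z ∈ U \ {z : ℂ | z.im = 0} := by
        refine ⟨h1 ?_, ?_⟩
        · rw [Complex.mem_reProdIm]
          exact ⟨⟨hz.1.1.le, hz.1.2.le⟩, ⟨hz.2.1.le, hz.2.2.le⟩⟩
        · intro h4
          apply h0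
          have h5 : z.im = 0 := h4
          rw [← h5]
          exact hz.2
      have hcl : IsClosed {z : ℂ | z.im = 0} := isClosed_eq Complex.continuous_im continuous_const
      exact ((hd z h3).differentiableAt ((hU.sdiff hcl).mem_nhds h3)).differentiableWithinAt)
  exact h2

theorem d2_int1 {G : ℂ → ℂ} {U : Set ℂ} (hc : ContinuousOn G U) (a s t : ℝ)
    (h1 : ∀ y ∈ [[s, t]], (a : ℂ) + y * Complex.I ∈ U) :
    IntervalIntegrable (fun y : ℝ => G (a + y * Complex.I)) volume s t := by
  apply ContinuousOn.intervalIntegrable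
  refine hc.comp ?_ (fun y hy => h1 y hy)
  fun_prop

theorem d2_rect {G : ℂ → ℂ} {U : Set ℂ} (hc : ContinuousOn G U)
    (hd : DifferentiableOn ℂ G (U \ {z | z.im = 0})) (hU : IsOpen U) (a b s t : ℝ)
    (h1 : [[a, b]] ×ℂ [[s, t]] ⊆ U) :
    (∫ x : ℝ in a..b, G (x + s * Complex.I)) - (∫ x : ℝ in a..b, G (x + t * Complex.I)) +
      Complex.I • (∫ y : ℝ in s..t, G (b + y * Complex.I)) -
      Complex.I • (∫ y : ℝ in s..t, G (a + y * Complex.I)) = 0 := by
  by_cases h0 : (0 : ℝ) ∈ Ioo (min s t) (max s t)
  · have h0' : (0 : ℝ) ∈ [[s, t]] := ⟨h0.1.le, h0.2.le⟩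
    have hs : [[s, 0]] ⊆ [[s, t]] := uIcc_subset_uIcc_left h0'
    have ht : [[0, t]] ⊆ [[s, t]] := uIcc_subset_uIcc_right h0'
    have h2 := d2_half hc hd hU a b s 0 (fun z hz => h1 (by
      rw [Complex.mem_reProdIm] at hz ⊢
      exact ⟨hz.1, hs hz.2⟩)) (by
        intro h3
        rcases le_total s 0 with h4 | h4
        · rw [max_eq_right h4] at h3
          exact lt_irrefl _ h3.2
        · rw [min_eq_right h4] at h3
          exact lt_irrefl _ h3.1)
    have h3 := d2_half hc hd hU a b 0 t (fun z hz => h1 (by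
      rw [Complex.mem_reProdIm] at hz ⊢
      exact ⟨hz.1, ht hz.2⟩)) (by
        intro h3
        rcases le_total 0 t with h4 | h4
        · rw [min_eq_left h4] at h3
          exact lt_irrefl _ h3.1
        · rw [max_eq_left h4] at h3
          exact lt_irrefl _ h3.2)
    have key : ∀ c ∈ [[a, b]], (∫ y : ℝ in s..0, G (c + y * Complex.I)) + (∫ y : ℝ in 0..t, G (c + y * Complex.I)) =
        ∫ y : ℝ in s..t, G (c + y * Complex.I) := by
      intro c hcc
      have hmem : ∀ y ∈ [[s, t]], (c : ℂ) + y * Complex.I ∈ U := by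
        intro y hy
        apply h1
        rw [Complex.mem_reProdIm]
        simpa using ⟨hcc, hy⟩
      apply intervalIntegral.integral_add_adjacent_intervals
      · exact d2_int1 hc c s 0 (fun y hy => hmem y (hs hy))
      · exact d2_int1 hc c 0 t (fun y hy => hmem y (ht hy))
    rw [← key a left_mem_uIcc, ← key b right_mem_uIcc]
    simp only [smul_add]
    linear_combination h2 + h3
  · exact d2_half hc hd hU a b s t h1 h0

/-- A continuous function holomorphic off the real axis is holomorphic.  PROOF.  Work in a ball `ball c r ⊆ U` and use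
Morera's theorem (`Complex.isConservativeOn_and_continuousOn_iff_isDifferentiableOn` or
`Complex.IsConservativeOn.isExactOn_ball`, file `Mathlib/Analysis/Complex/HasPrimitives.lean`).  The integral over the
boundary of a closed rectangle in the ball is `0`: if the real axis does not meet its interior, by
`Complex.integral_boundary_rect_eq_zero_of_continuousOn_of_differentiableOn`; otherwise cut the rectangle along the real
axis into two such rectangles, the two integrals over the common side cancel. -/
theorem d2_line {G : ℂ → ℂ} {U : Set ℂ} (hU : IsOpen U) (hc : ContinuousOn G U)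
    (hd : DifferentiableOn ℂ G (U \ {z | z.im = 0})) : DifferentiableOn ℂ G U := by
  intro c hcU
  obtain ⟨r, hr, hrU⟩ := Metric.isOpen_iff.1 hU c hcU
  have h1 : Complex.IsConservativeOn G (ball c r) := by
    intro z w hzw
    rw [← add_eq_zero_iff_eq_neg, Complex.wedgeIntegral_add_wedgeIntegral_eq]
    exact d2_rect hc hd hU z.re w.re z.im w.im (hzw.trans hrU)
  have h2 := h1.isExactOn_ball (hc.mono hrU)
  have h3 := h2.differentiableOn isOpen_ball
  exact ((h3 c (mem_ball_self hr)).differentiableAt (ball_mem_nhds c hr)).differentiableWithinAt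

/-- The same for the unit circle.  PROOF.  Let `z₀ ∈ U`, `‖z₀‖ = 1`, `z₀ = exp (i w₀)`, `w₀` real.  `H w = G (exp (i w))` is
continuous on the open set `V = {w | exp (i w) ∈ U}` and holomorphic off the real axis (`‖exp (i w)‖ = exp (- w.im)`), so
holomorphic on `V` by `d2_line`.  `w ↦ exp (i w)` has a holomorphic local inverse at `w₀` (`HasStrictDerivAt.to_localInverse`
or `Complex.log` of `z / z₀`: near `z₀`, `z = exp (i (w₀ - i Complex.log (z / z₀)))`), so `G z = H (w₀ - i log (z / z₀))` is
differentiable at `z₀`. -/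
theorem d2_circle {G : ℂ → ℂ} {U : Set ℂ} (hU : IsOpen U) (hc : ContinuousOn G U)
    (hd : DifferentiableOn ℂ G (U \ sphere 0 1)) : DifferentiableOn ℂ G U := by
  intro z₀ hz₀
  by_cases hn : ‖z₀‖ = 1
  · have h0 : z₀ ≠ 0 := by
      rw [← norm_pos_iff, hn]
      exact one_pos
    set E : ℂ → ℂ := fun w => z₀ * Complex.exp (Complex.I * w) with hE
    have hEd : Differentiable ℂ E := by
      intro w
      simp only [hE]
      fun_prop
    have hEc : Continuous E := hEd.continuous
    have hV : IsOpen (E ⁻¹' U) := hU.preimage hEc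
    have hEn : ∀ w : ℂ, ‖E w‖ = Real.exp (-w.im) := by
      intro w
      simp only [hE]
      rw [norm_mul, hn, one_mul, Complex.norm_exp]
      congr 1
      simp
    have h1 : DifferentiableOn ℂ (G ∘ E) (E ⁻¹' U) := by
      apply d2_line hV
      · exact hc.comp hEc.continuousOn (fun w hw => hw)
      · intro w hw
        have h2 : E w ∈ U \ sphere 0 1 := by
          refine ⟨hw.1, ?_⟩
          rw [mem_sphere_zero_iff_norm, hEn]
          intro h3
          apply hw.2
          rw [Real.exp_eq_one_iff] at h3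
          change w.im = 0
          linarith
        have h3 : DifferentiableAt ℂ G (E w) :=
          (hd (E w) h2).differentiableAt ((hU.sdiff isClosed_sphere).mem_nhds h2)
        exact (h3.comp w (hEd w)).differentiableWithinAt
    have hE0 : E 0 = z₀ := by simp [hE]
    have h2 : DifferentiableAt ℂ (G ∘ E) 0 := by
      have h3 : (0 : ℂ) ∈ E ⁻¹' U := by
        change E 0 ∈ U
        rw [hE0]
        exact hz₀
      exact (h1 0 h3).differentiableAt (hV.mem_nhds h3)
    set L : ℂ → ℂ := fun z => -Complex.I * Complex.log (z / z₀) with hL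
    have hL0 : L z₀ = 0 := by
      simp [hL, div_self h0]
    have hLd : DifferentiableAt ℂ L z₀ := by
      simp only [hL]
      refine DifferentiableAt.const_mul ?_ _
      refine DifferentiableAt.clog (by fun_prop) ?_
      rw [div_self h0]
      exact Complex.one_mem_slitPlane
    have h3 : DifferentiableAt ℂ (fun z => (G ∘ E) (L z)) z₀ := by
      have h4 : DifferentiableAt ℂ (G ∘ E) (L z₀) := by
        rw [hL0]
        exact h2
      exact h4.comp z₀ hLd
    have h4 : G =ᶠ[𝓝 z₀] fun z => (G ∘ E) (L z) := by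
      have h5 : ∀ᶠ z in 𝓝 z₀, z ≠ 0 := isOpen_ne.mem_nhds h0
      filter_upwards [h5] with z hz
      simp only [Function.comp_apply, hE, hL]
      congr 1
      have h6 : Complex.I * (-Complex.I * Complex.log (z / z₀)) = Complex.log (z / z₀) := by
        rw [← mul_assoc, mul_neg, Complex.I_mul_I, neg_neg, one_mul]
      rw [h6, Complex.exp_log (div_ne_zero hz h0)]
      field_simp
    exact (h3.congr_of_eventuallyEq h4).differentiableWithinAt
  · have h1 : z₀ ∈ U \ sphere 0 1 := ⟨hz₀, by rwa [mem_sphere_zero_iff_norm]⟩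
    exact ((hd z₀ h1).differentiableAt ((hU.sdiff isClosed_sphere).mem_nhds h1)).differentiableWithinAt

end H51R
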