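import Pool.Agent.Lib.H51R.D1
import Pool.Agent.Lib.H51R.D2

/-!
# H51R, chunk D3: the double is holomorphic off `A ∪ inv1 '' A`
-/

set_option autoImplicit false

namespace H51R

open Set Metric Topology Filter MeasureTheory
open scoped ComplexConjugate

/-- reflection of a holomorphic function -/
theorem d3_refl {F : ℂ → ℂ} {z : ℂ} (hz : z ≠ 0) (hF : DifferentiableAt ℂ F (inv1 z)) (h0 : F (inv1 z) ≠ 0) :
    DifferentiableAt ℂ (fun w => inv1 (F (inv1 w))) z := by
  have h1 : DifferentiableAt ℂ (fun w => conj (F (conj w))) z⁻¹ := by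
    have h2 : (conj z⁻¹ : ℂ) = inv1 z := by
      rw [map_inv₀]
      rfl
    have h3 : DifferentiableAt ℂ F (conj z⁻¹) := by
      rw [h2]
      exact hF
    have h4 := h3.conj_conj
    rw [Complex.conj_conj] at h4
    exact h4
  have h2 : DifferentiableAt ℂ (fun w : ℂ => conj (F (conj w⁻¹))) z :=
    DifferentiableAt.comp z (g := fun w => conj (F (conj w))) h1 (differentiableAt_inv hz)
  have h3 : (fun w => inv1 (F (inv1 w))) = fun w : ℂ => (conj (F (conj w⁻¹)))⁻¹ := by
    funext w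
    simp [inv1]
  rw [h3]
  apply h2.inv
  rw [map_inv₀]
  exact (map_ne_zero _).2 h0

/-- The Schwarz reflection principle for homeomorphisms of the disc.  PROOF.  `V = (A ∪ inv1 '' A)ᶜ` is open (`A` is compact
and `0 ∉ A`, so `inv1 '' A` is compact).  By `d2_circle` it is enough to show that `dbl K` is differentiable at every
`z ∈ V` with `‖z‖ ≠ 1`.  If `‖z‖ < 1`: near `z` it is `K`, and `z ∈ ball 0 1 \ A`.  If `‖z‖ > 1`: near `z` it is
`inv1 ∘ K ∘ inv1`, `inv1 z ∈ ball 0 1 \ A` (`inv1 (inv1 z) = z ∉ inv1 '' A`), `inv1 w = conj (w⁻¹)`, and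
`conj ∘ K ∘ conj` is holomorphic at `w` if `K` is at `conj w` (Mathlib: `DifferentiableAt.conj_conj` or
`HasDerivAt.conj_conj` / `star_star`); `K (inv1 z) ≠ 0` since `inv1 z ≠ 0`. -/
theorem d3_holo {K M : ℂ → ℂ} (h : DH K M) {A : Set ℂ} (hA : IsCompact A)
    (hA1 : A ⊆ closedBall 0 1) (hA0 : (0 : ℂ) ∉ A) (hd : DifferentiableOn ℂ K (ball 0 1 \ A)) :
    DifferentiableOn ℂ (dbl K) (A ∪ inv1 '' A)ᶜ := by
  have hAi : IsCompact (inv1 '' A) := by
    apply hA.image_of_continuousOn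
    intro z hz
    exact (d1_cinv (fun h0 => hA0 (h0 ▸ hz))).continuousWithinAt
  have hV : IsOpen (A ∪ inv1 '' A)ᶜ := (hA.isClosed.union hAi.isClosed).isOpen_compl
  apply d2_circle hV (d1_cont h).continuousOn
  rintro z ⟨hzV, hz1⟩
  rw [mem_sphere_zero_iff_norm] at hz1
  have hzA : z ∉ A := fun h1 => hzV (Or.inl h1)
  have hzA' : z ∉ inv1 '' A := fun h1 => hzV (Or.inr h1)
  apply DifferentiableAt.differentiableWithinAt
  have hopen : IsOpen (ball (0 : ℂ) 1 \ A) := isOpen_ball.sdiff hA.isClosed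
  rcases lt_or_gt_of_ne hz1 with h1 | h1
  · have h2 : z ∈ ball (0 : ℂ) 1 \ A := ⟨by rwa [mem_ball_zero_iff], hzA⟩
    have h3 : DifferentiableAt ℂ K z := (hd z h2).differentiableAt (hopen.mem_nhds h2)
    refine h3.congr_of_eventuallyEq ?_
    filter_upwards [isOpen_ball.mem_nhds h2.1] with w hw
    rw [mem_ball_zero_iff] at hw
    exact if_pos hw.le
  · have hz0 : z ≠ 0 := by
      rw [← norm_pos_iff]
      exact one_pos.trans h1
    have hzi : ‖inv1 z‖ < 1 := by
      rw [d1_norm]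
      exact inv_lt_one_of_one_lt₀ h1
    have hzi0 : inv1 z ≠ 0 := by
      rw [← norm_pos_iff, d1_norm]
      exact inv_pos.2 (norm_pos_iff.2 hz0)
    have h2 : inv1 z ∈ ball (0 : ℂ) 1 \ A := by
      refine ⟨by rwa [mem_ball_zero_iff], ?_⟩
      intro h3
      exact hzA' ⟨inv1 z, h3, d1_inv1_inv1 z⟩
    have h3 : DifferentiableAt ℂ K (inv1 z) := (hd _ h2).differentiableAt (hopen.mem_nhds h2)
    have h4 := d3_refl hz0 h3 (d1_ne h hzi.le hzi0)
    refine h4.congr_of_eventuallyEq ?_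
    have h5 : IsOpen {w : ℂ | 1 < ‖w‖} := isOpen_lt continuous_const continuous_norm
    filter_upwards [h5.mem_nhds h1] with w hw
    exact if_neg (not_le.2 hw)

end H51R
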