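import Pool.Agent.Lib.H51R.E1
import Pool.Agent.Lib.H51R.D3

/-!
# H51R, chunk E2: reflections preserve removability
-/

set_option autoImplicit false

namespace H51R

open Set Metric Topology Filter MeasureTheory
open scoped ComplexConjugate

theorem e2_contH (g : ℂ ≃ₜ ℂ) (hg : g 0 = 0) : Continuous fun z => inv1 (g (inv1 z)) := by
  rw [continuous_iff_continuousAt]
  intro z
  by_cases hz : z = 0
  · subst hz
    rw [continuousAt_iff_punctured_nhds]
    have e0 : inv1 (g (inv1 0)) = 0 := by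
      simp [inv1, hg]
    rw [e0]
    have h1 : Tendsto (fun z : ℂ => inv1 z) (𝓝[≠] 0) (Bornology.cobounded ℂ) := by
      have h2 : Tendsto (fun z : ℂ => conj z) (𝓝[≠] (0 : ℂ)) (𝓝[≠] 0) := by
        apply tendsto_nhdsWithin_of_tendsto_nhds_of_eventually_within
        · have h3 : Tendsto (fun z : ℂ => conj z) (𝓝 (0 : ℂ)) (𝓝 (conj 0)) :=
            Complex.continuous_conj.tendsto 0
          rw [map_zero] at h3
          exact h3.mono_left nhdsWithin_le_nhds
        · filter_upwards [self_mem_nhdsWithin] with w hw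
          exact (map_ne_zero _).2 hw
      exact Filter.tendsto_inv₀_nhdsNE_zero.comp h2
    have h2 : Tendsto (fun z : ℂ => g z) (Bornology.cobounded ℂ) (Bornology.cobounded ℂ) := by
      rw [Metric.cobounded_eq_cocompact]
      exact g.isClosedEmbedding.tendsto_cocompact
    have h3 : Tendsto (fun z : ℂ => inv1 z) (Bornology.cobounded ℂ) (𝓝 0) := by
      have h4 : Tendsto (fun z : ℂ => conj z⁻¹) (Bornology.cobounded ℂ) (𝓝 0) := by
        have h5 : Tendsto (fun z : ℂ => conj z) (𝓝 (0 : ℂ)) (𝓝 0) := by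
          have h3 : Tendsto (fun z : ℂ => conj z) (𝓝 (0 : ℂ)) (𝓝 (conj 0)) :=
            Complex.continuous_conj.tendsto 0
          rwa [map_zero] at h3
        exact h5.comp Filter.tendsto_inv₀_cobounded
      refine h4.congr fun z => ?_
      simp [inv1]
    exact h3.comp (h2.comp h1)
  · have h1 : ContinuousAt (fun z => g (inv1 z)) z := g.continuous.continuousAt.comp (d1_cinv hz)
    have h2 : inv1 z ≠ 0 := by
      rw [← norm_pos_iff, d1_norm]
      exact inv_pos.2 (norm_pos_iff.2 hz)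
    have h3 : g (inv1 z) ≠ 0 := fun h4 => h2 (g.injective (h4.trans hg.symm))
    exact ContinuousAt.comp (f := fun z => g (inv1 z)) (g := inv1) (d1_cinv h3) h1

/-- conjugation by the reflection -/
noncomputable def e2H (g : ℂ ≃ₜ ℂ) (hg : g 0 = 0) : ℂ ≃ₜ ℂ where
  toFun := fun z => inv1 (g (inv1 z))
  invFun := fun z => inv1 (g.symm (inv1 z))
  left_inv := fun z => by
    simp only [d1_inv1_inv1, Homeomorph.symm_apply_apply]
  right_inv := fun z => by
    simp only [d1_inv1_inv1, Homeomorph.apply_symm_apply]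
  continuous_toFun := e2_contH g hg
  continuous_invFun := e2_contH g.symm (g.injective (by rw [Homeomorph.apply_symm_apply, hg]))

theorem e2_inv1_ne {z : ℂ} (hz : z ≠ 0) : inv1 z ≠ 0 := by
  rw [← norm_pos_iff, d1_norm]
  exact inv_pos.2 (norm_pos_iff.2 hz)

theorem e2_closed {A : Set ℂ} (hA : IsCompact A) (h0 : (0 : ℂ) ∉ A) : IsCompact (inv1 '' A) := by
  apply hA.image_of_continuousOn
  intro z hz
  exact (d1_cinv (fun h => h0 (h ▸ hz))).continuousWithinAt

/-- the removable singularity at `0` -/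
theorem e2_zero {h : ℂ → ℂ} (hc : ContinuousAt h 0) (hd : ∀ᶠ z in 𝓝[≠] (0 : ℂ), DifferentiableAt ℂ h z) :
    DifferentiableAt ℂ h 0 :=
  (Complex.analyticAt_of_differentiable_on_punctured_nhds_of_continuousAt hd hc).differentiableAt

theorem e2_norm {A : Set ℂ} (hA : IsCompact A) (h0 : (0 : ℂ) ∉ A) (h : Removable A) (g : ℂ ≃ₜ ℂ)
    (hg0 : g 0 = 0) (hg : DifferentiableOn ℂ g (inv1 '' A)ᶜ) : Differentiable ℂ g := by
  have hcl : IsOpen (inv1 '' A)ᶜ := (e2_closed hA h0).isClosed.isOpen_compl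
  have h1 : ∀ z ∈ Aᶜ, z ≠ 0 → DifferentiableAt ℂ (e2H g hg0) z := by
    intro z hz hz0
    have h2 : inv1 z ∈ (inv1 '' A)ᶜ := by
      rintro ⟨w, hw, hwz⟩
      have h3 := congrArg inv1 hwz
      rw [d1_inv1_inv1, d1_inv1_inv1] at h3
      exact hz (h3 ▸ hw)
    have h3 : DifferentiableAt ℂ g (inv1 z) := (hg _ h2).differentiableAt (hcl.mem_nhds h2)
    have h4 : g (inv1 z) ≠ 0 := fun h5 => e2_inv1_ne hz0 (g.injective (h5.trans hg0.symm))
    exact d3_refl hz0 h3 h4
  have h2 : DifferentiableOn ℂ (e2H g hg0) Aᶜ := by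
    intro z hz
    apply DifferentiableAt.differentiableWithinAt
    by_cases hz0 : z = 0
    · subst hz0
      apply e2_zero (e2H g hg0).continuous.continuousAt
      have h3 : ∀ᶠ z in 𝓝 (0 : ℂ), z ∈ Aᶜ := hA.isClosed.isOpen_compl.mem_nhds hz
      filter_upwards [nhdsWithin_le_nhds h3, self_mem_nhdsWithin] with w hw hw0
      exact h1 w hw hw0
    · exact h1 z hz hz0
  have h3 := h _ h2
  have h4 : ∀ w : ℂ, w ≠ 0 → DifferentiableAt ℂ g w := by
    intro w hw
    have h5 : (⇑g : ℂ → ℂ) = fun w => inv1 (e2H g hg0 (inv1 w)) := by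
      funext w
      change g w = inv1 (inv1 (g (inv1 (inv1 w))))
      rw [d1_inv1_inv1, d1_inv1_inv1]
    rw [h5]
    apply d3_refl hw (h3 _)
    intro h6
    have h7 : e2H g hg0 0 = 0 := by
      change inv1 (g (inv1 0)) = 0
      simp [inv1, hg0]
    exact e2_inv1_ne hw ((e2H g hg0).injective (h6.trans h7.symm))
  intro w
  by_cases hw : w = 0
  · subst hw
    apply e2_zero g.continuous.continuousAt
    filter_upwards [self_mem_nhdsWithin] with w hw
    exact h4 w hw
  · exact h4 w hw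

theorem e2_refl_eq {c z : ℂ} {r : ℝ} (hr : 0 < r) :
    refl c r z = (r : ℂ) * inv1 ((r : ℂ)⁻¹ * z + -((r : ℂ)⁻¹ * c)) + c := by
  have h0 : (r : ℂ) ≠ 0 := by
    rw [Complex.ofReal_ne_zero]
    exact hr.ne'
  have h1 : (r : ℂ)⁻¹ * z + -((r : ℂ)⁻¹ * c) = (r : ℂ)⁻¹ * (z - c) := by ring
  rw [h1, refl, inv1, map_mul, map_inv₀, Complex.conj_ofReal, mul_inv, inv_inv]
  rw [div_eq_mul_inv]
  ring

/-- PROOF.  Let `g` be a homeomorphism of the plane holomorphic off `inv1 '' A`.  Put `h z = inv1 (g (inv1 z) - g 0)` for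
`z ≠ 0` and `h 0 = 0`.  `h` is a homeomorphism of the plane, with inverse `w ↦ inv1 (g⁻¹ (inv1 w + g 0))`, `0 ↦ 0`
(continuity at `0`: `inv1 z → ∞`, and homeomorphisms of the plane tend to infinity at infinity,
`Homeomorph.isProperMap` / `cocompact`).  `h` is holomorphic at `z ∉ A`, `z ≠ 0` (`inv1 z ∉ inv1 '' A`; `conj ∘ holo ∘ conj`;
`inv1 '' A` is closed, so `g` is differentiable in a neighbourhood), and at `0` by the removable
singularity theorem (`0 ∉ A`, `A` closed; `Complex.differentiableOn_compl_singleton_and_continuousAt_iff`).  So `h` is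
entire, and `g w = g 0 + inv1 (h (inv1 w))` is holomorphic at every `w ≠ 0` (`h (inv1 w) ≠ 0`), and at `0` by the
removable singularity theorem again. -/
theorem e2_inv1 {A : Set ℂ} (hA : IsCompact A) (h0 : (0 : ℂ) ∉ A) (h : Removable A) :
    Removable (inv1 '' A) := by
  intro g hg
  set g₁ : ℂ ≃ₜ ℂ := g.trans (Homeomorph.addRight (-g 0)) with hg₁
  have h1 : (⇑g₁ : ℂ → ℂ) = fun z => g z + -g 0 := rfl
  have h2 : g₁ 0 = 0 := by
    rw [h1]
    simp
  have h3 : DifferentiableOn ℂ g₁ (inv1 '' A)ᶜ := by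
    rw [h1]
    exact hg.add_const _
  have h4 := e2_norm hA h0 h g₁ h2 h3
  have h5 : (⇑g : ℂ → ℂ) = fun z => g₁ z + g 0 := by
    funext z
    rw [h1]
    ring
  rw [h5]
  exact h4.add_const _

/-- PROOF.  `refl c r z = r * inv1 ((z - c) / r) + c`; `e1_affine` twice and `e2_inv1`. -/
theorem e2_refl {A : Set ℂ} (hA : IsCompact A) {c : ℂ} {r : ℝ} (hr : 0 < r) (hc : c ∉ A)
    (h : Removable A) : Removable (refl c r '' A) := by
  have h0 : (r : ℂ) ≠ 0 := by
    rw [Complex.ofReal_ne_zero]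
    exact hr.ne'
  set A' : Set ℂ := (fun z => (r : ℂ)⁻¹ * z + -((r : ℂ)⁻¹ * c)) '' A with hA'
  have h1 : IsCompact A' := hA.image (by fun_prop)
  have h2 : (0 : ℂ) ∉ A' := by
    rintro ⟨z, hz, hz0⟩
    have h3 : (r : ℂ)⁻¹ * z + -((r : ℂ)⁻¹ * c) = 0 := hz0
    have h4 : (r : ℂ)⁻¹ * (z - c) = 0 := by
      rw [← h3]
      ring
    rw [mul_eq_zero] at h4
    rcases h4 with h4 | h4
    · exact inv_ne_zero h0 h4
    · exact hc (sub_eq_zero.1 h4 ▸ hz)
  have h3 : Removable A' := e1_affine h (inv_ne_zero h0) _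
  have h4 := e1_affine (e2_inv1 h1 h2 h3) h0 c
  have h5 : refl c r '' A = (fun z => (r : ℂ) * z + c) '' (inv1 '' A') := by
    rw [hA', image_image, image_image]
    apply image_congr
    intro z _
    exact e2_refl_eq hr
  rw [h5]
  exact h4

/-- PROOF.  `refl c r` is continuous on the compact set `A` (`c ∉ A`). -/
theorem e2_compact {A : Set ℂ} (hA : IsCompact A) {c : ℂ} {r : ℝ} (hc : c ∉ A) :
    IsCompact (refl c r '' A) := by
  apply hA.image_of_continuousOn
  unfold refl
  refine continuousOn_const.add (continuousOn_const.div ?_ ?_)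
  · exact (Complex.continuous_conj.comp (continuous_id.sub continuous_const)).continuousOn
  · intro z hz h0
    rw [map_eq_zero, sub_eq_zero] at h0
    exact hc (h0 ▸ hz)

end H51R
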