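import Pool.Agent.Lib.H51R.B6
import Pool.Agent.Lib.H51R.C7
import Pool.Agent.Lib.H51R.D3
import Pool.Agent.Lib.H51R.E2

/-!
# H51R, chunk F1: the reflection theorem
-/

set_option autoImplicit false

namespace H51R

open Set Metric Topology Filter MeasureTheory
open scoped ComplexConjugate

/-- Unit disc version.  PROOF.  `b6_rm` gives `ψ, φ` with `RM f ψ φ`, `c7_closed` gives `K, M` with `DH K M` and `K = ψ ∘ f` on
`ball 0 1`; `K` is differentiable on `ball 0 1 \ A` (`f` is differentiable there, with values in the open set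
`f '' ball 0 1` where `ψ` is).  By `d3_holo` the homeomorphism `dblHomeo` is holomorphic off `A ∪ inv1 '' A`, so entire;
so `ψ ∘ f` is differentiable on `ball 0 1` and `f = φ ∘ (ψ ∘ f)` too. -/
theorem f1_unit {f : ℂ → ℂ} (hc : ContinuousOn f (closedBall 0 1))
    (hi : InjOn f (closedBall 0 1)) {A : Set ℂ} (hA : IsCompact A) (hA1 : A ⊆ closedBall 0 1)
    (hA0 : (0 : ℂ) ∉ A) (hd : DifferentiableOn ℂ f (ball 0 1 \ A))
    (h : Removable (A ∪ inv1 '' A)) : DifferentiableOn ℂ f (ball 0 1) := by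
  obtain ⟨ψ, φ, hRM⟩ := b6_rm hc hi
  obtain ⟨K, M, hDH, hK⟩ := c7_closed hRM
  have h1 : DifferentiableOn ℂ K (ball 0 1 \ A) := by
    refine DifferentiableOn.congr (f := fun z => ψ (f z)) ?_ (fun z hz => hK z hz.1)
    exact hRM.ψd.comp hd (fun z hz => ⟨z, hz.1, rfl⟩)
  have h2 := d3_holo hDH hA hA1 hA0 h1
  have h3 : Differentiable ℂ (dbl K) := h (dblHomeo hDH) h2
  have h5 : DifferentiableOn ℂ (fun z => ψ (f z)) (ball 0 1) := by
    refine h3.differentiableOn.congr fun z hz => ?_
    rw [← hK z hz]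
    rw [mem_ball_zero_iff] at hz
    exact (if_pos hz.le).symm
  have h6 : DifferentiableOn ℂ (fun z => φ (ψ (f z))) (ball 0 1) :=
    hRM.φd.comp h5 (fun z hz => hRM.ψm ⟨z, hz, rfl⟩)
  exact h6.congr (fun z hz => (hRM.l _ ⟨z, hz, rfl⟩).symm)

/-- The reflection theorem.  PROOF.  `f₁ w = f (c + r w)` and `A = (fun z => (z - c) / r) '' (E ∩ closedBall c r)`; the set
`A ∪ inv1 '' A` is the image of `E ∩ closedBall c r ∪ refl c r '' (E ∩ closedBall c r)` under `z ↦ r⁻¹ z - r⁻¹ c`
(`e1_affine`); apply `f1_unit`. -/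
theorem f1_disc {E : Set ℂ} (hE : IsClosed E) {f : ℂ → ℂ} {c : ℂ} {r : ℝ} (hr : 0 < r)
    (hcE : c ∉ E) (hc : ContinuousOn f (closedBall c r)) (hi : InjOn f (closedBall c r))
    (hd : DifferentiableOn ℂ f (ball c r \ E))
    (h : Removable (E ∩ closedBall c r ∪ refl c r '' (E ∩ closedBall c r))) :
    DifferentiableOn ℂ f (ball c r) := by
  have h0 : (r : ℂ) ≠ 0 := by
    rw [Complex.ofReal_ne_zero]
    exact hr.ne'
  have hnr : ‖(r : ℂ)‖ = r := by
    rw [Complex.norm_real, Real.norm_eq_abs, abs_of_pos hr]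
  set S : Set ℂ := E ∩ closedBall c r with hS
  set T : ℂ → ℂ := fun z => (r : ℂ)⁻¹ * z + -((r : ℂ)⁻¹ * c) with hT
  set V : ℂ → ℂ := fun w => c + (r : ℂ) * w with hV
  have hTV : ∀ w, T (V w) = w := by
    intro w
    simp only [hT, hV]
    field_simp
    ring
  have hVT : ∀ z, V (T z) = z := by
    intro z
    simp only [hT, hV]
    field_simp
    ring
  have hVn : ∀ w, ‖V w - c‖ = r * ‖w‖ := by
    intro w
    simp only [hV]
    rw [add_sub_cancel_left, norm_mul, hnr]
  have hTn : ∀ z, ‖z - c‖ = r * ‖T z‖ := by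
    intro z
    rw [← hVn, hVT]
  have hVc : ∀ w ∈ closedBall (0 : ℂ) 1, V w ∈ closedBall c r := by
    intro w hw
    rw [mem_closedBall_zero_iff] at hw
    rw [mem_closedBall, dist_eq_norm, hVn]
    nlinarith
  have hVo : ∀ w ∈ ball (0 : ℂ) 1, V w ∈ ball c r := by
    intro w hw
    rw [mem_ball_zero_iff] at hw
    rw [mem_ball, dist_eq_norm, hVn]
    nlinarith
  have hVcont : Continuous V := by
    simp only [hV]
    fun_prop
  have hVd : Differentiable ℂ V := by
    simp only [hV]
    fun_prop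
  have hTd : Differentiable ℂ T := by
    simp only [hT]
    fun_prop
  have key := f1_unit (f := fun w => f (V w)) (A := T '' S)
    (hc.comp hVcont.continuousOn hVc)
    (by
      intro w₁ h₁ w₂ h₂ he
      have h3 := hi (hVc w₁ h₁) (hVc w₂ h₂) he
      rw [← hTV w₁, h3, hTV])
    (((isCompact_closedBall c r).inter_left hE).image hTd.continuous)
    (by
      rintro _ ⟨z, hz, rfl⟩
      have h3 := hz.2
      rw [mem_closedBall, dist_eq_norm, hTn] at h3
      rw [mem_closedBall_zero_iff]
      by_contra h4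
      rw [not_le] at h4
      nlinarith)
    (by
      rintro ⟨z, hz, hz0⟩
      have h3 := hTn z
      rw [hz0, norm_zero, mul_zero, norm_eq_zero, sub_eq_zero] at h3
      exact hcE (h3 ▸ hz.1))
    (by
      refine DifferentiableOn.comp (t := ball c r \ E) hd hVd.differentiableOn ?_
      rintro w ⟨hw, hw2⟩
      refine ⟨hVo w hw, fun h3 => hw2 ⟨V w, ⟨h3, ball_subset_closedBall (hVo w hw)⟩, hTV w⟩⟩)
    (by
      have h3 : T '' S ∪ inv1 '' (T '' S) = T '' (S ∪ refl c r '' S) := by
        rw [image_union, image_image, image_image]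
        congr 1
        apply image_congr
        intro z _
        rw [e2_refl_eq hr]
        change inv1 (T z) = T ((r : ℂ) * inv1 (T z) + c)
        have h4 : (r : ℂ) * inv1 (T z) + c = V (inv1 (T z)) := by
          simp only [hV]
          ring
        rw [h4, hTV]
      rw [h3]
      exact e1_affine h (inv_ne_zero h0) _)
  have h7 : DifferentiableOn ℂ ((fun w => f (V w)) ∘ T) (ball c r) := by
    refine key.comp hTd.differentiableOn ?_
    intro z hz
    rw [mem_ball, dist_eq_norm, hTn] at hz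
    rw [mem_ball_zero_iff]
    by_contra h4
    rw [not_lt] at h4
    nlinarith
  refine h7.congr fun z _ => ?_
  simp only [Function.comp_apply, hVT]

end H51R
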