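import Pool.Agent.Lib.H51R.F1

/-!
# H51R, chunk F2: local removability = stability under unions; the criterion
-/

set_option autoImplicit false

namespace H51R

open Set Metric Topology Filter MeasureTheory
open scoped ComplexConjugate

/-- The criterion.  PROOF.  Let `U`, `f` be as in the definition of `LocRemovable E`, and let
`N = {z ∈ U | f is not differentiable at z}` (a subset of `E`).  `U \ N` is open: `f` is holomorphic near a point of `U \ E`; at a point
`z ∈ E` where `f` is differentiable at `z` only at the point this is not clear, so put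
`N = U \ interior {z | DifferentiableAt ℂ f z}` instead: relatively closed in `U`, contained in `E`, `f` differentiable on
`U \ N`.  For `z ∈ E ∩ U`, `z ∉ Z`: choose `ε` with `closedBall z (2 ε) ⊆ U` and the disc `ball c r ∋ z`, `r < ε`; then
`closedBall c r ⊆ U` and `f1_disc` shows that `f` is differentiable on `ball c r`, so `z ∉ N`.  So `N ⊆ Z` is countable.
Finally a continuous function on the open set `U` which is differentiable off a countable set is differentiable
(Mathlib has the Cauchy theory off countable sets: `DiffContOnCl`/`Complex.differentiableOn...off_countable`; apply on small discs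
`Complex.hasFPowerSeriesOnBall_of_differentiable_off_countable`). -/
theorem f2_criterion {E : Set ℂ} (hE : IsClosed E) {Z : Set ℂ} (hZ : Z.Countable)
    (h : ∀ z ∈ E \ Z, ∀ ε > 0, ∃ (c : ℂ) (r : ℝ), 0 < r ∧ r < ε ∧ c ∉ E ∧ z ∈ ball c r ∧
      Removable (E ∩ closedBall c r ∪ refl c r '' (E ∩ closedBall c r))) :
    LocRemovable E := by
  intro U hU f hc hi hd
  have key : ∀ z ∈ U \ Z, DifferentiableAt ℂ f z := by
    rintro z ⟨hzU, hzZ⟩
    by_cases hzE : z ∈ E
    · obtain ⟨ε, hε, hεU⟩ := Metric.isOpen_iff.1 hU z hzU
      obtain ⟨c, r, hr, hrε, hcE, hzb, hrem⟩ := h z ⟨hzE, hzZ⟩ (ε / 2) (half_pos hε)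
      have hsub : closedBall c r ⊆ U := by
        intro w hw
        apply hεU
        rw [mem_closedBall] at hw
        rw [mem_ball] at hzb ⊢
        have h1 := dist_triangle w c z
        rw [dist_comm c z] at h1
        linarith
      have h1 := f1_disc hE hr hcE (hc.mono hsub) (hi.mono hsub)
        (hd.mono fun w hw => ⟨hsub (ball_subset_closedBall hw.1), hw.2⟩) hrem
      exact (h1 z hzb).differentiableAt (isOpen_ball.mem_nhds hzb)
    · have h1 : z ∈ U \ E := ⟨hzU, hzE⟩
      exact (hd z h1).differentiableAt ((hU.sdiff hE).mem_nhds h1)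
  intro z hz
  obtain ⟨ε, hε, hεU⟩ := Metric.isOpen_iff.1 hU z hz
  set R : NNReal := ⟨ε / 2, (half_pos hε).le⟩ with hR
  have hR0 : 0 < R := by
    rw [← NNReal.coe_pos]
    exact half_pos hε
  have hRv : (R : ℝ) = ε / 2 := rfl
  have hsub : closedBall z R ⊆ U := by
    intro w hw
    apply hεU
    rw [mem_closedBall, hRv] at hw
    rw [mem_ball]
    linarith
  have h1 := Complex.hasFPowerSeriesOnBall_of_differentiable_off_countable hZ (hc.mono hsub)
    (fun w hw => key w ⟨hsub (ball_subset_closedBall hw.1), hw.2⟩) hR0
  exact h1.analyticAt.differentiableAt.differentiableWithinAt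

theorem f2_near {E : Set ℂ} (h : interior E = ∅) (z : ℂ) {ε : ℝ} (hε : 0 < ε) :
    ∃ c, c ∉ E ∧ dist z c < ε := by
  by_contra hcon
  push Not at hcon
  have h1 : z ∈ interior E := by
    rw [mem_interior_iff_mem_nhds, Metric.mem_nhds_iff]
    refine ⟨ε, hε, fun w hw => ?_⟩
    by_contra hwE
    have h2 := hcon w hwE
    rw [mem_ball, dist_comm] at hw
    linarith
  rw [h] at h1
  exact h1

/-- PROOF.  `→`: `e1_union`.  `←`: `E = E ∪ ∅` is removable (`e1_empty`), so it has empty interior (`e1_interior`).  Use
`f2_criterion` with `Z = ∅`: for `z ∈ E` and `ε > 0` take `c ∉ E` with `dist z c < ε / 2`, `r = ε / 2`;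
`B = refl c r '' (E ∩ closedBall c r)` is compact and removable (`e2_refl`, `e2_compact`, `e1_mono`), so `E ∪ B` is
removable, and so is its subset `E ∩ closedBall c r ∪ B`. -/
theorem f2_stable {E : Set ℂ} (hE : IsCompact E) :
    LocRemovable E ↔ ∀ B : Set ℂ, IsCompact B → Removable B → Removable (E ∪ B) := by
  constructor
  · intro h B hB hr
    exact e1_union h hB.isClosed hr
  · intro h
    have h1 : Removable E := by
      have h2 := h ∅ isCompact_empty e1_empty
      rwa [union_empty] at h2
    have h2 := e1_interior h1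
    apply f2_criterion hE.isClosed countable_empty
    intro z hz ε hε
    obtain ⟨c, hc, hcd⟩ := f2_near h2 z (half_pos hε)
    have hcE : c ∉ E ∩ closedBall c (ε / 2) := fun h3 => hc h3.1
    have hcomp : IsCompact (E ∩ closedBall c (ε / 2)) := hE.inter_right isClosed_closedBall
    refine ⟨c, ε / 2, half_pos hε, half_lt_self hε, hc, hcd, ?_⟩
    refine e1_mono (h _ (e2_compact hcomp hcE) (e2_refl hcomp (half_pos hε) hcE
      (e1_mono h1 inter_subset_left))) ?_
    exact union_subset_union_left _ inter_subset_left

end H51R
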