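import Pool.Agent.Lib.H51R.F2

/-!
# H51R, chunk F3: the union problem
-/

set_option autoImplicit false

namespace H51R

open Set Metric Topology Filter MeasureTheory
open scoped ComplexConjugate

/-- Countable unions.  PROOF.  Let `f` be a homeomorphism of the plane holomorphic off `E = ⋃ n, A n`, and
`N = (interior {z | DifferentiableAt ℂ f z})ᶜ`: closed, contained in `E` (`E` is closed).  If `N` is empty we are done.
Otherwise `N` is a nonempty complete metric space and the union of the closed sets `N ∩ A n`, so by Baire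
(`nonempty_interior_of_iUnion_of_closed`) there are `n` and an open set `V` of the plane with `V ∩ N ≠ ∅`, `V ∩ N ⊆ A n`.
`f` is differentiable on `V \ A n ⊆ V \ N`, so on `V` by local removability of `A n`; so `V ∩ N = ∅`, contradiction. -/
theorem f3_countable {A : ℕ → Set ℂ} (hA : ∀ n, IsClosed (A n)) (h : ∀ n, LocRemovable (A n))
    (hE : IsClosed (⋃ n, A n)) : Removable (⋃ n, A n) := by
  intro f hf
  set D : Set ℂ := interior {z | DifferentiableAt ℂ f z} with hD
  have hDs : D ⊆ {z | DifferentiableAt ℂ f z} := interior_subset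
  by_cases hN : (Dᶜ).Nonempty
  · exfalso
    have hDE : (⋃ n, A n)ᶜ ⊆ D := by
      apply interior_maximal _ hE.isOpen_compl
      intro z hz
      exact (hf z hz).differentiableAt (hE.isOpen_compl.mem_nhds hz)
    have hNc : IsClosed Dᶜ := isOpen_interior.isClosed_compl
    have : CompleteSpace (Dᶜ : Set ℂ) := hNc.completeSpace_coe
    have : Nonempty (Dᶜ : Set ℂ) := hN.to_subtype
    obtain ⟨n, x, hx⟩ := nonempty_interior_of_iUnion_of_closed
      (f := fun n => (Subtype.val ⁻¹' A n : Set (Dᶜ : Set ℂ)))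
      (fun n => (hA n).preimage continuous_subtype_val) (by
        rw [eq_univ_iff_forall]
        rintro ⟨z, hz⟩
        have h1 : z ∈ ⋃ n, A n := by
          by_contra h2
          exact hz (hDE h2)
        obtain ⟨n, hn⟩ := mem_iUnion.1 h1
        exact mem_iUnion.2 ⟨n, hn⟩)
    obtain ⟨V, hV, hVx⟩ := isOpen_induced_iff.1 (isOpen_interior (s := (Subtype.val ⁻¹' A n : Set (Dᶜ : Set ℂ))))
    have hVA : ∀ z ∈ V, z ∈ Dᶜ → z ∈ A n := by
      intro z hz hzD
      have h1 : (⟨z, hzD⟩ : (Dᶜ : Set ℂ)) ∈ interior (Subtype.val ⁻¹' A n : Set (Dᶜ : Set ℂ)) := by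
        rw [← hVx]
        exact hz
      have h2 : (⟨z, hzD⟩ : (Dᶜ : Set ℂ)) ∈ (Subtype.val ⁻¹' A n : Set (Dᶜ : Set ℂ)) := interior_subset h1
      exact h2
    have hxV : (x : ℂ) ∈ V := by
      have h1 : x ∈ (Subtype.val ⁻¹' V : Set (Dᶜ : Set ℂ)) := by
        rw [hVx]
        exact hx
      exact h1
    have h1 : DifferentiableOn ℂ f V := by
      apply h n V hV f f.continuous.continuousOn f.injective.injOn
      rintro z ⟨hz, hzA⟩
      have h2 : z ∈ D := by
        by_contra h3
        exact hzA (hVA z hz h3)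
      exact (hDs h2).differentiableWithinAt
    have h2 : V ⊆ D := by
      apply interior_maximal _ hV
      intro z hz
      exact (h1 z hz).differentiableAt (hV.mem_nhds hz)
    exact x.2 (h2 hxV)
  · rw [not_nonempty_iff_eq_empty, compl_empty_iff] at hN
    intro z
    exact hDs (hN ▸ mem_univ z)

/-- The equivalence inside every class.  PROOF.  (1) → (3): `f3_countable`.  (3) → (2): the sequence `A, B, B, ...`.
(2) → (1): let `E ∈ 𝒞` be removable; `interior E = ∅` (`e1_interior`); use `f2_criterion` with `Z = ∅` as in `f2_stable`: for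
`c ∉ E` close to `z` and `r = ε / 2`, `E ∩ closedBall c r ∈ 𝒞` and `refl c r '' (E ∩ closedBall c r) ∈ 𝒞` are removable
(`e1_mono`, `e2_refl`), so their union is removable by (2). -/
theorem f3_tfae {𝒞 : Set (Set ℂ)} (hc : ∀ E ∈ 𝒞, IsCompact E)
    (hm : ∀ E ∈ 𝒞, ∀ F ⊆ E, IsCompact F → F ∈ 𝒞)
    (hr : ∀ E ∈ 𝒞, ∀ (c : ℂ) (r : ℝ), 0 < r → c ∉ E → refl c r '' E ∈ 𝒞) :
    List.TFAE [
      ∀ E ∈ 𝒞, Removable E → LocRemovable E,
      ∀ A ∈ 𝒞, ∀ B ∈ 𝒞, Removable A → Removable B → Removable (A ∪ B),
      ∀ A : ℕ → Set ℂ, (∀ n, A n ∈ 𝒞) → (∀ n, Removable (A n)) → IsCompact (⋃ n, A n) →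
        Removable (⋃ n, A n)] := by
  tfae_have 1 → 3 := by
    intro h A hA hr hcomp
    exact f3_countable (fun n => (hc _ (hA n)).isClosed) (fun n => h _ (hA n) (hr n)) hcomp.isClosed
  tfae_have 3 → 2 := by
    intro h A hA B hB hrA hrB
    have h1 := h (fun n => if n = 0 then A else B) (by
      intro n
      by_cases hn : n = 0
      · simpa [hn] using hA
      · simpa [hn] using hB) (by
      intro n
      by_cases hn : n = 0
      · simpa [hn] using hrA
      · simpa [hn] using hrB)
    have h2 : (⋃ n : ℕ, if n = 0 then A else B) = A ∪ B := by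
      ext z
      rw [mem_iUnion]
      constructor
      · rintro ⟨n, hn⟩
        split_ifs at hn with h3
        · exact Or.inl hn
        · exact Or.inr hn
      · rintro (h3 | h3)
        · exact ⟨0, by simpa using h3⟩
        · exact ⟨1, by simpa using h3⟩
    rw [h2] at h1
    exact h1 ((hc A hA).union (hc B hB))
  tfae_have 2 → 1 := by
    intro h E hE hrE
    have hEc := hc E hE
    have h2 := e1_interior hrE
    apply f2_criterion hEc.isClosed countable_empty
    intro z hz ε hε
    obtain ⟨c, hcE', hcd⟩ := f2_near h2 z (half_pos hε)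
    have hcE : c ∉ E ∩ closedBall c (ε / 2) := fun h3 => hcE' h3.1
    have hcomp : IsCompact (E ∩ closedBall c (ε / 2)) := hEc.inter_right isClosed_closedBall
    have hmem : E ∩ closedBall c (ε / 2) ∈ 𝒞 := hm E hE _ inter_subset_left hcomp
    have hrem : Removable (E ∩ closedBall c (ε / 2)) := e1_mono hrE inter_subset_left
    refine ⟨c, ε / 2, half_pos hε, half_lt_self hε, hcE', hcd, ?_⟩
    exact h _ hmem _ (hr _ hmem c _ (half_pos hε) hcE) hrem (e2_refl hcomp (half_pos hε) hcE hrem)
  tfae_finish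

end H51R
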