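import Pool.Agent.Lib.H51R.F3

/-!
# H51R, F4: the criterion with an exceptional set covered by locally removable sets; doubles
-/

set_option autoImplicit false

namespace H51R

open Set Metric Topology Filter MeasureTheory
open scoped ComplexConjugate

/-- Baire: if the set of non-conformality is covered by countably many closed locally removable sets, it is empty. -/
theorem f4_baire {A : ℕ → Set ℂ} (hA : ∀ n, IsClosed (A n)) (h : ∀ n, LocRemovable (A n))
    {U : Set ℂ} (hU : IsOpen U) {f : ℂ → ℂ} (hc : ContinuousOn f U) (hi : InjOn f U)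
    (hN : U \ interior {z | DifferentiableAt ℂ f z} ⊆ ⋃ n, A n) : DifferentiableOn ℂ f U := by
  set D : Set ℂ := interior {z | DifferentiableAt ℂ f z} with hD
  have hDs : D ⊆ {z | DifferentiableAt ℂ f z} := interior_subset
  have hDo : IsOpen D := isOpen_interior
  intro z₀ hz₀
  by_contra hcon
  have hz₀D : z₀ ∉ D := fun h1 => hcon (hDs h1).differentiableWithinAt
  obtain ⟨r, hr, hrU⟩ := Metric.nhds_basis_closedBall.mem_iff.1 (hU.mem_nhds hz₀)
  -- the closed set `M`
  set M : Set ℂ := closedBall z₀ r \ D with hM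
  have hMc : IsClosed M := isClosed_closedBall.sdiff hDo
  have hz₀M : z₀ ∈ M := ⟨mem_closedBall_self hr.le, hz₀D⟩
  -- work with the closure of the part in the open ball
  set L : Set ℂ := closure (ball z₀ r \ D) with hL
  have hLM : L ⊆ M := by
    apply closure_minimal _ hMc
    rintro z ⟨h1, h2⟩
    exact ⟨ball_subset_closedBall h1, h2⟩
  have hLc : IsClosed L := isClosed_closure
  have : CompleteSpace L := hLc.completeSpace_coe
  have : Nonempty L := ⟨⟨z₀, subset_closure ⟨mem_ball_self hr, hz₀D⟩⟩⟩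
  obtain ⟨n, x, hx⟩ := nonempty_interior_of_iUnion_of_closed
    (f := fun n => (Subtype.val ⁻¹' A n : Set L))
    (fun n => (hA n).preimage continuous_subtype_val) (by
      rw [eq_univ_iff_forall]
      rintro ⟨z, hz⟩
      have h1 := hLM hz
      obtain ⟨n, hn⟩ := mem_iUnion.1 (hN ⟨hrU h1.1, h1.2⟩)
      exact mem_iUnion.2 ⟨n, hn⟩)
  obtain ⟨V, hV, hVx⟩ := isOpen_induced_iff.1 (isOpen_interior (s := (Subtype.val ⁻¹' A n : Set L)))
  have hVA : ∀ z ∈ V, z ∈ L → z ∈ A n := by
    intro z hz hzL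
    have h1 : (⟨z, hzL⟩ : L) ∈ interior (Subtype.val ⁻¹' A n : Set L) := by
      rw [← hVx]
      exact hz
    have h2 : (⟨z, hzL⟩ : L) ∈ (Subtype.val ⁻¹' A n : Set L) := interior_subset h1
    exact h2
  have hxV : (x : ℂ) ∈ V := by
    have h1 : x ∈ (Subtype.val ⁻¹' V : Set L) := by
      rw [hVx]
      exact hx
    exact h1
  -- a point of `ball z₀ r \ D` in `V`
  obtain ⟨y, hyV, hyb, hyD⟩ : ∃ y ∈ V, y ∈ ball z₀ r ∧ y ∉ D := by
    obtain ⟨y, hy1, hy2⟩ := mem_closure_iff.1 x.2 V hV hxV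
    exact ⟨y, hy1, hy2.1, hy2.2⟩
  have hW : IsOpen (V ∩ ball z₀ r) := hV.inter isOpen_ball
  have hWU : V ∩ ball z₀ r ⊆ U := fun z hz => hrU (ball_subset_closedBall hz.2)
  have h1 : DifferentiableOn ℂ f (V ∩ ball z₀ r) := by
    apply h n _ hW f (hc.mono hWU) (hi.mono hWU)
    rintro z ⟨hz, hzA⟩
    have h2 : z ∈ D := by
      by_contra h3
      exact hzA (hVA z hz.1 (subset_closure ⟨hz.2, h3⟩))
    exact (hDs h2).differentiableWithinAt
  have h2 : V ∩ ball z₀ r ⊆ D := by
    apply interior_maximal _ hW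
    intro z hz
    exact (h1 z hz).differentiableAt (hW.mem_nhds hz)
  exact hyD (h2 ⟨hyV, hyb⟩)

/-- The criterion with conformal discs and an exceptional set covered by closed locally removable sets. -/
theorem f4_criterion {E : Set ℂ} (hE : IsClosed E) {A : ℕ → Set ℂ} (hA : ∀ n, IsClosed (A n))
    (hl : ∀ n, LocRemovable (A n))
    (h : ∀ z ∈ E \ ⋃ n, A n, ∀ ε > 0, ∃ g : ℂ → ℂ, ContinuousOn g (closedBall 0 1) ∧
      InjOn g (closedBall 0 1) ∧ DifferentiableOn ℂ g (ball 0 1) ∧ g 0 ∉ E ∧ z ∈ g '' ball 0 1 ∧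
      g '' closedBall 0 1 ⊆ ball z ε ∧
      Removable (closedBall 0 1 ∩ g ⁻¹' E ∪ inv1 '' (closedBall 0 1 ∩ g ⁻¹' E))) :
    LocRemovable E := by
  intro U hU f hc hi hd
  apply f4_baire hA hl hU hc hi
  rintro z ⟨hzU, hzD⟩
  by_contra hzA
  apply hzD
  rw [mem_interior_iff_mem_nhds]
  by_cases hzE : z ∈ E
  · obtain ⟨ε, hε, hεU⟩ := Metric.isOpen_iff.1 hU z hzU
    obtain ⟨g, gc, gi, gd, g0, hzg, gε, hrem⟩ := h z ⟨hzE, hzA⟩ ε hε
    have gU : MapsTo g (closedBall 0 1) U := fun w hw => hεU (gε ⟨w, hw, rfl⟩)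
    have hS : IsCompact (closedBall (0 : ℂ) 1 ∩ g ⁻¹' E) := by
      have h1 : IsClosed (closedBall (0 : ℂ) 1 ∩ g ⁻¹' E) :=
        gc.preimage_isClosed_of_isClosed isClosed_closedBall hE
      exact (isCompact_closedBall (0 : ℂ) 1).of_isClosed_subset h1 inter_subset_left
    have key := f1_unit (f := fun w => f (g w)) (hc.comp gc gU)
      (fun w₁ h₁ w₂ h₂ he => gi h₁ h₂ (hi (gU h₁) (gU h₂) he)) hS inter_subset_left
      (fun h1 => g0 h1.2) (by
        intro w hw
        have hw1 : w ∈ closedBall (0 : ℂ) 1 := ball_subset_closedBall hw.1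
        have hwE : g w ∉ E := fun h1 => hw.2 ⟨hw1, h1⟩
        have h1 : DifferentiableAt ℂ f (g w) :=
          (hd (g w) ⟨gU hw1, hwE⟩).differentiableAt ((hU.sdiff hE).mem_nhds ⟨gU hw1, hwE⟩)
        have h2 : DifferentiableAt ℂ g w := (gd w hw.1).differentiableAt (isOpen_ball.mem_nhds hw.1)
        exact (h1.comp w h2).differentiableWithinAt) hrem
    obtain ⟨hgo, φ, hφ, hφg⟩ := b3_inverse isOpen_ball gd (gi.mono ball_subset_closedBall)
    have h2 : DifferentiableOn ℂ f (g '' ball 0 1) := by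
      have h3 : DifferentiableOn ℂ (fun y => f (g (φ y))) (g '' ball 0 1) := by
        refine key.comp hφ ?_
        rintro _ ⟨w, hw, rfl⟩
        rw [hφg w hw]
        exact hw
      refine h3.congr ?_
      rintro _ ⟨w, hw, rfl⟩
      rw [hφg w hw]
    filter_upwards [hgo.mem_nhds hzg] with y hy
    exact (h2 y hy).differentiableAt (hgo.mem_nhds hy)
  · filter_upwards [(hU.sdiff hE).mem_nhds ⟨hzU, hzE⟩] with y hy
    exact (hd y hy).differentiableAt ((hU.sdiff hE).mem_nhds hy)

/-- Three forms of local removability. -/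
theorem f4_tfae {E : Set ℂ} (hE : IsCompact E) :
    List.TFAE [
      LocRemovable E,
      ∀ B : Set ℂ, IsCompact B → Removable B → Removable (E ∪ B),
      ∀ (c : ℂ) (r : ℝ), 0 < r → c ∉ E →
        Removable (E ∩ closedBall c r ∪ refl c r '' (E ∩ closedBall c r))] := by
  tfae_have 1 ↔ 2 := f2_stable hE
  tfae_have 2 → 3 := by
    intro h c r hr hc
    have h1 : Removable E := by
      have h2 := h ∅ isCompact_empty e1_empty
      rwa [union_empty] at h2
    have hcE : c ∉ E ∩ closedBall c r := fun h3 => hc h3.1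
    have hcomp : IsCompact (E ∩ closedBall c r) := hE.inter_right isClosed_closedBall
    exact e1_mono (h _ (e2_compact hcomp hcE) (e2_refl hcomp hr hcE (e1_mono h1 inter_subset_left)))
      (union_subset_union_left _ inter_subset_left)
  tfae_have 3 → 1 := by
    intro h
    have hint : interior E = ∅ := by
      by_contra hne
      obtain ⟨z, hz⟩ := nonempty_iff_ne_empty.2 hne
      obtain ⟨c, hc⟩ : ∃ c, c ∉ E := by
        by_contra h1
        push Not at h1
        exact (noncompact_univ ℂ) (by rwa [eq_univ_of_forall h1] at hE)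
      have hr : 0 < dist z c + 1 := by positivity
      have h2 := e1_interior (h c (dist z c + 1) hr hc)
      have h3 : z ∈ interior (E ∩ closedBall c (dist z c + 1) ∪
          refl c (dist z c + 1) '' (E ∩ closedBall c (dist z c + 1))) := by
        rw [mem_interior_iff_mem_nhds] at hz ⊢
        have h4 : closedBall c (dist z c + 1) ∈ 𝓝 z := by
          rw [Metric.mem_nhds_iff]
          refine ⟨1, one_pos, fun w hw => ?_⟩
          rw [mem_ball] at hw
          rw [mem_closedBall]
          have := dist_triangle w z c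
          linarith
        filter_upwards [hz, h4] with w h5 h6
        exact Or.inl ⟨h5, h6⟩
      rw [h2] at h3
      exact h3
    apply f2_criterion hE.isClosed countable_empty
    intro z hz ε hε
    obtain ⟨c, hc, hcd⟩ := f2_near hint z (half_pos hε)
    exact ⟨c, ε / 2, half_pos hε, half_lt_self hε, hc, hcd, h c _ (half_pos hε) hc⟩
  tfae_finish

/-- Arbitrarily small mirrors off a countable union of closed locally removable sets. -/
theorem f4_mirrors {E : Set ℂ} (hE : IsClosed E) (h : Removable E) {A : ℕ → Set ℂ}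
    (hA : ∀ n, IsClosed (A n)) (hl : ∀ n, LocRemovable (A n))
    (hm : ∀ z ∈ E \ ⋃ n, A n, ∀ ε > 0, ∃ (c : ℂ) (r : ℝ), 0 < r ∧ r < ε ∧ c ∉ E ∧ z ∈ ball c r ∧
      refl c r '' (E ∩ closedBall c r) ⊆ E) : LocRemovable E := by
  intro U hU f hc hi hd
  apply f4_baire hA hl hU hc hi
  rintro z ⟨hzU, hzD⟩
  by_contra hzA
  apply hzD
  rw [mem_interior_iff_mem_nhds]
  by_cases hzE : z ∈ E
  · obtain ⟨ε, hε, hεU⟩ := Metric.isOpen_iff.1 hU z hzU
    obtain ⟨c, r, hr, hrε, hcE, hzb, hmir⟩ := hm z ⟨hzE, hzA⟩ (ε / 2) (half_pos hε)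
    have hsub : closedBall c r ⊆ U := by
      intro w hw
      apply hεU
      rw [mem_closedBall] at hw
      rw [mem_ball] at hzb ⊢
      have h1 := dist_triangle w c z
      rw [dist_comm c z] at h1
      linarith
    have h1 := f1_disc hE hr hcE (hc.mono hsub) (hi.mono hsub)
      (hd.mono fun w hw => ⟨hsub (ball_subset_closedBall hw.1), hw.2⟩)
      (e1_mono h (union_subset inter_subset_left hmir))
    filter_upwards [isOpen_ball.mem_nhds hzb] with y hy
    exact (h1 y hy).differentiableAt (isOpen_ball.mem_nhds hy)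
  · filter_upwards [(hU.sdiff hE).mem_nhds ⟨hzU, hzE⟩] with y hy
    exact (hd y hy).differentiableAt ((hU.sdiff hE).mem_nhds hy)

end H51R
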