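import Pool.Agent.Lib.H51R.D0

/-!
# H51R, chunk G1: the limit set of the group generated by the reflections in finitely many circles
-/

set_option autoImplicit false

namespace H51R

open Set Metric Topology Filter MeasureTheory
open scoped ComplexConjugate

/-- `z` starts an infinite itinerary: `z = x 0`, `x k` lies in the disc number `i k` and `x (k + 1)` is its mirror image in the
circle number `i k`, and `i (k + 1) ≠ i k`. -/
def LimSet {n : ℕ} (c : Fin n → ℂ) (r : Fin n → ℝ) : Set ℂ :=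
  {z | ∃ (i : ℕ → Fin n) (x : ℕ → ℂ), x 0 = z ∧ ∀ k, i (k + 1) ≠ i k ∧
    x k ∈ closedBall (c (i k)) (r (i k)) ∧ x k ≠ c (i k) ∧
    x (k + 1) = refl (c (i k)) (r (i k)) (x k)}

/-- `|refl c r z - c| = r ^ 2 / |z - c|`. -/
theorem g1_norm {c z : ℂ} {r : ℝ} : ‖refl c r z - c‖ = r ^ 2 / ‖z - c‖ := by
  unfold refl
  rw [add_sub_cancel_left, norm_div, norm_pow, Complex.norm_real, Real.norm_eq_abs, sq_abs,
    Complex.norm_conj]

/-- `refl c r` is an involution off `c`. -/
theorem g1_invol {c z : ℂ} {r : ℝ} (hr : 0 < r) (hz : z ≠ c) : refl c r (refl c r z) = z := by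
  have h0 : (r : ℂ) ≠ 0 := by
    rw [Complex.ofReal_ne_zero]
    exact hr.ne'
  have h1 : z - c ≠ 0 := sub_ne_zero.2 hz
  unfold refl
  rw [add_sub_cancel_left, map_div₀, map_pow, Complex.conj_ofReal, Complex.conj_conj]
  field_simp
  ring

/-- PROOF.  If `c j = x 0 ∈ closedBall (c (i 0)) (r (i 0))`: `i 0 = j` contradicts `x 0 ≠ c (i 0)`, and `i 0 ≠ j` gives
`dist (c j) (c (i 0)) ≤ r (i 0) < r j + r (i 0)`. -/
theorem g1_center {n : ℕ} {c : Fin n → ℂ} {r : Fin n → ℝ} (hr : ∀ i, 0 < r i)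
    (hd : ∀ i j, i ≠ j → r i + r j ≤ dist (c i) (c j)) (j : Fin n) : c j ∉ LimSet c r := by
  rintro ⟨i, x, hx0, hx⟩
  obtain ⟨_, h1, h2, _⟩ := hx 0
  rw [hx0] at h1 h2
  have h3 : i 0 ≠ j := fun h => h2 (by rw [h])
  have h4 := hd (i 0) j h3
  rw [mem_closedBall, dist_comm] at h1
  have := hr j
  linarith

/-- PROOF.  Let `z ∈ LimSet` with itinerary `i, x`.  If `i 0 = j`, then `refl .. z = x 1` has the shifted itinerary.  If
`i 0 ≠ j`, then `‖z - c j‖ ≥ dist (c j) (c (i 0)) - r (i 0) ≥ r j`, so `refl .. z` is in the closed disc `j` (`g1_norm`), it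
is not `c j`, and its itinerary is `j, i 0, i 1, ...` with the points `refl .. z, x 0, x 1, ...` (`g1_invol`). -/
theorem g1_inv {n : ℕ} {c : Fin n → ℂ} {r : Fin n → ℝ} (hr : ∀ i, 0 < r i)
    (hd : ∀ i j, i ≠ j → r i + r j ≤ dist (c i) (c j)) (j : Fin n) :
    refl (c j) (r j) '' LimSet c r ⊆ LimSet c r := by
  rintro _ ⟨z, ⟨i, x, hx0, hx⟩, rfl⟩
  by_cases hij : i 0 = j
  · refine ⟨fun k => i (k + 1), fun k => x (k + 1), ?_, fun k => hx (k + 1)⟩
    have h1 := (hx 0).2.2.2
    rw [hx0, hij] at h1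
    exact h1
  · have h1 := (hx 0).2.1
    rw [hx0, mem_closedBall, dist_comm] at h1
    have h2 := hd (i 0) j hij
    have h3 : r j ≤ ‖z - c j‖ := by
      have h4 := dist_triangle (c (i 0)) z (c j)
      rw [← dist_eq_norm]
      linarith
    have h4 : 0 < ‖z - c j‖ := lt_of_lt_of_le (hr j) h3
    have h5 : z ≠ c j := by
      intro h6
      rw [h6, sub_self, norm_zero] at h4
      exact lt_irrefl _ h4
    refine ⟨fun k => Nat.casesOn k j i, fun k => Nat.casesOn k (refl (c j) (r j) z) x, rfl, ?_⟩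
    intro k
    cases k with
    | zero =>
      refine ⟨hij, ?_, ?_, ?_⟩
      · change refl (c j) (r j) z ∈ closedBall (c j) (r j)
        rw [mem_closedBall, dist_eq_norm, g1_norm, div_le_iff₀ h4]
        have := hr j
        nlinarith
      · change refl (c j) (r j) z ≠ c j
        rw [← sub_ne_zero, ← norm_pos_iff, g1_norm]
        have := hr j
        positivity
      · change x 0 = refl (c j) (r j) (refl (c j) (r j) z)
        rw [g1_invol (hr j) h5, hx0]
    | succ k => exact hx k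

/-- PROOF.  It is contained in the compact set `K = ⋃ j, closedBall (c j) (r j)`, so we need that it is closed (`n = 0`: empty).  Let
`z m → z`, with itineraries `i m, x m`.  The product `(ℕ → Fin n) × (ℕ → K)` is compact and metrizable, so for a subsequence
`i m k` is eventually constant `= i k` and `x m k → x k` for every `k`.  `‖x m k - c‖ = r ^ 2 / ‖x m (k+1) - c‖` is bounded
below by a positive constant (`K` is bounded), so `x k ≠ c (i k)` and the relations pass to the limit (continuity of `refl`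
off its centre). -/
theorem g1_compact {n : ℕ} {c : Fin n → ℂ} {r : Fin n → ℝ} (hr : ∀ i, 0 < r i)
    (hd : ∀ i j, i ≠ j → r i + r j ≤ dist (c i) (c j)) : IsCompact (LimSet c r) := by
  have _ := hd
  set K : Set ℂ := ⋃ j, closedBall (c j) (r j) with hK
  have hKc : IsCompact K := isCompact_iUnion fun j => isCompact_closedBall _ _
  set Q : Set ((ℕ → Fin n) × (ℕ → ℂ)) := univ ×ˢ (Set.pi univ fun _ => K) with hQ
  have hQc : IsCompact Q := isCompact_univ.prod (isCompact_univ_pi fun _ => hKc)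
  set P : Set ((ℕ → Fin n) × (ℕ → ℂ)) := {p | ∀ k, p.1 (k + 1) ≠ p.1 k ∧
    dist (p.2 k) (c (p.1 k)) ≤ r (p.1 k) ∧
    (p.2 (k + 1) - c (p.1 k)) * conj (p.2 k - c (p.1 k)) = ((r (p.1 k) ^ 2 : ℝ) : ℂ)} with hP
  have hi : ∀ k, Continuous fun p : (ℕ → Fin n) × (ℕ → ℂ) => p.1 k := fun k =>
    (continuous_apply k).comp continuous_fst
  have hx : ∀ k, Continuous fun p : (ℕ → Fin n) × (ℕ → ℂ) => p.2 k := fun k =>
    (continuous_apply k).comp continuous_snd
  have hcc : ∀ k, Continuous fun p : (ℕ → Fin n) × (ℕ → ℂ) => c (p.1 k) := fun k =>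
    (continuous_of_discreteTopology (f := c)).comp (hi k)
  have hrc : ∀ k, Continuous fun p : (ℕ → Fin n) × (ℕ → ℂ) => r (p.1 k) := fun k =>
    (continuous_of_discreteTopology (f := r)).comp (hi k)
  have hPc : IsClosed P := by
    rw [hP]
    simp only [setOf_forall]
    refine isClosed_iInter fun k => ?_
    refine IsClosed.inter ?_ (IsClosed.inter ?_ ?_)
    · exact (isClosed_discrete {q : Fin n × Fin n | q.1 ≠ q.2}).preimage ((hi (k + 1)).prodMk (hi k))
    · exact isClosed_le ((hx k).dist (hcc k)) (hrc k)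
    · refine isClosed_eq (((hx (k + 1)).sub (hcc k)).mul
        (Complex.continuous_conj.comp ((hx k).sub (hcc k)))) ?_
      exact Complex.continuous_ofReal.comp ((hrc k).pow 2)
  have hPQ : IsCompact P := by
    refine hQc.of_isClosed_subset hPc ?_
    intro p hp
    refine ⟨mem_univ _, fun k _ => ?_⟩
    exact mem_iUnion.2 ⟨p.1 k, (hp k).2.1⟩
  have himg : LimSet c r = (fun p : (ℕ → Fin n) × (ℕ → ℂ) => p.2 0) '' P := by
    ext z
    constructor
    · rintro ⟨i, x, hx0, hxk⟩
      refine ⟨(i, x), fun k => ?_, hx0⟩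
      obtain ⟨h1, h2, h3, h4⟩ := hxk k
      refine ⟨h1, h2, ?_⟩
      change (x (k + 1) - c (i k)) * conj (x k - c (i k)) = _
      have h5 : conj (x k - c (i k)) ≠ 0 := (map_ne_zero _).2 (sub_ne_zero.2 h3)
      rw [h4, refl, add_sub_cancel_left, div_mul_cancel₀ _ h5]
      push_cast
      rfl
    · rintro ⟨⟨i, x⟩, hp, hx0⟩
      refine ⟨i, x, hx0, fun k => ?_⟩
      obtain ⟨h1, h2, h3⟩ := hp k
      change (x (k + 1) - c (i k)) * conj (x k - c (i k)) = ((r (i k) ^ 2 : ℝ) : ℂ) at h3
      have h4 : conj (x k - c (i k)) ≠ 0 := by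
        intro h5
        rw [h5, mul_zero] at h3
        have h6 := hr (i k)
        have h7 : ((r (i k) ^ 2 : ℝ) : ℂ) ≠ 0 := by
          rw [Complex.ofReal_ne_zero]
          positivity
        exact h7 h3.symm
      refine ⟨h1, h2, ?_, ?_⟩
      · intro h5
        apply h4
        rw [h5, sub_self, map_zero]
      · rw [refl, ← sub_eq_iff_eq_add', eq_div_iff h4, h3]
        push_cast
        rfl
  rw [himg]
  exact hPQ.image (hx 0)

end H51R
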