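import Pool.Agent.Lib.H51R.G1

/-!
# H51R, chunk G2: mirrors
-/

set_option autoImplicit false

namespace H51R

open Set Metric Topology Filter MeasureTheory
open scoped ComplexConjugate

/-- the circle of centre `c` and radius `r` is a mirror of `E` -/
structure Mir (E : Set ℂ) (c : ℂ) (r : ℝ) : Prop where
  pos : 0 < r
  cE : c ∉ E
  map : refl c r '' E ⊆ E

/-- The image of a circle under a reflection.  `d = ‖c - a‖ ^ 2 - r ^ 2 > 0`. -/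
noncomputable def imC (a : ℂ) (ρ : ℝ) (c : ℂ) (r : ℝ) : ℂ :=
  a + (ρ : ℂ) ^ 2 * (c - a) / ((‖c - a‖ ^ 2 - r ^ 2 : ℝ) : ℂ)

noncomputable def imR (a : ℂ) (ρ : ℝ) (c : ℂ) (r : ℝ) : ℝ := ρ ^ 2 * r / (‖c - a‖ ^ 2 - r ^ 2)

theorem g2_sq (w : ℂ) : ‖w‖ ^ 2 = w.re ^ 2 + w.im ^ 2 := by
  rw [Complex.sq_norm, Complex.normSq_apply]
  ring

theorem g2_refl_sub {a z : ℂ} {ρ : ℝ} : refl a ρ z - a = ((ρ ^ 2 / ‖z - a‖ ^ 2 : ℝ) : ℂ) * (z - a) := by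
  unfold refl
  rw [add_sub_cancel_left]
  by_cases h : z - a = 0
  · rw [h]
    simp
  · have h1 : conj (z - a) ≠ 0 := (map_ne_zero _).2 h
    have h2 : ((‖z - a‖ : ℝ) : ℂ) ^ 2 = (z - a) * conj (z - a) := by
      rw [Complex.mul_conj, Complex.normSq_eq_norm_sq]
      push_cast
      rfl
    push_cast
    rw [h2]
    field_simp

theorem g2_imC_sub {a c : ℂ} {ρ r : ℝ} :
    imC a ρ c r - a = ((ρ ^ 2 / (‖c - a‖ ^ 2 - r ^ 2) : ℝ) : ℂ) * (c - a) := by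
  unfold imC
  push_cast
  ring

/-- PROOF.  With `u = z - a`, `v = c - a`, `d = ‖v‖² - r²`, `refl a ρ z - a = ρ² u / ‖u‖²`:
`‖refl a ρ z - imC‖² - imR² = ρ⁴ (1 / ‖u‖² - 2 Re(u conj v) / (‖u‖² d) + ‖v‖² / d² - r² / d²)
= ρ⁴ (d - 2 Re(u conj v) + ‖u‖²) / (‖u‖² d) = ρ⁴ (‖u - v‖² - r²) / (‖u‖² d)`. -/
theorem g2_key {a c z : ℂ} {ρ r : ℝ} (hρ : 0 < ρ) (hr : 0 < r) (ha : r < ‖c - a‖) (hz : z ≠ a) :
    ‖refl a ρ z - imC a ρ c r‖ ^ 2 - imR a ρ c r ^ 2 =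
      ρ ^ 4 * (‖z - c‖ ^ 2 - r ^ 2) / (‖z - a‖ ^ 2 * (‖c - a‖ ^ 2 - r ^ 2)) := by
  have _ := hρ
  have e1 : refl a ρ z - imC a ρ c r = ((ρ ^ 2 / ‖z - a‖ ^ 2 : ℝ) : ℂ) * (z - a) -
      ((ρ ^ 2 / (‖c - a‖ ^ 2 - r ^ 2) : ℝ) : ℂ) * (c - a) := by
    rw [← g2_refl_sub, ← g2_imC_sub]
    ring
  have e2 : z - c = (z - a) - (c - a) := by ring
  have hN : 0 < ‖z - a‖ ^ 2 := by
    have : 0 < ‖z - a‖ := norm_pos_iff.2 (sub_ne_zero.2 hz)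
    positivity
  have hd : 0 < ‖c - a‖ ^ 2 - r ^ 2 := by nlinarith
  rw [e1, e2, imR]
  generalize hu : z - a = u at *
  generalize hv : c - a = v at *
  have h1 : ‖u‖ ^ 2 = u.re ^ 2 + u.im ^ 2 := g2_sq u
  have h2 : ‖v‖ ^ 2 = v.re ^ 2 + v.im ^ 2 := g2_sq v
  have h3 : ‖u - v‖ ^ 2 = ‖u‖ ^ 2 - 2 * (u.re * v.re + u.im * v.im) + ‖v‖ ^ 2 := by
    rw [h1, h2, g2_sq]
    simp only [Complex.sub_re, Complex.sub_im]
    ring
  have h4 : ∀ α β : ℝ, ‖(α : ℂ) * u - (β : ℂ) * v‖ ^ 2 = α ^ 2 * ‖u‖ ^ 2 -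
      2 * α * β * (u.re * v.re + u.im * v.im) + β ^ 2 * ‖v‖ ^ 2 := by
    intro α β
    rw [h1, h2, g2_sq]
    simp only [Complex.sub_re, Complex.sub_im, Complex.re_ofReal_mul, Complex.im_ofReal_mul]
    ring
  rw [h3, h4]
  generalize ‖u‖ ^ 2 = N at *
  generalize u.re * v.re + u.im * v.im = s at *
  generalize hV : ‖v‖ ^ 2 = V at *
  have hN0 : N ≠ 0 := hN.ne'
  have hd0 : V - r ^ 2 ≠ 0 := hd.ne'
  field_simp
  ring

theorem g2_closed {a c z : ℂ} {ρ r : ℝ} (hρ : 0 < ρ) (hr : 0 < r) (ha : r < ‖c - a‖) (hz : z ≠ a) :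
    refl a ρ z ∈ closedBall (imC a ρ c r) (imR a ρ c r) ↔ z ∈ closedBall c r := by
  have hd : 0 < ‖c - a‖ ^ 2 - r ^ 2 := by nlinarith
  have hR : 0 < imR a ρ c r := by
    unfold imR
    positivity
  have hN : 0 < ‖z - a‖ := norm_pos_iff.2 (sub_ne_zero.2 hz)
  have hk := g2_key hρ hr ha hz
  have hC : 0 < ρ ^ 4 / (‖z - a‖ ^ 2 * (‖c - a‖ ^ 2 - r ^ 2)) := by positivity
  have hk' : ‖refl a ρ z - imC a ρ c r‖ ^ 2 - imR a ρ c r ^ 2 =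
      ρ ^ 4 / (‖z - a‖ ^ 2 * (‖c - a‖ ^ 2 - r ^ 2)) * (‖z - c‖ ^ 2 - r ^ 2) := by
    rw [hk]
    ring
  rw [mem_closedBall, dist_eq_norm, mem_closedBall, dist_eq_norm,
    ← sq_le_sq₀ (norm_nonneg _) hR.le, ← sq_le_sq₀ (norm_nonneg _) hr.le, ← sub_nonpos, hk',
    ← sub_nonpos (a := ‖z - c‖ ^ 2)]
  constructor
  · intro h
    by_contra h1
    rw [not_le] at h1
    have := mul_pos hC h1
    linarith
  · intro h
    exact mul_nonpos_of_nonneg_of_nonpos hC.le h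

theorem g2_open {a c z : ℂ} {ρ r : ℝ} (hρ : 0 < ρ) (hr : 0 < r) (ha : r < ‖c - a‖) (hz : z ≠ a) :
    refl a ρ z ∈ ball (imC a ρ c r) (imR a ρ c r) ↔ z ∈ ball c r := by
  have hd : 0 < ‖c - a‖ ^ 2 - r ^ 2 := by nlinarith
  have hR : 0 < imR a ρ c r := by
    unfold imR
    positivity
  have hN : 0 < ‖z - a‖ := norm_pos_iff.2 (sub_ne_zero.2 hz)
  have hk := g2_key hρ hr ha hz
  have hC : 0 < ρ ^ 4 / (‖z - a‖ ^ 2 * (‖c - a‖ ^ 2 - r ^ 2)) := by positivity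
  have hk' : ‖refl a ρ z - imC a ρ c r‖ ^ 2 - imR a ρ c r ^ 2 =
      ρ ^ 4 / (‖z - a‖ ^ 2 * (‖c - a‖ ^ 2 - r ^ 2)) * (‖z - c‖ ^ 2 - r ^ 2) := by
    rw [hk]
    ring
  rw [mem_ball, dist_eq_norm, mem_ball, dist_eq_norm,
    ← sq_lt_sq₀ (norm_nonneg _) hR.le, ← sq_lt_sq₀ (norm_nonneg _) hr.le, ← sub_neg, hk',
    ← sub_neg (a := ‖z - c‖ ^ 2)]
  constructor
  · intro h
    by_contra h1
    rw [not_lt] at h1
    have := mul_nonneg hC.le h1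
    linarith
  · intro h
    exact mul_neg_of_pos_of_neg hC h

theorem g2_alg {U v V ρ r d : ℂ} (hd : d = v * V - r ^ 2) (hd0 : d ≠ 0) (hU : U ≠ 0)
    (h1 : ρ ^ 2 / U - v ≠ 0) (h2 : U - ρ ^ 2 * V / d ≠ 0) (h3 : V + r ^ 2 / (ρ ^ 2 / U - v) ≠ 0) :
    ρ ^ 2 * v / d + (ρ ^ 2 * r / d) ^ 2 / (U - ρ ^ 2 * V / d) = ρ ^ 2 / (V + r ^ 2 / (ρ ^ 2 / U - v)) := by
  have h1' : ρ ^ 2 - v * U ≠ 0 := by
    intro h
    apply h1
    rw [div_sub' hU, div_eq_zero_iff]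
    left
    rw [← h]
    ring
  have h2' : d * U - ρ ^ 2 * V ≠ 0 := by
    intro h
    apply h2
    rw [sub_div' hd0, div_eq_zero_iff]
    left
    rw [← h]
    ring
  have e1 : r ^ 2 / (ρ ^ 2 / U - v) = r ^ 2 * U / (ρ ^ 2 - v * U) := by
    have : ρ ^ 2 / U - v = (ρ ^ 2 - v * U) / U := by
      field_simp
    rw [this]
    field_simp
  have e2 : V + r ^ 2 / (ρ ^ 2 / U - v) = (ρ ^ 2 * V - d * U) / (ρ ^ 2 - v * U) := by
    rw [e1, hd, eq_div_iff h1', add_mul, div_mul_cancel₀ _ h1']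
    ring
  have e3 : U - ρ ^ 2 * V / d = (d * U - ρ ^ 2 * V) / d := by
    field_simp
  have h2'' : ρ ^ 2 * V - d * U ≠ 0 := by
    intro h
    apply h2'
    linear_combination -h
  rw [e2, e3]
  field_simp
  rw [hd]
  ring

/-- The reflection in the image circle.  PROOF.  Direct computation with `field_simp`/`ring` after writing
`refl a ρ z = a + ρ² / conj (z - a)` etc.: put `u = z - a`, `v = c - a` (so everything is translated to `a = 0`).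
`refl a ρ z - c = ρ² / conj u - v = (ρ² - v conj u) / conj u`;
`refl c r (refl a ρ z) - a = v + r² u / (ρ² - conj v u)`; its conjugate inverse times `ρ²` is
`ρ² (ρ² - v conj u) / (conj v (ρ² - v conj u) + r² conj u) = ρ² (ρ² - v conj u) / (ρ² conj v - d conj u)`; and
`imC - a + imR² / conj (z - imC) = ρ² v / d + (ρ⁴ r² / d²) / (conj u - ρ² conj v / d)
= ρ² v / d + ρ⁴ r² / (d (d conj u - ρ² conj v))`, the same number. -/
theorem g2_conj {a c z : ℂ} {ρ r : ℝ} (hρ : 0 < ρ) (hr : 0 < r) (ha : r < ‖c - a‖) (hz : z ≠ a)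
    (h1 : refl a ρ z ≠ c) (h2 : refl c r (refl a ρ z) ≠ a) (h3 : z ≠ imC a ρ c r) :
    refl (imC a ρ c r) (imR a ρ c r) z = refl a ρ (refl c r (refl a ρ z)) := by
  have _ := hρ
  have hd : 0 < ‖c - a‖ ^ 2 - r ^ 2 := by nlinarith
  have hd0 : ((‖c - a‖ ^ 2 - r ^ 2 : ℝ) : ℂ) ≠ 0 := by
    rw [Complex.ofReal_ne_zero]
    exact hd.ne'
  have hdv : ((‖c - a‖ ^ 2 - r ^ 2 : ℝ) : ℂ) = (c - a) * conj (c - a) - (r : ℂ) ^ 2 := by
    rw [Complex.mul_conj, Complex.normSq_eq_norm_sq]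
    push_cast
    rfl
  have hU : conj (z - a) ≠ 0 := (map_ne_zero _).2 (sub_ne_zero.2 hz)
  have k1 : (ρ : ℂ) ^ 2 / conj (z - a) - (c - a) ≠ 0 := by
    intro h
    apply h1
    unfold refl
    linear_combination h
  have e1 : conj ((ρ : ℂ) ^ 2 / conj (z - a) - (c - a)) = (ρ : ℂ) ^ 2 / (z - a) - conj (c - a) := by
    rw [map_sub, map_div₀, map_pow, Complex.conj_ofReal, Complex.conj_conj]
  have e2 : refl a ρ z - c = (ρ : ℂ) ^ 2 / conj (z - a) - (c - a) := by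
    unfold refl
    ring
  have e3 : refl c r (refl a ρ z) - a = (c - a) + (r : ℂ) ^ 2 / ((ρ : ℂ) ^ 2 / (z - a) - conj (c - a)) := by
    rw [← e1, ← e2]
    change c + (r : ℂ) ^ 2 / conj (refl a ρ z - c) - a = _
    ring
  have e4 : conj (refl c r (refl a ρ z) - a) = conj (c - a) +
      (r : ℂ) ^ 2 / ((ρ : ℂ) ^ 2 / conj (z - a) - (c - a)) := by
    rw [e3, map_add, map_div₀, map_pow, Complex.conj_ofReal, ← e1, Complex.conj_conj]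
  have k3 : conj (c - a) + (r : ℂ) ^ 2 / ((ρ : ℂ) ^ 2 / conj (z - a) - (c - a)) ≠ 0 := by
    rw [← e4]
    exact (map_ne_zero _).2 (sub_ne_zero.2 h2)
  have e5 : conj (z - imC a ρ c r) = conj (z - a) -
      (ρ : ℂ) ^ 2 * conj (c - a) / ((‖c - a‖ ^ 2 - r ^ 2 : ℝ) : ℂ) := by
    have : z - imC a ρ c r = (z - a) - (ρ : ℂ) ^ 2 * (c - a) / ((‖c - a‖ ^ 2 - r ^ 2 : ℝ) : ℂ) := by
      unfold imC
      ring
    rw [this, map_sub, map_div₀, map_mul, map_pow, Complex.conj_ofReal, Complex.conj_ofReal]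
  have k2 : conj (z - a) - (ρ : ℂ) ^ 2 * conj (c - a) / ((‖c - a‖ ^ 2 - r ^ 2 : ℝ) : ℂ) ≠ 0 := by
    rw [← e5]
    exact (map_ne_zero _).2 (sub_ne_zero.2 h3)
  have key := g2_alg hdv hd0 hU k1 k2 k3
  have e6 : refl (imC a ρ c r) (imR a ρ c r) z = a + ((ρ : ℂ) ^ 2 * (c - a) / ((‖c - a‖ ^ 2 - r ^ 2 : ℝ) : ℂ) +
      ((ρ : ℂ) ^ 2 * r / ((‖c - a‖ ^ 2 - r ^ 2 : ℝ) : ℂ)) ^ 2 / (conj (z - a) -
        (ρ : ℂ) ^ 2 * conj (c - a) / ((‖c - a‖ ^ 2 - r ^ 2 : ℝ) : ℂ))) := by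
    rw [← e5]
    unfold refl
    have : ((imR a ρ c r : ℝ) : ℂ) = (ρ : ℂ) ^ 2 * r / ((‖c - a‖ ^ 2 - r ^ 2 : ℝ) : ℂ) := by
      unfold imR
      rw [Complex.ofReal_div, Complex.ofReal_mul, Complex.ofReal_pow]
    rw [this]
    have h7 : imC a ρ c r = a + (ρ : ℂ) ^ 2 * (c - a) / ((‖c - a‖ ^ 2 - r ^ 2 : ℝ) : ℂ) := rfl
    rw [← add_assoc, ← h7]
  rw [e6, key, ← e4]
  rfl

/-- PROOF.  `imR > 0`.  `imC = refl a ρ q` with `q = refl c r a` (`q - a = (c - a) d / ‖c - a‖²`); if `imC ∈ E`, then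
`q = refl a ρ imC ∈ E` (`g1_invol`, `q ≠ a`), and `a = refl c r q ∈ E`, a contradiction.  For `z ∈ E`: `z ≠ a`,
`refl a ρ z ∈ E` is `≠ c`, `refl c r (refl a ρ z) ∈ E` is `≠ a`, `z ≠ imC`; use `g2_conj`. -/
theorem g2_step {E : Set ℂ} {a c : ℂ} {ρ r : ℝ} (h1 : Mir E a ρ) (h2 : Mir E c r)
    (ha : r < ‖c - a‖) : Mir E (imC a ρ c r) (imR a ρ c r) := by
  have hρ := h1.pos
  have hr := h2.pos
  have hd : 0 < ‖c - a‖ ^ 2 - r ^ 2 := by nlinarith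
  have hR : 0 < imR a ρ c r := by
    unfold imR
    positivity
  have hv : c - a ≠ 0 := by
    rw [← norm_pos_iff]
    linarith
  have hca : a ≠ c := fun h => hv (by rw [h, sub_self])
  have hr0 : (r : ℂ) ≠ 0 := by
    rw [Complex.ofReal_ne_zero]
    exact hr.ne'
  have hcE : imC a ρ c r ∉ E := by
    intro hE
    set q : ℂ := refl c r a with hq
    have hd0 : ((‖c - a‖ ^ 2 - r ^ 2 : ℝ) : ℂ) ≠ 0 := by
      rw [Complex.ofReal_ne_zero]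
      exact hd.ne'
    have hdv : ((‖c - a‖ ^ 2 - r ^ 2 : ℝ) : ℂ) = (c - a) * conj (c - a) - (r : ℂ) ^ 2 := by
      rw [Complex.mul_conj, Complex.normSq_eq_norm_sq]
      push_cast
      rfl
    have hV : conj (c - a) ≠ 0 := (map_ne_zero _).2 hv
    have e1 : q - a = ((‖c - a‖ ^ 2 - r ^ 2 : ℝ) : ℂ) / conj (c - a) := by
      rw [hq, hdv]
      unfold refl
      have h3 : a - c = -(c - a) := by ring
      rw [h3, map_neg]
      field_simp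
      ring
    have hqa : q ≠ a := by
      rw [← sub_ne_zero, e1]
      exact div_ne_zero hd0 hV
    have e2 : refl a ρ q = imC a ρ c r := by
      unfold refl imC
      rw [e1, map_div₀, Complex.conj_ofReal, Complex.conj_conj]
      field_simp
    have h3 : refl a ρ (imC a ρ c r) ∈ E := h1.map ⟨_, hE, rfl⟩
    rw [← e2, g1_invol hρ hqa] at h3
    have h4 : refl c r q ∈ E := h2.map ⟨_, h3, rfl⟩
    rw [hq, g1_invol hr hca] at h4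
    exact h1.cE h4
  refine ⟨hR, hcE, ?_⟩
  rintro _ ⟨z, hz, rfl⟩
  have hy : refl a ρ z ∈ E := h1.map ⟨_, hz, rfl⟩
  have hw : refl c r (refl a ρ z) ∈ E := h2.map ⟨_, hy, rfl⟩
  have hx : refl a ρ (refl c r (refl a ρ z)) ∈ E := h1.map ⟨_, hw, rfl⟩
  rw [g2_conj hρ hr ha (fun h => h1.cE (h ▸ hz)) (fun h => h2.cE (h ▸ hy)) (fun h => h1.cE (h ▸ hw))
    (fun h => hcE (h ▸ hz))]
  exact hx

end H51R
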