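import Pool.Agent.Lib.H51R.G2

/-!
# H51R, chunk G3: the nested discs of an itinerary
-/

set_option autoImplicit false

namespace H51R

open Set Metric Topology Filter MeasureTheory
open scoped ComplexConjugate

/-- `x` follows the itinerary `i` for `k` steps, starting at `y` -/
def Follow {n : ℕ} (c : Fin n → ℂ) (r : Fin n → ℝ) (i : ℕ → Fin n) (k : ℕ) (y : ℂ) (x : ℕ → ℂ) :
    Prop :=
  x 0 = y ∧ (∀ j < k, x j ∈ closedBall (c (i j)) (r (i j)) ∧ x j ≠ c (i j) ∧
    x (j + 1) = refl (c (i j)) (r (i j)) (x j)) ∧ x k ∈ closedBall (c (i k)) (r (i k))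

theorem g3_ne {a c y : ℂ} {ρ r : ℝ} (hρ : 0 < ρ) (hr : 0 < r) (ha : r < ‖c - a‖)
    (hy : y ∈ closedBall (imC a ρ c r) (imR a ρ c r)) : y ≠ a := by
  rintro rfl
  have hd : 0 < ‖c - y‖ ^ 2 - r ^ 2 := by nlinarith
  rw [mem_closedBall, dist_eq_norm] at hy
  have h1 : y - imC y ρ c r = -((ρ : ℂ) ^ 2 * (c - y) / ((‖c - y‖ ^ 2 - r ^ 2 : ℝ) : ℂ)) := by
    unfold imC
    ring
  rw [h1, norm_neg, norm_div, norm_mul, norm_pow, Complex.norm_real, Complex.norm_real,
    Real.norm_eq_abs, Real.norm_eq_abs, abs_of_pos hρ, abs_of_pos hd] at hy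
  unfold imR at hy
  rw [div_le_div_iff_of_pos_right hd] at hy
  have h2 : ρ ^ 2 * r < ρ ^ 2 * ‖c - y‖ := mul_lt_mul_of_pos_left ha (by positivity)
  linarith

theorem g3_refl_ne {a y : ℂ} {ρ : ℝ} (hρ : 0 < ρ) (hy : y ≠ a) : refl a ρ y ≠ a := by
  intro h
  have h1 := g1_norm (c := a) (z := y) (r := ρ)
  rw [h, sub_self, norm_zero] at h1
  have h2 : 0 < ρ ^ 2 / ‖y - a‖ := div_pos (by positivity) (norm_pos_iff.2 (sub_ne_zero.2 hy))
  linarith

theorem g3_iff {a c y : ℂ} {ρ r : ℝ} (hρ : 0 < ρ) (hr : 0 < r) (ha : r < ‖c - a‖) (hy : y ≠ a) :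
    y ∈ closedBall (imC a ρ c r) (imR a ρ c r) ↔ refl a ρ y ∈ closedBall c r := by
  have h := g2_closed hρ hr ha (g3_refl_ne hρ hy)
  rwa [g1_invol hρ hy] at h

theorem g3_iffo {a c y : ℂ} {ρ r : ℝ} (hρ : 0 < ρ) (hr : 0 < r) (ha : r < ‖c - a‖) (hy : y ≠ a) :
    y ∈ ball (imC a ρ c r) (imR a ρ c r) ↔ refl a ρ y ∈ ball c r := by
  have h := g2_open hρ hr ha (g3_refl_ne hρ hy)
  rwa [g1_invol hρ hy] at h

/-- PROOF.  Induction on `k` for all `i`.  `k = 0`: `c' = c (i 0)`, `r' = r (i 0)`, a mirror by `g1_center`, `g1_inv`.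
Step: let `c₁, r₁` belong to `k` and the shifted itinerary `j ↦ i (j + 1)`: `closedBall c₁ r₁ ⊆ closedBall (c (i 1)) (r (i 1))`.
With `a = c (i 0)`, `ρ = r (i 0)`: `r₁ < ‖c₁ - a‖`, because `a` is at distance `≥ ρ + r (i 1)` from `c (i 1)`, so
`closedBall c₁ r₁` is contained in `{y | ρ ≤ ‖y - a‖}`, so it does not contain `a`, moreover `‖c₁ - a‖ ≥ r₁ + ρ` (take the
point of the closed ball which is nearest to `a`).  Put `c' = imC a ρ c₁ r₁`, `r' = imR a ρ c₁ r₁`, a mirror by `g2_step`.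
`closedBall c' r' ⊆ closedBall a ρ`: for `y ∈ closedBall c' r'`, `y ≠ a` (`g2_key` computation: `‖a - imC‖ > imR` since
`‖c₁ - a‖ > r₁`), `refl a ρ y ∈ closedBall c₁ r₁` by `g2_closed` (applied to `z = refl a ρ y`, `g1_invol`), which is at
distance `≥ ρ` from `a`, so `‖y - a‖ = ρ² / ‖refl a ρ y - a‖ ≤ ρ`.  The characterisations of `closedBall c' r'` and `ball c' r'` follow
from `g2_closed`, `g2_open` and the induction hypothesis for `refl a ρ y`. -/
theorem g3_discs {n : ℕ} {c : Fin n → ℂ} {r : Fin n → ℝ} (hr : ∀ i, 0 < r i)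
    (hd : ∀ i j, i ≠ j → r i + r j ≤ dist (c i) (c j)) (k : ℕ) (i : ℕ → Fin n)
    (hi : ∀ j, i (j + 1) ≠ i j) :
    ∃ (c' : ℂ) (r' : ℝ), Mir (LimSet c r) c' r' ∧
      closedBall c' r' ⊆ closedBall (c (i 0)) (r (i 0)) ∧
      (∀ y, y ∈ closedBall c' r' ↔ ∃ x, Follow c r i k y x) ∧
      (∀ y x, Follow c r i k y x → x k ∈ ball (c (i k)) (r (i k)) → y ∈ ball c' r') := by
  have hM : ∀ j, Mir (LimSet c r) (c j) (r j) := fun j =>
    ⟨hr j, g1_center hr hd j, g1_inv hr hd j⟩
  induction k generalizing i with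
  | zero =>
    refine ⟨c (i 0), r (i 0), hM _, le_rfl, fun y => ⟨fun hy => ⟨fun _ => y, rfl, ?_, hy⟩, ?_⟩, ?_⟩
    · intro j hj
      exact absurd hj (Nat.not_lt_zero j)
    · rintro ⟨x, h0, _, h1⟩
      rw [h0] at h1
      exact h1
    · rintro y x ⟨h0, _, _⟩ h1
      rw [h0] at h1
      exact h1
  | succ k ih =>
    obtain ⟨c₁, r₁, hM₁, hsub, hiff, hop⟩ := ih (fun j => i (j + 1)) (fun j => hi (j + 1))
    have hfar : ∀ y ∈ closedBall c₁ r₁, r (i 0) ≤ ‖y - c (i 0)‖ := by
      intro y hy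
      have h1 := hsub hy
      simp only [zero_add] at h1
      rw [mem_closedBall] at h1
      have h2 := hd (i 1) (i 0) (hi 0)
      have h3 := dist_triangle (c (i 1)) y (c (i 0))
      rw [dist_comm (c (i 1)) y] at h3
      rw [← dist_eq_norm]
      linarith
    have ha : r₁ < ‖c₁ - c (i 0)‖ := by
      by_contra hcon
      push Not at hcon
      have h1 := hfar (c (i 0)) (by
        rw [mem_closedBall, dist_comm, dist_eq_norm]
        exact hcon)
      rw [sub_self, norm_zero] at h1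
      linarith [hr (i 0)]
    refine ⟨imC (c (i 0)) (r (i 0)) c₁ r₁, imR (c (i 0)) (r (i 0)) c₁ r₁,
      g2_step (hM _) hM₁ ha, ?_, ?_, ?_⟩
    · intro y hy
      have hya := g3_ne (hr _) hM₁.pos ha hy
      have h1 := hfar _ ((g3_iff (hr _) hM₁.pos ha hya).1 hy)
      rw [g1_norm] at h1
      have h2 : 0 < ‖y - c (i 0)‖ := norm_pos_iff.2 (sub_ne_zero.2 hya)
      rw [le_div_iff₀ h2] at h1
      rw [mem_closedBall, dist_eq_norm]
      have h3 := hr (i 0)
      by_contra hcon
      push Not at hcon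
      nlinarith
    · intro y
      constructor
      · intro hy
        have hya := g3_ne (hr _) hM₁.pos ha hy
        have h1 := (g3_iff (hr _) hM₁.pos ha hya).1 hy
        obtain ⟨x', h0, hx', hxk⟩ := (hiff _).1 h1
        refine ⟨fun j => Nat.casesOn j y x', rfl, ?_, hxk⟩
        intro j hj
        cases j with
        | zero =>
          have h2 := hfar _ h1
          rw [g1_norm] at h2
          have h3 : 0 < ‖y - c (i 0)‖ := norm_pos_iff.2 (sub_ne_zero.2 hya)
          rw [le_div_iff₀ h3] at h2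
          have h4 := hr (i 0)
          refine ⟨?_, hya, h0⟩
          show y ∈ _
          rw [mem_closedBall, dist_eq_norm]
          by_contra hcon
          push Not at hcon
          nlinarith
        | succ j => exact hx' j (by omega)
      · rintro ⟨x, h0, hx, hxk⟩
        obtain ⟨h1, h2, h3⟩ := hx 0 (by omega)
        rw [h0] at h1 h2 h3
        refine (g3_iff (hr _) hM₁.pos ha h2).2 ((hiff _).2 ⟨fun j => x (j + 1), h3, ?_, hxk⟩)
        intro j hj
        exact hx (j + 1) (by omega)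
    · rintro y x ⟨h0, hx, hxk⟩ hb
      obtain ⟨h1, h2, h3⟩ := hx 0 (by omega)
      rw [h0] at h1 h2 h3
      refine (g3_iffo (hr _) hM₁.pos ha h2).2 (hop _ (fun j => x (j + 1)) ⟨h3, ?_, hxk⟩ hb)
      intro j hj
      exact hx (j + 1) (by omega)

/-- PROOF.  Suppose not: then there is `ε > 0` such that for every `k` the disc `c' k, r' k` from `g3_discs` has
`ε ≤ r' k` (it is a mirror and contains `z = x 0` in the open disc).  All the centres `c' k` are in the compact set
`closedBall (c (i 0)) (r (i 0))`; let `w` be a cluster point of `k ↦ c' k`.  For `y ∈ ball w (ε / 2)` there are infinitely many `k`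
with `y ∈ closedBall (c' k) (r' k)`, so `y` follows `i` for `k` steps; the sequences `x` are unique
(`x (j+1)` is determined by `x j`), so they fit together to an infinite itinerary and `y ∈ LimSet c r`
(a `k + 1` step sequence satisfies the condition for all `j ≤ k`).  So `LimSet c r` has an interior point. -/
theorem g3_small {n : ℕ} {c : Fin n → ℂ} {r : Fin n → ℝ} (hr : ∀ i, 0 < r i)
    (hd : ∀ i j, i ≠ j → r i + r j ≤ dist (c i) (c j)) (hint : interior (LimSet c r) = ∅)
    {i : ℕ → Fin n} {x : ℕ → ℂ} (h : ∀ k, i (k + 1) ≠ i k ∧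
      x k ∈ ball (c (i k)) (r (i k)) ∧ x k ≠ c (i k) ∧
      x (k + 1) = refl (c (i k)) (r (i k)) (x k)) {ε : ℝ} (hε : 0 < ε) :
    ∃ (c' : ℂ) (r' : ℝ), Mir (LimSet c r) c' r' ∧ r' < ε ∧ x 0 ∈ ball c' r' := by
  by_contra hcon
  push Not at hcon
  have hi : ∀ j, i (j + 1) ≠ i j := fun j => (h j).1
  choose c' r' hM hsub hiff hop using fun k => g3_discs hr hd k i hi
  have hFol : ∀ k, Follow c r i k (x 0) x := fun k =>
    ⟨rfl, fun j _ => ⟨ball_subset_closedBall (h j).2.1, (h j).2.2.1, (h j).2.2.2⟩,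
      ball_subset_closedBall (h k).2.1⟩
  have hε' : ∀ k, ε ≤ r' k := by
    intro k
    by_contra hc
    push Not at hc
    exact hcon (c' k) (r' k) (hM k) hc (hop k _ _ (hFol k) (h k).2.1)
  obtain ⟨w, -, φ, hφ, hlim⟩ := (isCompact_closedBall (c (i 0)) (r (i 0))).tendsto_subseq
    (x := c') (fun k => hsub k (mem_closedBall_self (hM k).pos.le))
  have hball : ball w (ε / 2) ⊆ LimSet c r := by
    intro y hy
    rw [mem_ball] at hy
    set X : ℕ → ℂ := fun j => Nat.rec y (fun j z => refl (c (i j)) (r (i j)) z) j with hX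
    have huniq : ∀ m x', Follow c r i m y x' → ∀ j ≤ m, x' j = X j := by
      intro m x' hx' j
      induction j with
      | zero =>
        intro _
        exact hx'.1
      | succ j ih =>
        intro hj
        rw [(hx'.2.1 j (by omega)).2.2, ih (by omega)]
    refine ⟨i, X, rfl, fun j => ?_⟩
    obtain ⟨k, hk1, hk2⟩ := ((hlim.eventually (ball_mem_nhds w (half_pos hε))).and
      (eventually_ge_atTop (j + 1))).exists
    have hkj : j < φ k := lt_of_lt_of_le (Nat.lt_of_succ_le hk2) (hφ.id_le k)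
    have hyk : y ∈ closedBall (c' (φ k)) (r' (φ k)) := by
      have h1 : dist (c' (φ k)) w < ε / 2 := hk1
      rw [mem_closedBall]
      have h2 := dist_triangle y w (c' (φ k))
      rw [dist_comm w] at h2
      linarith [hε' (φ k)]
    obtain ⟨x', hx'⟩ := (hiff _ _).1 hyk
    have h3 := huniq _ _ hx' j hkj.le
    have h4 := hx'.2.1 j hkj
    rw [h3] at h4
    exact ⟨hi j, h4.1, h4.2.1, rfl⟩
  have h1 : w ∈ interior (LimSet c r) :=
    mem_interior.2 ⟨ball w (ε / 2), hball, isOpen_ball, mem_ball_self (half_pos hε)⟩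
  rw [hint] at h1
  exact h1

end H51R
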