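import Pool.Agent.Lib.H51R.G3
import Pool.Agent.Lib.H51R.F2

/-!
# H51R, chunk G4: limit sets of reflection groups
-/

set_option autoImplicit false

namespace H51R

open Set Metric Topology Filter MeasureTheory
open scoped ComplexConjugate

theorem g4_fix {c z : ℂ} {r : ℝ} (hr : 0 < r) (h : dist z c = r) : refl c r z = z := by
  rw [dist_eq_norm] at h
  have h0 : z - c ≠ 0 := by
    intro h0
    rw [h0, norm_zero] at h
    linarith
  have h1 : conj (z - c) ≠ 0 := by
    rw [Ne, map_eq_zero]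
    exact h0
  have h2 : (z - c) * conj (z - c) = (r : ℂ) ^ 2 := by
    rw [Complex.mul_conj, Complex.normSq_eq_norm_sq, h]
    push_cast
    ring
  unfold refl
  rw [← h2, mul_div_assoc, div_self h1]
  ring

theorem g4_touch {c c' z : ℂ} {r r' : ℝ} (hr : 0 < r) (hr' : 0 < r') (h : r + r' ≤ dist c c')
    (h1 : z ∈ closedBall c r) (h2 : z ∈ closedBall c' r') :
    z = c + ((r / (r + r') : ℝ) : ℂ) * (c' - c) := by
  have h3 : ‖(r' : ℂ) * (z - c) - r * (c' - z)‖ ^ 2 ≤ 0 := by
    rw [mem_closedBall, dist_eq_norm] at h1 h2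
    rw [dist_comm, dist_eq_norm] at h
    have e1 : ‖z - c‖ ^ 2 ≤ r ^ 2 := by
      apply pow_le_pow_left₀ (norm_nonneg _) h1
    have e2 : ‖z - c'‖ ^ 2 ≤ r' ^ 2 := by
      apply pow_le_pow_left₀ (norm_nonneg _) h2
    have e3 : (r + r') ^ 2 ≤ ‖c' - c‖ ^ 2 := by
      apply pow_le_pow_left₀ (by positivity) h
    rw [← Complex.normSq_eq_norm_sq, Complex.normSq_apply] at e1 e2 e3 ⊢
    simp only [Complex.sub_re, Complex.sub_im, Complex.mul_re, Complex.mul_im, Complex.ofReal_re,
      Complex.ofReal_im] at e1 e2 e3 ⊢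
    have k1 := mul_le_mul_of_nonneg_left e1 (by positivity : 0 ≤ r' * (r + r'))
    have k2 := mul_le_mul_of_nonneg_left e2 (by positivity : 0 ≤ r * (r + r'))
    have k3 := mul_le_mul_of_nonneg_left e3 (by positivity : 0 ≤ r * r')
    nlinarith [k1, k2, k3]
  have h4 : (r' : ℂ) * (z - c) - r * (c' - z) = 0 := by
    rw [← norm_eq_zero]
    exact pow_eq_zero_iff (two_ne_zero) |>.1 (le_antisymm h3 (by positivity))
  have h5 : ((r : ℂ) + r') ≠ 0 := by
    exact_mod_cast (by positivity : (r + r') ≠ 0)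
  push_cast
  field_simp
  linear_combination h4

/-- The points of the limit set whose itinerary touches a circle are countably many.  PROOF.  If `x k` is on the circle
number `i k`, then `x (k+1) = refl .. (x k) = x k` is in both closed discs `i k ≠ i (k+1)`, whose radii add up to at most the distance
of the centres, so it is the point `T (i k) (i (k+1)) = c (i k) + (r (i k) / (r (i k) + r (i (k+1)))) (c (i (k+1)) - c (i k))`
(and the two circles are tangent there).  So `x 0 = (refl_{i 0} ∘ ... ∘ refl_{i (k-1)}) (T (i k) (i (k+1)))` (`g1_invol`) is in the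
image of the countable set `List (Fin n) × Fin n × Fin n`. -/
theorem g4_countable {n : ℕ} {c : Fin n → ℂ} {r : Fin n → ℝ} (hr : ∀ i, 0 < r i)
    (hd : ∀ i j, i ≠ j → r i + r j ≤ dist (c i) (c j)) :
    {z : ℂ | ∃ (i : ℕ → Fin n) (x : ℕ → ℂ), x 0 = z ∧ (∀ k, i (k + 1) ≠ i k ∧
      x k ∈ closedBall (c (i k)) (r (i k)) ∧ x k ≠ c (i k) ∧
      x (k + 1) = refl (c (i k)) (r (i k)) (x k)) ∧
      ∃ k, x k ∉ ball (c (i k)) (r (i k))}.Countable := by
  set G : List (Fin n) × Fin n × Fin n → ℂ := fun p =>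
    List.foldr (fun j z => refl (c j) (r j) z)
      (c p.2.1 + ((r p.2.1 / (r p.2.1 + r p.2.2) : ℝ) : ℂ) * (c p.2.2 - c p.2.1)) p.1 with hG
  refine (Set.countable_range G).mono ?_
  rintro z ⟨i, x, rfl, hx, k, hk⟩
  induction k generalizing i x with
  | zero =>
    obtain ⟨h1, h2, h3, h4⟩ := hx 0
    have h5 : dist (x 0) (c (i 0)) = r (i 0) := by
      rw [mem_closedBall] at h2
      rw [mem_ball, not_lt] at hk
      exact le_antisymm h2 hk
    rw [g4_fix (hr _) h5] at h4
    have h6 := (hx (0 + 1)).2.1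
    rw [h4] at h6
    exact ⟨([], i 0, i (0 + 1)),
      (g4_touch (hr _) (hr _) (hd _ _ h1.symm) h2 h6).symm⟩
  | succ k ih =>
    obtain ⟨⟨l, a, b⟩, h1⟩ := ih (fun j => i (j + 1)) (fun j => x (j + 1))
      (fun j => hx (j + 1)) hk
    refine ⟨(i 0 :: l, a, b), ?_⟩
    have h2 : G (i 0 :: l, a, b) = refl (c (i 0)) (r (i 0)) (G (l, a, b)) := rfl
    rw [h2, h1]
    show refl (c (i 0)) (r (i 0)) (x (0 + 1)) = x 0
    rw [(hx 0).2.2.2, g1_invol (hr _) (hx 0).2.2.1]

/-- A compact set with arbitrarily small mirrors around all but countably many points.  PROOF.  `f2_criterion`; the set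
`E ∩ closedBall c r ∪ refl c r '' (E ∩ closedBall c r)` is contained in `E` (`e1_mono`). -/
theorem g4_mirrors {E : Set ℂ} (hE : IsClosed E) (h : Removable E) {Z : Set ℂ} (hZ : Z.Countable)
    (hm : ∀ z ∈ E \ Z, ∀ ε > 0, ∃ (c : ℂ) (r : ℝ), Mir E c r ∧ r < ε ∧ z ∈ ball c r) :
    LocRemovable E := by
  refine f2_criterion hE hZ fun z hz ε hε => ?_
  obtain ⟨c, r, hM, hr, hzb⟩ := hm z hz ε hε
  refine ⟨c, r, hM.pos, hr, hM.cE, hzb, e1_mono h ?_⟩
  exact union_subset inter_subset_left ((image_mono inter_subset_left).trans hM.map)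

/-- The limit set.  PROOF.  `g4_mirrors` with the countable set of `g4_countable`; `interior = ∅` by `e1_interior`; small
mirrors by `g3_small`; closed by `g1_compact`. -/
theorem g4_limset {n : ℕ} {c : Fin n → ℂ} {r : Fin n → ℝ} (hr : ∀ i, 0 < r i)
    (hd : ∀ i j, i ≠ j → r i + r j ≤ dist (c i) (c j)) (h : Removable (LimSet c r)) :
    LocRemovable (LimSet c r) := by
  refine g4_mirrors (g1_compact hr hd).isClosed h (g4_countable hr hd) ?_
  rintro z ⟨⟨i, x, rfl, hx⟩, hz⟩ ε hε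
  refine g3_small hr hd (e1_interior h) (i := i) (x := x) (fun k => ?_) hε
  refine ⟨(hx k).1, ?_, (hx k).2.2.1, (hx k).2.2.2⟩
  by_contra hcon
  exact hz ⟨i, x, rfl, hx, k, hcon⟩

end H51R
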